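import Pool.Agent.SC24.Red
import Pool.Agent.SC24.Gam
import Pool.Agent.SC24.Eval
import Pool.Agent.SC24.JacBase

/-!
The two special values at `-1/8` modulo `p^2`, `p = 6n+1`: `2 x1 - x2` is the binomial
coefficient `C(4n,2n)`.
-/

set_option linter.unusedSectionVars false

namespace SCD27

open Finset SC24

section
variable {p : ℕ} [hp : Fact p.Prime]

/-- descending products below `p` modulo `p^2` -/
lemma apB (th : ZMod (p ^ (2:ℕ))) {D : ℕ} (hD : D < p) : ∀ N : ℕ, N ≤ D →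
    (∏ j ∈ range N, (P2 p * th - ((D : ZMod (p ^ (2:ℕ))) - j))) *
      ((D - N).factorial : ZMod (p ^ (2:ℕ))) =
    (-1) ^ N * (D.factorial : ZMod (p ^ (2:ℕ))) *
      (1 - th * (P2 p * (harm (p ^ (2:ℕ)) D - harm (p ^ (2:ℕ)) (D - N)))) := by
  intro N
  induction N with
  | zero => intro _; simp
  | succ N ih =>
    intro hN
    have ih := ih (by omega)
    obtain ⟨k, hk⟩ : ∃ k, D = N + 1 + k := ⟨D - (N + 1), by omega⟩
    have e1 : D - N = k + 1 := by omega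
    have e2 : D - (N + 1) = k := by omega
    rw [e1] at ih
    rw [e2, prod_range_succ, pow_succ (-1 : ZMod (p ^ (2:ℕ))) N]
    have hu := unit_sq (p := p) (i := k + 1) (by omega) (by omega)
    have hH : harm (p ^ (2:ℕ)) (k + 1) = harm (p ^ (2:ℕ)) k + ((k + 1 : ℕ) : ZMod (p ^ (2:ℕ)))⁻¹ := by
      unfold harm; rw [sum_range_succ]
    have hf : ((k + 1).factorial : ZMod (p ^ (2:ℕ))) =
        ((k + 1 : ℕ) : ZMod (p ^ (2:ℕ))) * (k.factorial : ZMod (p ^ (2:ℕ))) := by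
      rw [Nat.factorial_succ, Nat.cast_mul]
    have hDN : (D : ZMod (p ^ (2:ℕ))) - N = ((k + 1 : ℕ) : ZMod (p ^ (2:ℕ))) := by
      rw [hk]; push_cast; ring
    rw [hDN]
    rw [hH, hf] at ih
    have hPP := P2_mul_self p
    set y := ((k + 1 : ℕ) : ZMod (p ^ (2:ℕ))) with hy
    set x := y⁻¹ with hx
    set h := harm (p ^ (2:ℕ)) D - harm (p ^ (2:ℕ)) k with hh
    have e3 : harm (p ^ (2:ℕ)) D - (harm (p ^ (2:ℕ)) k + x) = h - x := by rw [hh]; ring
    rw [e3] at ih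
    set Q := ∏ j ∈ range N, (P2 p * th - ((D : ZMod (p ^ (2:ℕ))) - j))
    set f := (k.factorial : ZMod (p ^ (2:ℕ)))
    set F := (D.factorial : ZMod (p ^ (2:ℕ)))
    -- cancel the unit y
    have key : y * (Q * (P2 p * th - y) * f) = y * ((-1) ^ N * -1 * F * (1 - th * (P2 p * h))) := by
      have : y * (Q * (P2 p * th - y) * f) = (Q * (y * f)) * (P2 p * th - y) := by ring
      rw [this, ih]
      linear_combination ((-1) ^ N * F * (-th ^ 2 * (h - x))) * hPP + ((-1) ^ N * F * (-th * P2 p)) * hu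
    linear_combination x * key - (Q * (P2 p * th - y) * f - (-1) ^ N * -1 * F * (1 - th * (P2 p * h))) * hu

/-- arithmetic progressions `a j + 1`, `a D + 1 = p` -/
lemma apC {a th : ZMod (p ^ (2:ℕ))} (ha : a * th = 1) {D N : ℕ} (hD : D < p) (hN : N ≤ D)
    (h : a * (D : ZMod (p ^ (2:ℕ))) + 1 = P2 p) :
    (∏ j ∈ range N, (a * (j : ZMod (p ^ (2:ℕ))) + 1)) * ((D - N).factorial : ZMod (p ^ (2:ℕ))) =
    (-a) ^ N * (D.factorial : ZMod (p ^ (2:ℕ))) *
      (1 - th * (P2 p * (harm (p ^ (2:ℕ)) D - harm (p ^ (2:ℕ)) (D - N)))) := by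
  have e : ∏ j ∈ range N, (a * (j : ZMod (p ^ (2:ℕ))) + 1) =
      a ^ N * ∏ j ∈ range N, (P2 p * th - ((D : ZMod (p ^ (2:ℕ))) - j)) := by
    rw [← card_range N, ← prod_const, card_range, ← prod_mul_distrib]
    apply prod_congr rfl
    intro j _
    linear_combination h - P2 p * ha
  rw [e, mul_assoc, apB th hD N hN, neg_pow]
  ring

lemma three_pow {n : ℕ} (hn : 6 * n + 1 = p) : ((-3 : ZMod p)) ^ (3 * n) = 1 := by
  have hp2 := hp.out.two_le
  have hn0 : 0 < n := by omega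
  have : Fact (Nat.Prime 3) := ⟨Nat.prime_three⟩
  have hdvd : 3 ∣ Fintype.card (ZMod p)ˣ := by
    rw [ZMod.card_units]
    exact ⟨2 * n, by omega⟩
  obtain ⟨g, hg⟩ := exists_prime_orderOf_dvd_card 3 hdvd
  have h1 : (g : ZMod p) ^ 3 = 1 := by
    rw [← Units.val_pow_eq_pow_val, ← hg, pow_orderOf_eq_one, Units.val_one]
  have h2 : (g : ZMod p) ≠ 1 := by
    intro h
    have : g = 1 := Units.ext h
    rw [this, orderOf_one] at hg
    omega
  have h3 : (g : ZMod p) ^ 2 + g + 1 = 0 := by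
    have : ((g : ZMod p) - 1) * ((g : ZMod p) ^ 2 + g + 1) = 0 := by linear_combination h1
    rcases mul_eq_zero.mp this with h | h
    · exact absurd (sub_eq_zero.mp h) h2
    · exact h
  have h4 : (-3 : ZMod p) = (2 * (g : ZMod p) + 1) ^ 2 := by linear_combination -4 * h3
  have h5 : (2 * (g : ZMod p) + 1) ≠ 0 := by
    intro h
    rw [h] at h4
    have h6 : ((3 : ℕ) : ZMod p) = 0 := by push_cast; linear_combination -h4
    rw [ZMod.natCast_eq_zero_iff] at h6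
    have := Nat.le_of_dvd (by norm_num) h6
    omega
  rw [h4, ← pow_mul, show 2 * (3 * n) = p - 1 by omega]
  exact ZMod.pow_card_sub_one_eq_one h5

lemma double_fact (n : ℕ) : (2 * n).factorial = 2 ^ n * n.factorial * ∏ j ∈ range n, (2 * j + 1) := by
  induction n with
  | zero => simp
  | succ n ih =>
    rw [show 2 * (n + 1) = 2 * n + 1 + 1 by ring, Nat.factorial_succ, Nat.factorial_succ, ih,
      prod_range_succ, Nat.factorial_succ, pow_succ]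
    ring

lemma pochX1 (n : ℕ) : ((27 / 16 : ℚ)) ^ n * poch (1 / 3) n / poch (1 / 6) n *
    (8 ^ n * ∏ j ∈ range n, (6 * (j : ℚ) + 1)) = 27 ^ n * ∏ j ∈ range n, (3 * (j : ℚ) + 1) := by
  have h1 : poch (1 / 6 : ℚ) n * 6 ^ n = ∏ j ∈ range n, (6 * (j : ℚ) + 1) := by
    unfold poch
    rw [← card_range n, ← prod_const, card_range, ← prod_mul_distrib]
    exact prod_congr rfl (fun j _ => by ring)
  have h2 : poch (1 / 3 : ℚ) n * 3 ^ n = ∏ j ∈ range n, (3 * (j : ℚ) + 1) := by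
    unfold poch
    rw [← card_range n, ← prod_const, card_range, ← prod_mul_distrib]
    exact prod_congr rfl (fun j _ => by ring)
  have h3 : poch (1 / 6 : ℚ) n ≠ 0 := by
    unfold poch
    exact prod_ne_zero_iff.mpr (fun j _ => by positivity)
  rw [← h1, ← h2]
  have e : (27 : ℚ) ^ n * (poch (1 / 3) n * 3 ^ n) = (27 / 16) ^ n * poch (1 / 3) n * (8 ^ n * 6 ^ n) := by
    rw [show (27 / 16 : ℚ) ^ n * poch (1 / 3) n * (8 ^ n * 6 ^ n) =
      ((27 / 16) ^ n * (8 ^ n * 6 ^ n)) * poch (1 / 3) n by ring, ← mul_pow, ← mul_pow,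
      show (27 : ℚ) ^ n * (poch (1 / 3) n * 3 ^ n) = (27 ^ n * 3 ^ n) * poch (1 / 3) n by ring, ← mul_pow]
    norm_num
  rw [e]
  field_simp

lemma pochX2 (n : ℕ) : ((27 / 16 : ℚ)) ^ (2 * n) * poch (1 / 2) (2 * n) / poch (1 / 3) (2 * n) *
    (1024 ^ n * ∏ j ∈ range (2 * n), (3 * (j : ℚ) + 1)) =
      6561 ^ n * ∏ j ∈ range (2 * n), (2 * (j : ℚ) + 1) := by
  have h1 : poch (1 / 3 : ℚ) (2 * n) * 3 ^ (2 * n) = ∏ j ∈ range (2 * n), (3 * (j : ℚ) + 1) := by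
    unfold poch
    rw [← card_range (2 * n), ← prod_const, card_range, ← prod_mul_distrib]
    exact prod_congr rfl (fun j _ => by ring)
  have h2 : poch (1 / 2 : ℚ) (2 * n) * 2 ^ (2 * n) = ∏ j ∈ range (2 * n), (2 * (j : ℚ) + 1) := by
    unfold poch
    rw [← card_range (2 * n), ← prod_const, card_range, ← prod_mul_distrib]
    exact prod_congr rfl (fun j _ => by ring)
  have h3 : poch (1 / 3 : ℚ) (2 * n) ≠ 0 := by
    unfold poch
    exact prod_ne_zero_iff.mpr (fun j _ => by positivity)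
  rw [← h1, ← h2]
  have e : (6561 : ℚ) ^ n * (poch (1 / 2) (2 * n) * 2 ^ (2 * n)) =
      (27 / 16) ^ (2 * n) * poch (1 / 2) (2 * n) * (1024 ^ n * 3 ^ (2 * n)) := by
    rw [show (27 / 16 : ℚ) ^ (2 * n) * poch (1 / 2) (2 * n) * (1024 ^ n * 3 ^ (2 * n)) =
      ((27 / 16) ^ (2 * n) * (1024 ^ n * 3 ^ (2 * n))) * poch (1 / 2) (2 * n) by ring,
      pow_mul (27 / 16 : ℚ), pow_mul (3 : ℚ), pow_mul (2 : ℚ), ← mul_pow, ← mul_pow,
      show (6561 : ℚ) ^ n * (poch (1 / 2) (2 * n) * (2 ^ 2) ^ n) = (6561 ^ n * (2 ^ 2) ^ n) * poch (1 / 2) (2 * n) by ring,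
      ← mul_pow]
    norm_num
  rw [e]
  field_simp

/-- the commutative algebra of the final step -/
lemma alg_end {R : Type*} [CommRing R] {P a b s f1 f2 f3 u1 u2 u3 x1 x2 c A1 A2 B E O : R}
    (ha : IsUnit a) (hb : IsUnit b) (hs : s * s = 1) (hf1 : IsUnit f1) (hf2 : IsUnit f2)
    (hf3 : IsUnit f3)
    (h11 : u1 * u1 = 0) (h12 : u1 * u2 = 0) (h13 : u1 * u3 = 0) (h22 : u2 * u2 = 0)
    (h23 : u2 * u3 = 0) (h33 : u3 * u3 = 0)
    (p1 : P * u1 = 0) (p2 : P * u2 = 0) (p3 : P * u3 = 0)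
    (hPa : P * a ^ 6 = P) (hPb : P * (s * b ^ 3) = P)
    (r1 : x1 * (a ^ 3 * B) = b ^ 3 * A1) (r2 : x2 * (a ^ 10 * A2) = b ^ 8 * E)
    (eA1 : A1 * f1 = s * b * f2 * (1 - 2 * (u2 - u1)))
    (eA2 : A2 = b ^ 2 * f2 * (1 - 2 * u2))
    (eB : B = s * a * b * f1 * (1 - u1))
    (eE : E * f1 = a ^ 2 * f3 * (1 - 3 * (u3 - u1)))
    (eO : O * f2 = s * a * f3 * (1 - 3 * (u3 - u2)))
    (e2 : f2 = a * f1 * O) (ec : c * f2 = a ^ 2 * E) :
    P * (x1 - x2) = 0 ∧ IsUnit x2 ∧ x1 ^ 2 = x2 * c := by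
  have hsu : IsUnit s := IsUnit.of_mul_eq_one _ hs
  have E1 : x1 * a ^ 4 * f1 ^ 2 = b ^ 3 * f2 * (1 - 2 * u2 + 3 * u1) := by
    apply (hsu.mul hb).mul_left_cancel
    have e : x1 * (a ^ 3 * (s * a * b * f1 * (1 - u1))) * f1 = b ^ 3 * (s * b * f2 * (1 - 2 * (u2 - u1))) := by
      rw [← eA1, ← eB]; linear_combination f1 * r1
    linear_combination (1 + u1) * e + (x1 * s * a ^ 4 * b * f1 ^ 2 + s * b ^ 4 * f2 * 2) * h11
      - 2 * s * b ^ 4 * f2 * h12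
  have E2 : x2 * a ^ 8 * f1 * f2 = b ^ 6 * f3 * (1 - 3 * (u3 - u1) + 2 * u2) := by
    apply ((ha.pow 2).mul (hb.pow 2)).mul_left_cancel
    have e : x2 * (a ^ 10 * (b ^ 2 * f2 * (1 - 2 * u2))) * f1 = b ^ 8 * (a ^ 2 * f3 * (1 - 3 * (u3 - u1))) := by
      rw [← eE, ← eA2]; linear_combination f1 * r2
    linear_combination (1 + 2 * u2) * e + 4 * x2 * a ^ 10 * b ^ 2 * f2 * f1 * h22
      - 6 * b ^ 8 * a ^ 2 * f3 * h23 + 6 * b ^ 8 * a ^ 2 * f3 * h12
  have E3 : c * f1 * f2 = a ^ 4 * f3 * (1 - 3 * (u3 - u1)) := by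
    linear_combination f1 * ec + a ^ 2 * eE
  have E4 : f2 ^ 2 = s * a ^ 2 * f1 * f3 * (1 - 3 * (u3 - u2)) := by
    linear_combination f2 * e2 + a * f1 * eO
  refine ⟨?_, ?_, ?_⟩
  · have g1 : P * x1 * a ^ 2 * f1 * f2 = P * f3 := by
      apply ((ha.pow 2).mul hf1).mul_left_cancel
      have t1 : P * (x1 * a ^ 4 * f1 ^ 2) * f2 = P * (s * b ^ 3) * (a ^ 2 * f1 * f3) := by
        rw [E1]
        linear_combination b ^ 3 * P * E4 + (-2 * b ^ 3 * f2 ^ 2) * p2 + 3 * b ^ 3 * f2 ^ 2 * p1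
          + (-3 * b ^ 3 * s * a ^ 2 * f1 * f3) * p3 + 3 * b ^ 3 * s * a ^ 2 * f1 * f3 * p2
      rw [hPb] at t1
      linear_combination t1
    have g2 : P * x2 * a ^ 8 * f1 * f2 = P * f3 := by
      have t2 : P * (x2 * a ^ 8 * f1 * f2) = P * (s * b ^ 3) * (s * b ^ 3) * f3 := by
        rw [E2]
        linear_combination (-3 * b ^ 6 * f3) * p3 + 3 * b ^ 6 * f3 * p1 + 2 * b ^ 6 * f3 * p2
          - P * b ^ 6 * f3 * hs
      rw [hPb, hPb] at t2
      linear_combination t2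
    apply (((ha.pow 2).mul hf1).mul hf2).mul_left_cancel
    linear_combination g1 - g2 + (x2 * a ^ 2 * f1 * f2) * hPa
  · have hU : IsUnit (b ^ 6 * f3 * (1 - 3 * (u3 - u1) + 2 * u2)) := by
      apply ((hb.pow 6).mul hf3).mul
      apply IsUnit.of_mul_eq_one (1 + 3 * (u3 - u1) - 2 * u2)
      linear_combination (-9) * h33 + 18 * h13 - 9 * h11 + 12 * h23 - 12 * h12 - 4 * h22
    rw [← E2] at hU
    have := isUnit_of_mul_isUnit_left hU
    have := isUnit_of_mul_isUnit_left this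
    exact isUnit_of_mul_isUnit_left this
  · have g1 : x1 ^ 2 * a ^ 8 * f1 ^ 4 = s * a ^ 2 * b ^ 6 * f1 * f3 * (1 - 3 * u3 - u2 + 6 * u1) := by
      have t : (x1 * a ^ 4 * f1 ^ 2) ^ 2 = b ^ 6 * (1 - 2 * u2 + 3 * u1) ^ 2 * f2 ^ 2 := by
        rw [E1]; ring
      rw [E4] at t
      have v : (1 - 2 * u2 + 3 * u1) ^ 2 = 1 - 4 * u2 + 6 * u1 := by
        linear_combination 4 * h22 - 12 * h12 + 9 * h11
      rw [v] at t
      linear_combination t + s * a ^ 2 * b ^ 6 * f1 * f3 * (12 * h23 - 12 * h22 - 18 * h13 + 18 * h12)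
    have g2 : x2 * c * a ^ 8 * f1 ^ 4 = s * a ^ 2 * b ^ 6 * f1 * f3 * (1 - 3 * u3 - u2 + 6 * u1) := by
      apply ((ha.pow 4).mul hf3).mul_left_cancel
      have t : (x2 * a ^ 8 * f1 * f2) * (c * f1 * f2) =
          (b ^ 6 * f3 * (1 - 3 * (u3 - u1) + 2 * u2)) * (a ^ 4 * f3 * (1 - 3 * (u3 - u1))) := by
        rw [E2, E3]
      have t' : x2 * c * a ^ 8 * f1 ^ 2 * f2 ^ 2 = b ^ 6 * a ^ 4 * f3 ^ 2 * (1 - 6 * u3 + 6 * u1 + 2 * u2) := by
        linear_combination t + b ^ 6 * a ^ 4 * f3 ^ 2 * (9 * h33 - 18 * h13 + 9 * h11 - 6 * h23 + 6 * h12)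
      rw [E4] at t'
      linear_combination (s * a ^ 2 * f1 * (1 + 3 * u3 - 3 * u2)) * t'
        + a ^ 6 * f3 ^ 2 * f1 * s * b ^ 6 * (24 * h23 + 18 * h13 - 18 * h33 - 18 * h12 - 6 * h22)
        - a ^ 12 * f3 * x2 * c * f1 ^ 4 * hs
        + a ^ 12 * f3 * x2 * c * f1 ^ 4 * s ^ 2 * (9 * h33 - 18 * h23 + 9 * h22)
    apply ((ha.pow 8).mul (hf1.pow 4)).mul_left_cancel
    linear_combination g1 - g2

theorem C1' {n : ℕ} (hn : 6 * n + 1 = p) {x1 x2 : ZMod (p ^ (2:ℕ))}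
    (h1 : Red p (p ^ (2:ℕ)) ((27 / 16) ^ n * poch (1 / 3) n / poch (1 / 6) n) x1)
    (h2 : Red p (p ^ (2:ℕ)) ((27 / 16) ^ (2 * n) * poch (1 / 2) (2 * n) / poch (1 / 3) (2 * n)) x2) :
    2 * x1 - x2 = (((4 * n).choose (2 * n) : ℕ) : ZMod (p ^ (2:ℕ))) := by
  have hp2 := hp.out.two_le
  have hn0 : 0 < n := by omega
  -- equations in the ring
  have c2 : Red p (p ^ (2:ℕ)) (2 : ℚ) (2 : ZMod (p ^ (2:ℕ))) := by simpa using Red.nat (p := p) (M := p ^ (2:ℕ)) 2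
  have c3 : Red p (p ^ (2:ℕ)) (3 : ℚ) (3 : ZMod (p ^ (2:ℕ))) := by simpa using Red.nat (p := p) (M := p ^ (2:ℕ)) 3
  have c6 : Red p (p ^ (2:ℕ)) (6 : ℚ) (6 : ZMod (p ^ (2:ℕ))) := by simpa using Red.nat (p := p) (M := p ^ (2:ℕ)) 6
  have c8 : Red p (p ^ (2:ℕ)) (8 : ℚ) (8 : ZMod (p ^ (2:ℕ))) := by simpa using Red.nat (p := p) (M := p ^ (2:ℕ)) 8
  have c27 : Red p (p ^ (2:ℕ)) (27 : ℚ) (27 : ZMod (p ^ (2:ℕ))) := by simpa using Red.nat (p := p) (M := p ^ (2:ℕ)) 27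
  have c1024 : Red p (p ^ (2:ℕ)) (1024 : ℚ) (1024 : ZMod (p ^ (2:ℕ))) := by simpa using Red.nat (p := p) (M := p ^ (2:ℕ)) 1024
  have c6561 : Red p (p ^ (2:ℕ)) (6561 : ℚ) (6561 : ZMod (p ^ (2:ℕ))) := by simpa using Red.nat (p := p) (M := p ^ (2:ℕ)) 6561
  have r1 : x1 * (8 ^ n * ∏ j ∈ range n, (6 * (j : ZMod (p ^ (2:ℕ))) + 1)) =
      27 ^ n * ∏ j ∈ range n, (3 * (j : ZMod (p ^ (2:ℕ))) + 1) := by
    have ha := h1.mul ((c8.pow n).mul
      (Red.prod (range n) (fun j => 6 * (j : ℚ) + 1) (fun j => 6 * (j : ZMod (p ^ (2:ℕ))) + 1)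
        (fun j _ => (c6.mul (Red.nat j)).add Red.one)))
    have hb := (c27.pow n).mul
      (Red.prod (range n) (fun j => 3 * (j : ℚ) + 1) (fun j => 3 * (j : ZMod (p ^ (2:ℕ))) + 1)
        (fun j _ => (c3.mul (Red.nat j)).add Red.one))
    rw [← pochX1 n] at hb
    exact ha.uniq dvd_rfl hb
  have r2 : x2 * (1024 ^ n * ∏ j ∈ range (2 * n), (3 * (j : ZMod (p ^ (2:ℕ))) + 1)) =
      6561 ^ n * ∏ j ∈ range (2 * n), (2 * (j : ZMod (p ^ (2:ℕ))) + 1) := by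
    have ha := h2.mul ((c1024.pow n).mul
      (Red.prod (range (2 * n)) (fun j => 3 * (j : ℚ) + 1) (fun j => 3 * (j : ZMod (p ^ (2:ℕ))) + 1)
        (fun j _ => (c3.mul (Red.nat j)).add Red.one)))
    have hb := (c6561.pow n).mul
      (Red.prod (range (2 * n)) (fun j => 2 * (j : ℚ) + 1) (fun j => 2 * (j : ZMod (p ^ (2:ℕ))) + 1)
        (fun j _ => (c2.mul (Red.nat j)).add Red.one))
    rw [← pochX2 n] at hb
    exact ha.uniq dvd_rfl hb
  -- the units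
  have u2 : IsUnit (2 : ZMod (p ^ (2:ℕ))) := isUnit_two (by omega)
  have u3 : IsUnit (3 : ZMod (p ^ (2:ℕ))) := by
    have : ¬ p ∣ 3 := fun h => by have := Nat.le_of_dvd (by norm_num) h; omega
    simpa using isUnit_num (p := p) this
  have hPP := P2_mul_self p
  have h6n : 6 * (n : ZMod (p ^ (2:ℕ))) + 1 = P2 p := by
    have := congrArg (Nat.cast : ℕ → ZMod (p ^ (2:ℕ))) hn
    push_cast at this
    exact this
  set th : ZMod (p ^ (2:ℕ)) := -(n : ZMod (p ^ (2:ℕ))) * (1 + P2 p) with hth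
  have h6 : 6 * th = 1 := by
    rw [hth]; linear_combination (-(1 + P2 p)) * h6n - hPP
  have hz : harm (p ^ (2:ℕ)) 0 = 0 := by unfold harm; simp
  have eA1 := apC (p := p) (a := 3) (th := 2 * th) (by linear_combination h6) (D := 2 * n) (N := n)
    (by omega) (by omega) (by push_cast; linear_combination h6n)
  have eA2 := apC (p := p) (a := 3) (th := 2 * th) (by linear_combination h6) (D := 2 * n) (N := 2 * n)
    (by omega) (by omega) (by push_cast; linear_combination h6n)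
  have eB := apC (p := p) (a := 6) (th := th) h6 (D := n) (N := n)
    (by omega) (by omega) h6n
  have eE := apC (p := p) (a := 2) (th := 3 * th) (by linear_combination h6) (D := 3 * n) (N := 2 * n)
    (by omega) (by omega) (by push_cast; linear_combination h6n)
  have eO := apC (p := p) (a := 2) (th := 3 * th) (by linear_combination h6) (D := 3 * n) (N := n)
    (by omega) (by omega) (by push_cast; linear_combination h6n)
  rw [show 2 * n - n = n by omega] at eA1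
  rw [Nat.sub_self, hz, Nat.factorial_zero, Nat.cast_one, mul_one, sub_zero] at eA2
  rw [Nat.sub_self, hz, Nat.factorial_zero, Nat.cast_one, mul_one, sub_zero] at eB
  rw [show 3 * n - 2 * n = n by omega] at eE
  rw [show 3 * n - n = 2 * n by omega] at eO
  have ef2 := congrArg (Nat.cast : ℕ → ZMod (p ^ (2:ℕ))) (double_fact n)
  have ef4 := congrArg (Nat.cast : ℕ → ZMod (p ^ (2:ℕ))) (double_fact (2 * n))
  have hch := congrArg (Nat.cast : ℕ → ZMod (p ^ (2:ℕ)))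
    (Nat.choose_mul_factorial_mul_factorial (show 2 * n ≤ 4 * n by omega))
  rw [show 4 * n - 2 * n = 2 * n by omega, show 4 * n = 2 * (2 * n) by ring] at hch
  rw [show 4 * n = 2 * (2 * n) by ring]
  push_cast at ef2 ef4 hch
  have hf1 := isUnit_factorial (p := p) (k := n) (by omega)
  have hf2 := isUnit_factorial (p := p) (k := 2 * n) (by omega)
  have hf3 := isUnit_factorial (p := p) (k := 3 * n) (by omega)
  have hcong : ∀ x y : ZMod (p ^ (2:ℕ)), red p x = red p y → P2 p * x = P2 p * y := by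
    intro x y h
    obtain ⟨c, hc⟩ := exists_P_of_red (x := x - y) (by rw [map_sub, h, sub_self])
    linear_combination P2 p * hc + c * hPP
  have hPa : P2 p * (2 ^ n) ^ 6 = P2 p := by
    have := hcong ((2 ^ n) ^ 6) 1 (by
      rw [map_pow, map_pow, map_one, ← pow_mul, map_ofNat, show n * 6 = p - 1 by omega]
      apply ZMod.pow_card_sub_one_eq_one
      intro h
      have h' : ((2 : ℕ) : ZMod p) = 0 := by exact_mod_cast h
      rw [ZMod.natCast_eq_zero_iff] at h'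
      have := Nat.le_of_dvd (by norm_num) h'
      omega)
    rw [this, mul_one]
  have hPb : P2 p * ((-1) ^ n * (3 ^ n) ^ 3) = P2 p := by
    have e : ((-1 : ZMod p)) ^ n * (3 ^ n) ^ 3 = (-3) ^ (3 * n) := by
      rw [← pow_mul, mul_comm n 3, pow_mul, ← mul_pow, pow_mul (-3 : ZMod p)]; norm_num
    have := hcong ((-1) ^ n * (3 ^ n) ^ 3) 1 (by
      rw [map_mul, map_pow, map_pow, map_pow, map_neg, map_one, map_ofNat, e, three_pow hn])
    rw [this, mul_one]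
  have q : ∀ H H' : ZMod (p ^ (2:ℕ)), th * (P2 p * H) * (th * (P2 p * H')) = 0 := by
    intro H H'; linear_combination th * th * H * H' * hPP
  have q' : ∀ H : ZMod (p ^ (2:ℕ)), P2 p * (th * (P2 p * H)) = 0 := by
    intro H; linear_combination th * H * hPP
  have w8 : (8 : ZMod (p ^ (2:ℕ))) ^ n = (2 ^ n) ^ 3 := by
    rw [← pow_mul, mul_comm n 3, pow_mul]; norm_num
  have w27 : (27 : ZMod (p ^ (2:ℕ))) ^ n = (3 ^ n) ^ 3 := by
    rw [← pow_mul, mul_comm n 3, pow_mul]; norm_num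
  have w1024 : (1024 : ZMod (p ^ (2:ℕ))) ^ n = (2 ^ n) ^ 10 := by
    rw [← pow_mul, mul_comm n 10, pow_mul]; norm_num
  have w6561 : (6561 : ZMod (p ^ (2:ℕ))) ^ n = (3 ^ n) ^ 8 := by
    rw [← pow_mul, mul_comm n 8, pow_mul]; norm_num
  have n3 : (-3 : ZMod (p ^ (2:ℕ))) ^ n = (-1) ^ n * 3 ^ n := by rw [← mul_pow]; norm_num
  have n3' : (-3 : ZMod (p ^ (2:ℕ))) ^ (2 * n) = (3 ^ n) ^ 2 := by
    rw [← pow_mul, mul_comm n 2, pow_mul, pow_mul]; norm_num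
  have n6 : (-6 : ZMod (p ^ (2:ℕ))) ^ n = (-1) ^ n * 2 ^ n * 3 ^ n := by
    rw [← mul_pow, ← mul_pow]; norm_num
  have n2 : (-2 : ZMod (p ^ (2:ℕ))) ^ n = (-1) ^ n * 2 ^ n := by rw [← mul_pow]; norm_num
  have n2' : (-2 : ZMod (p ^ (2:ℕ))) ^ (2 * n) = (2 ^ n) ^ 2 := by
    rw [← pow_mul, mul_comm n 2, pow_mul, pow_mul]; norm_num
  have n2'' : (2 : ZMod (p ^ (2:ℕ))) ^ (2 * n) = (2 ^ n) ^ 2 := by
    rw [← pow_mul, mul_comm n 2]
  have hss : ((-1 : ZMod (p ^ (2:ℕ))) ^ n) * (-1) ^ n = 1 := by rw [← mul_pow]; simp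
  rw [w8, w27] at r1
  rw [w1024, w6561] at r2
  rw [n3] at eA1
  rw [n3'] at eA2
  rw [n6] at eB
  rw [n2'] at eE
  rw [n2] at eO
  rw [n2''] at ef4
  have ec : (((2 * (2 * n)).choose (2 * n) : ℕ) : ZMod (p ^ (2:ℕ))) * ((2 * n).factorial : ZMod (p ^ (2:ℕ))) =
      (2 ^ n) ^ 2 * ∏ j ∈ range (2 * n), (2 * (j : ZMod (p ^ (2:ℕ))) + 1) := by
    apply hf2.mul_left_cancel
    linear_combination hch + ef4
  obtain ⟨g1, g2, g3⟩ := alg_end (P := P2 p) (a := 2 ^ n) (b := 3 ^ n) (s := (-1) ^ n)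
    (f1 := (n.factorial : ZMod (p ^ (2:ℕ)))) (f2 := ((2 * n).factorial : ZMod (p ^ (2:ℕ))))
    (f3 := ((3 * n).factorial : ZMod (p ^ (2:ℕ))))
    (u1 := th * (P2 p * harm (p ^ (2:ℕ)) n)) (u2 := th * (P2 p * harm (p ^ (2:ℕ)) (2 * n)))
    (u3 := th * (P2 p * harm (p ^ (2:ℕ)) (3 * n)))
    (x1 := x1) (x2 := x2) (c := (((2 * (2 * n)).choose (2 * n) : ℕ) : ZMod (p ^ (2:ℕ))))
    (u2.pow n) (u3.pow n) hss hf1 hf2 hf3 (q _ _) (q _ _) (q _ _) (q _ _) (q _ _) (q _ _)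
    (q' _) (q' _) (q' _) hPa hPb r1 r2
    (by rw [eA1]; ring) (by rw [eA2]; ring) (by rw [eB]) (by rw [eE]; ring) (by rw [eO]; ring)
    ef2 ec
  -- the square of the difference vanishes
  have hd : red p (x1 - x2) = 0 := by
    by_contra hne
    have hu := (isUnit_iff_red (p := p) (x1 - x2)).mpr hne
    have h0 : P2 p = 0 := by
      have := hu.mul_left_injective (show P2 p * (x1 - x2) = 0 * (x1 - x2) by rw [g1, zero_mul])
      exact this
    have h1 : ((p : ℕ) : ZMod (p ^ (2:ℕ))) = 0 := h0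
    rw [ZMod.natCast_eq_zero_iff] at h1
    have := Nat.le_of_dvd (by omega) h1
    nlinarith
  obtain ⟨e, he⟩ := exists_P_of_red hd
  have hx : x1 = x2 + P2 p * e := by linear_combination he
  apply g2.mul_left_cancel
  rw [hx] at g3 ⊢
  linear_combination g3 - e * e * hPP

theorem C1 {n : ℕ} (hn : 6 * n + 1 = p) {x1 x2 : ZMod (p ^ (2:ℕ))}
    (h1 : Red p (p ^ (2:ℕ)) ((27 / 16) ^ n * poch (1 / 3) n / poch (1 / 6) n) x1)
    (h2 : Red p (p ^ (2:ℕ)) ((27 / 16) ^ (2 * n) * poch (1 / 2) (2 * n) / poch (1 / 3) (2 * n)) x2) :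
    (2 * x1 - x2) ^ 2 = (((4 * n).choose (2 * n) : ℕ) : ZMod (p ^ (2:ℕ))) ^ 2 := by
  rw [C1' hn h1 h2]

end

end SCD27
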