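import Pool.Agent.SCD27.JacC

/-!
Existence of `4p = L^2 + 27 M^2` for `p = 3m+1` (Jacobi sums of order 3).
-/

set_option linter.unusedSectionVars false

namespace SCD27

open Finset SC24 SC24.Alg

section
variable {p : ℕ} [hp : Fact p.Prime]

theorem exists_rep {m : ℕ} (hm : 3 * m + 1 = p) : ∃ L M : ℤ, 4 * (p : ℤ) = L ^ 2 + 27 * M ^ 2 := by
  classical
  have hk : Fintype.card (ZMod p) = p := ZMod.card p
  obtain ⟨g, hg⟩ := IsCyclic.exists_generator (α := (ZMod p)ˣ)
  set W := WittVector p (ZMod p) with hW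
  have hz : CharZero W := charZero_witt
  set χ : MulChar (ZMod p) W := teich p (ZMod p) ^ (2 * m) with hχ
  obtain ⟨ht3, ht1⟩ := cube_root hm hg
  rw [← hχ] at ht3 ht1
  set t : W := χ g with ht
  have hphi : t ^ 2 + t + 1 = 0 := by
    have h4 : (t - 1) * (t ^ 2 + t + 1) = 0 := by linear_combination ht3
    rcases mul_eq_zero.1 h4 with h5 | h5
    · exact absurd (sub_eq_zero.1 h5) ht1
    · exact h5
  have hχ3 : χ ^ 3 = 1 := by
    rw [hχ, ← pow_mul]
    have : teich p (ZMod p) ^ (2 * m * 3) = (teich p (ZMod p) ^ (Fintype.card (ZMod p)ˣ)) ^ 2 := by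
      rw [← pow_mul, ZMod.card_units]
      congr 1; omega
    rw [this, MulChar.pow_card_eq_one, one_pow]
  have hχ1 : χ ≠ 1 := by
    intro h4
    apply ht1
    rw [ht, h4]
    exact MulChar.one_apply_coe g
  have hχinv : χ⁻¹ = χ ^ 2 := by
    rw [inv_eq_iff_mul_eq_one, ← pow_succ', hχ3]
  have hχ2 : χ * χ ≠ 1 := by
    intro h4
    apply hχ1
    have : χ ^ 3 = χ * (χ * χ) := pow_three χ
    rw [h4, mul_one] at this
    rw [← this, hχ3]
  set J : W := jacobiSum χ χ with hJ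
  set J' : W := jacobiSum χ⁻¹ χ⁻¹ with hJ'
  have hmul : J * J' = (p : W) := by
    have := jac_mul_inv χ χ hχ1 hχ1 hχ2
    rw [hk] at this
    exact this
  obtain ⟨l, hl⟩ := exists_log hg
  obtain ⟨a, b, ha, hb⟩ := sum_cube (univ \ {0, 1} : Finset (ZMod p))
    (fun z => 1 * l z + 1 * l (1 - z)) hphi
  have hJab : J = a + b * t := by
    have e := jac_index l hl χ 1 1
    rw [pow_one] at e
    rw [hJ, e, ← ha]
  have hJab' : J' = a + b * (-1 - t) := by
    have e := jac_index l hl χ 2 2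
    rw [hJ', hχinv, e, ← hb]
    refine Finset.sum_congr rfl fun z _ => ?_
    rw [← ht, ← pow_mul]
    congr 1; ring
  have hprim : IsPrimitiveRoot t 3 := by
    rw [IsPrimitiveRoot.iff_def]
    refine ⟨ht3, fun r hr => ?_⟩
    rcases pow_three_cases hphi r with ⟨h4, _⟩ | ⟨_, h5⟩ | ⟨_, h5⟩
    · exact Nat.dvd_of_mod_eq_zero h4
    · exact absurd (h5.symm.trans hr) ht1
    · exfalso
      apply ht1
      have h6 : t ^ 2 = 1 := by
        rw [h5] at hr
        linear_combination hphi + hr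
      have : t ^ 3 = t * t ^ 2 := by ring
      rw [h6, mul_one] at this
      rw [← this, ht3]
  obtain ⟨z, hz1, hz2⟩ := exists_jacobiSum_eq_neg_one_add (n := 3) (by norm_num) hχ3 hχ3
    (by rw [hk]; exact ⟨m, by omega⟩) hprim
  obtain ⟨L₀, M₀, h4p, hquad⟩ := jac_alg (P := (p : ℤ)) hphi hJab hJab'
    (by rw [Int.cast_natCast]; exact hmul) hz1 hz2
  exact ⟨L₀, M₀, h4p⟩

end

end SCD27
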