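import Pool.Agent.SC24.Defs

/-!
MP_286faa_nt: strange evaluations at `-1/8` (WZ method).
-/

namespace SCD27

open Finset SC24

/-- the term `(1/3-2c)_k (2/3-2c)_k / ((1-c)_k k!) (-1/8)^k` -/
def TT (c : ℚ) (k : ℕ) : ℚ :=
  poch (1 / 3 - 2 * c) k * poch (2 / 3 - 2 * c) k / (poch (1 - c) k * (k.factorial : ℚ)) * (-1 / 8) ^ k

lemma pz (a : ℚ) : poch a 0 = 1 := by simp [poch]

lemma ps (a : ℚ) (k : ℕ) : poch a (k + 1) = poch a k * (a + k) := by
  simp [poch, prod_range_succ]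

lemma ps' (a : ℚ) (k : ℕ) : poch a (k + 1) = a * poch (a + 1) k := by
  unfold poch
  rw [prod_range_succ']
  simp only [Nat.cast_zero, add_zero]
  rw [mul_comm]
  congr 1
  apply prod_congr rfl
  intro i _
  push_cast; ring

/-- shift by one -/
lemma pshift (a : ℚ) (k : ℕ) : poch a k * (a + k) = a * poch (a + 1) k := by
  rw [← ps, ps']

/-- shift by two -/
lemma pshift2 (a : ℚ) (k : ℕ) : poch a k * (a + k) * (a + k + 1) = a * (a + 1) * poch (a + 2) k := by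
  have h1 := pshift a k
  have h2 := pshift (a + 1) k
  rw [show a + 1 + 1 = a + 2 by ring] at h2
  linear_combination (a + k + 1) * h1 + a * h2

lemma poch_neC {a : ℚ} {k : ℕ} (h : ∀ j < k, a + (j : ℚ) ≠ 0) : poch a k ≠ 0 := by
  unfold poch
  rw [prod_ne_zero_iff]
  intro j hj
  exact h j (mem_range.mp hj)

lemma TT_zero (c : ℚ) : TT c 0 = 1 := by simp [TT, pz]

lemma TT_succ (c : ℚ) (k : ℕ) (hc : ∀ j : ℕ, 1 - c + (j : ℚ) ≠ 0) :
    TT c (k + 1) * ((1 - c + k) * (k + 1)) * (-8) = TT c k * (1 / 3 - 2 * c + k) * (2 / 3 - 2 * c + k) := by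
  unfold TT
  rw [ps, ps, ps, Nat.factorial_succ, pow_succ]
  have h1 : poch (1 - c) k ≠ 0 := poch_neC (fun j _ => hc j)
  have h2 := hc k
  have h3 : (k.factorial : ℚ) ≠ 0 := by positivity
  have h4 : (k : ℚ) + 1 ≠ 0 := by positivity
  push_cast
  field_simp

/-- comparison of `T(c, k)` with `T(c+1, k)` -/
lemma TT_shift (c : ℚ) (k : ℕ) (hc : ∀ j : ℕ, -c + (j : ℚ) ≠ 0) :
    TT c k * ((-5 / 3 - 2 * c) * (-2 / 3 - 2 * c) * ((-4 / 3 - 2 * c) * (-1 / 3 - 2 * c))) * (-c + k) =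
      TT (c + 1) k * ((-5 / 3 - 2 * c + k) * (-2 / 3 - 2 * c + k) *
        ((-4 / 3 - 2 * c + k) * (-1 / 3 - 2 * c + k))) * (-c) := by
  have e1 := pshift2 (-5 / 3 - 2 * c) k
  have e2 := pshift2 (-4 / 3 - 2 * c) k
  have e3 := pshift (-c) k
  rw [show -5 / 3 - 2 * c + 2 = 1 / 3 - 2 * c by ring,
    show (-5 / 3 - 2 * c) + 1 = -2 / 3 - 2 * c by ring] at e1
  rw [show -4 / 3 - 2 * c + 2 = 2 / 3 - 2 * c by ring,
    show (-4 / 3 - 2 * c) + 1 = -1 / 3 - 2 * c by ring] at e2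
  rw [show -c + 1 = 1 - c by ring] at e3
  unfold TT
  rw [show 1 / 3 - 2 * (c + 1) = -5 / 3 - 2 * c by ring, show 2 / 3 - 2 * (c + 1) = -4 / 3 - 2 * c by ring,
    show 1 - (c + 1) = -c by ring]
  have h1 : poch (-c) k ≠ 0 := poch_neC (fun j _ => hc j)
  have h1' : poch (1 - c) k ≠ 0 := poch_neC (fun j _ => by
    have := hc (j + 1)
    push_cast at this
    intro h; apply this; linear_combination h)
  have h3 : (k.factorial : ℚ) ≠ 0 := by positivity
  have h0 : c ≠ 0 := by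
    have := hc 0
    simpa using this
  generalize poch (-5 / 3 - 2 * c) k = A at *
  generalize poch (-4 / 3 - 2 * c) k = B at *
  generalize poch (1 / 3 - 2 * c) k = A' at *
  generalize poch (2 / 3 - 2 * c) k = B' at *
  generalize poch (-c) k = C at *
  generalize poch (1 - c) k = C' at *
  rw [show -2 / 3 - 2 * c + (k : ℚ) = -5 / 3 - 2 * c + k + 1 by ring,
    show -1 / 3 - 2 * c + (k : ℚ) = -4 / 3 - 2 * c + k + 1 by ring]
  have e4 : A' * B' * ((-5 / 3 - 2 * c) * (-2 / 3 - 2 * c) * ((-4 / 3 - 2 * c) * (-1 / 3 - 2 * c))) * (-c + k) * C =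
      A * B * ((-5 / 3 - 2 * c + k) * (-5 / 3 - 2 * c + k + 1) *
        ((-4 / 3 - 2 * c + k) * (-4 / 3 - 2 * c + k + 1))) * (-c) * C' := by
    linear_combination (-(A * (-5 / 3 - 2 * c + k) * (-5 / 3 - 2 * c + k + 1))) * (C * (-c + k)) * e2
      - ((-4 / 3 - 2 * c) * (-1 / 3 - 2 * c) * B') * (C * (-c + k)) * e1
      + (A * B * ((-5 / 3 - 2 * c + k) * (-5 / 3 - 2 * c + k + 1) *
        ((-4 / 3 - 2 * c + k) * (-4 / 3 - 2 * c + k + 1)))) * e3
  rw [div_mul_eq_mul_div, div_mul_eq_mul_div, div_mul_eq_mul_div, div_mul_eq_mul_div, div_mul_eq_mul_div,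
    div_mul_eq_mul_div, div_eq_div_iff (mul_ne_zero h1' h3) (mul_ne_zero h1 h3)]
  linear_combination ((k.factorial : ℚ) * (-1 / 8) ^ k) * e4

/-- the numerator polynomial of the certificate -/
def NN (c k : ℚ) : ℚ :=
  (352 + 3376 * c + 8640 * c ^ 2 + 6336 * c ^ 3 - (280 + 2160 * c + 2880 * c ^ 2) * k +
    (72 + 432 * c) * k ^ 2) / 9

/-- WZ step -/
lemma TT_wz (c : ℚ) (hc : ∀ j : ℕ, -c + (j : ℚ) ≠ 0)
    (hD : (-5 / 3 - 2 * c) * (-2 / 3 - 2 * c) * ((-4 / 3 - 2 * c) * (-1 / 3 - 2 * c)) ≠ 0) (K : ℕ) :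
    32 * c * ∑ k ∈ range K, TT (c + 1) k - 9 * (6 * c + 1) * ∑ k ∈ range K, TT c k =
      -c * K * NN c K * TT (c + 1) K /
        ((-5 / 3 - 2 * c) * (-2 / 3 - 2 * c) * ((-4 / 3 - 2 * c) * (-1 / 3 - 2 * c))) := by
  induction K with
  | zero => simp
  | succ K ih =>
    rw [sum_range_succ, sum_range_succ]
    have h0 : c ≠ 0 := by
      have := hc 0
      simpa using this
    have e1 := TT_shift c K hc
    have e2 := TT_succ (c + 1) K (fun j => by
      have := hc j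
      intro h; apply this; linear_combination h)
    have h3 := hc K
    have h4 : (K : ℚ) + 1 ≠ 0 := by positivity
    rw [show (1 : ℚ) - (c + 1) + K = -c + K by ring, show 1 / 3 - 2 * (c + 1) + (K : ℚ) = -5 / 3 - 2 * c + K by ring,
      show 2 / 3 - 2 * (c + 1) + (K : ℚ) = -4 / 3 - 2 * c + K by ring] at e2
    have e3 : TT c K = TT (c + 1) K * ((-5 / 3 - 2 * c + K) * (-2 / 3 - 2 * c + K) *
        ((-4 / 3 - 2 * c + K) * (-1 / 3 - 2 * c + K))) * (-c) /
        ((-5 / 3 - 2 * c) * (-2 / 3 - 2 * c) * ((-4 / 3 - 2 * c) * (-1 / 3 - 2 * c)) * (-c + K)) := by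
      rw [eq_div_iff (mul_ne_zero hD h3)]
      linear_combination e1
    have e4 : TT (c + 1) (K + 1) = TT (c + 1) K * (-5 / 3 - 2 * c + K) * (-4 / 3 - 2 * c + K) /
        ((-c + K) * (K + 1) * (-8)) := by
      rw [eq_div_iff (mul_ne_zero (mul_ne_zero h3 h4) (by norm_num))]
      linear_combination e2
    have e5 : 32 * c * TT (c + 1) K - 9 * (6 * c + 1) * TT c K =
        -c * (K + 1) * NN c (K + 1) * TT (c + 1) (K + 1) /
          ((-5 / 3 - 2 * c) * (-2 / 3 - 2 * c) * ((-4 / 3 - 2 * c) * (-1 / 3 - 2 * c))) -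
        -c * K * NN c K * TT (c + 1) K /
          ((-5 / 3 - 2 * c) * (-2 / 3 - 2 * c) * ((-4 / 3 - 2 * c) * (-1 / 3 - 2 * c))) := by
      have key : 32 * c * ((-5 / 3 - 2 * c) * (-2 / 3 - 2 * c) * ((-4 / 3 - 2 * c) * (-1 / 3 - 2 * c))) * (-c + K) -
          9 * (6 * c + 1) * ((-5 / 3 - 2 * c + K) * (-2 / 3 - 2 * c + K) *
            ((-4 / 3 - 2 * c + K) * (-1 / 3 - 2 * c + K))) * (-c) =
          c / 8 * NN c (K + 1) * ((-5 / 3 - 2 * c + K) * (-4 / 3 - 2 * c + K)) + c * K * NN c K * (-c + K) := by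
        unfold NN
        ring
      rw [e3, e4]
      generalize TT (c + 1) K = W
      generalize (-5 / 3 - 2 * c) * (-2 / 3 - 2 * c) * ((-4 / 3 - 2 * c) * (-1 / 3 - 2 * c)) = D at *
      generalize (-5 / 3 - 2 * c + (K : ℚ)) * (-2 / 3 - 2 * c + K) *
            ((-4 / 3 - 2 * c + K) * (-1 / 3 - 2 * c + K)) = P at *
      generalize NN c (K + 1) = N1 at *
      generalize NN c K = N0 at *
      generalize (-5 / 3 - 2 * c + (K : ℚ)) = q1 at *
      generalize (-4 / 3 - 2 * c + (K : ℚ)) = q2 at *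
      have hx : 32 * c * W - 9 * (6 * c + 1) * (W * P * (-c) / (D * (-c + K))) =
          W * (32 * c * D * (-c + K) - 9 * (6 * c + 1) * P * (-c)) / (D * (-c + K)) := by
        field_simp
      have hy : -c * (K + 1) * N1 * (W * q1 * q2 / ((-c + K) * (K + 1) * (-8))) / D - -c * K * N0 * W / D =
          W * (c / 8 * N1 * (q1 * q2) + c * K * N0 * (-c + K)) / (D * (-c + K)) := by
        field_simp
        ring
      rw [hx, hy, key]
    push_cast
    linear_combination ih + e5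

lemma TT_step (c : ℚ) (hc : ∀ j : ℕ, -c + (j : ℚ) ≠ 0)
    (hD : (-5 / 3 - 2 * c) * (-2 / 3 - 2 * c) * ((-4 / 3 - 2 * c) * (-1 / 3 - 2 * c)) ≠ 0) {K : ℕ}
    (hK : TT (c + 1) K = 0) :
    32 * c * ∑ k ∈ range K, TT (c + 1) k = 9 * (6 * c + 1) * ∑ k ∈ range K, TT c k := by
  have := TT_wz c hc hD K
  rw [hK, mul_zero, zero_div] at this
  linear_combination this

lemma poch_vanish {a : ℚ} {N k : ℕ} (ha : a = -(N : ℚ)) (hk : N < k) : poch a k = 0 := by
  unfold poch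
  apply prod_eq_zero (mem_range.mpr hk)
  rw [ha]; ring

lemma sum_ext {f : ℕ → ℚ} {N K : ℕ} (h : ∀ k, N < k → f k = 0) (hK : N + 1 ≤ K) :
    ∑ k ∈ range K, f k = ∑ k ∈ range (N + 1), f k := by
  symm
  apply sum_subset (range_subset_range.mpr hK)
  intro k _ hk
  exact h k (by rw [mem_range] at hk; omega)

lemma TT_van1 {c : ℚ} {N k : ℕ} (h : 1 / 3 - 2 * c = -(N : ℚ)) (hk : N < k) : TT c k = 0 := by
  unfold TT
  rw [poch_vanish h hk]; simp

lemma TT_van2 {c : ℚ} {N k : ℕ} (h : 2 / 3 - 2 * c = -(N : ℚ)) (hk : N < k) : TT c k = 0 := by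
  unfold TT
  rw [poch_vanish h hk]; simp

/-- an integer plus `1/6` is nonzero (and so on) -/
lemma frac_ne {a b : ℤ} {d : ℤ} (hd : ¬ d ∣ b) : (a : ℚ) * d + b ≠ 0 := by
  intro h
  apply hd
  have : a * d + b = 0 := by exact_mod_cast h
  exact ⟨-a, by linear_combination this⟩

/-- one step of the closed forms, with terminating sums -/
lemma step {c : ℚ} {N : ℕ} (hc : ∀ j : ℕ, -c + (j : ℚ) ≠ 0)
    (hD : (-5 / 3 - 2 * c) * (-2 / 3 - 2 * c) * ((-4 / 3 - 2 * c) * (-1 / 3 - 2 * c)) ≠ 0)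
    (h1 : ∀ k, N < k → TT c k = 0) (h2 : ∀ k, N + 2 < k → TT (c + 1) k = 0) :
    ∑ k ∈ range (N + 3), TT (c + 1) k = 9 * (6 * c + 1) / (32 * c) * ∑ k ∈ range (N + 1), TT c k := by
  have h0 : c ≠ 0 := by
    have := hc 0
    simpa using this
  have := TT_step c hc hD (K := N + 3) (h2 _ (by omega))
  rw [sum_ext (f := TT c) h1 (by omega)] at this
  field_simp
  linear_combination this

theorem X1' (j : ℕ) : ∑ k ∈ range (2 * j + 1), TT ((j : ℚ) + 1 / 6) k =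
    (27 / 16) ^ j * poch (1 / 3) j / poch (1 / 6) j := by
  induction j with
  | zero => simp [TT_zero, pz]
  | succ j ih =>
    have hs := step (c := (j : ℚ) + 1 / 6) (N := 2 * j) (fun i h => by
      have := frac_ne (a := (i : ℤ) - j) (b := -1) (d := 6) (by decide)
      apply this; push_cast; linear_combination 6 * h) (by
        have : (0 : ℚ) ≤ j := by positivity
        have a1 : (-5 / 3 - 2 * ((j : ℚ) + 1 / 6)) < 0 := by linarith
        have a2 : (-2 / 3 - 2 * ((j : ℚ) + 1 / 6)) < 0 := by linarith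
        have a3 : (-4 / 3 - 2 * ((j : ℚ) + 1 / 6)) < 0 := by linarith
        have a4 : (-1 / 3 - 2 * ((j : ℚ) + 1 / 6)) < 0 := by linarith
        exact mul_ne_zero (mul_ne_zero a1.ne a2.ne) (mul_ne_zero a3.ne a4.ne))
      (fun k hk => TT_van1 (N := 2 * j) (by push_cast; ring) hk)
      (fun k hk => TT_van1 (N := 2 * j + 2) (by push_cast; ring) hk)
    have e : ((j + 1 : ℕ) : ℚ) + 1 / 6 = (j : ℚ) + 1 / 6 + 1 := by push_cast; ring
    rw [e, show 2 * (j + 1) + 1 = 2 * j + 3 by ring, hs, ih, ps, ps, pow_succ]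
    have hj : (0 : ℚ) ≤ j := by positivity
    have b1 : poch (1 / 6 : ℚ) j ≠ 0 := poch_neC (fun i _ => by positivity)
    have b2 : (1 / 6 : ℚ) + j ≠ 0 := by positivity
    have b3 : (j : ℚ) + 1 / 6 ≠ 0 := by positivity
    have b4 : 9 * (6 * ((j : ℚ) + 1 / 6) + 1) / (32 * ((j : ℚ) + 1 / 6)) =
        27 / 16 * (1 / 3 + j) / (1 / 6 + j) := by
      field_simp
      ring
    rw [b4]
    field_simp

theorem X2' (j : ℕ) : ∑ k ∈ range (2 * j + 1), TT ((j : ℚ) + 1 / 3) k =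
    (27 / 16) ^ j * poch (1 / 2) j / poch (1 / 3) j := by
  induction j with
  | zero => simp [TT_zero, pz]
  | succ j ih =>
    have hs := step (c := (j : ℚ) + 1 / 3) (N := 2 * j) (fun i h => by
      have := frac_ne (a := (i : ℤ) - j) (b := -1) (d := 3) (by decide)
      apply this; push_cast; linear_combination 3 * h) (by
        have : (0 : ℚ) ≤ j := by positivity
        have a1 : (-5 / 3 - 2 * ((j : ℚ) + 1 / 3)) < 0 := by linarith
        have a2 : (-2 / 3 - 2 * ((j : ℚ) + 1 / 3)) < 0 := by linarith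
        have a3 : (-4 / 3 - 2 * ((j : ℚ) + 1 / 3)) < 0 := by linarith
        have a4 : (-1 / 3 - 2 * ((j : ℚ) + 1 / 3)) < 0 := by linarith
        exact mul_ne_zero (mul_ne_zero a1.ne a2.ne) (mul_ne_zero a3.ne a4.ne))
      (fun k hk => TT_van2 (N := 2 * j) (by push_cast; ring) hk)
      (fun k hk => TT_van2 (N := 2 * j + 2) (by push_cast; ring) hk)
    have e : ((j + 1 : ℕ) : ℚ) + 1 / 3 = (j : ℚ) + 1 / 3 + 1 := by push_cast; ring
    rw [e, show 2 * (j + 1) + 1 = 2 * j + 3 by ring, hs, ih, ps, ps, pow_succ]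
    have hj : (0 : ℚ) ≤ j := by positivity
    have b1 : poch (1 / 3 : ℚ) j ≠ 0 := poch_neC (fun i _ => by positivity)
    have b2 : (1 / 3 : ℚ) + j ≠ 0 := by positivity
    have b3 : (j : ℚ) + 1 / 3 ≠ 0 := by positivity
    have b4 : 9 * (6 * ((j : ℚ) + 1 / 3) + 1) / (32 * ((j : ℚ) + 1 / 3)) =
        27 / 16 * (1 / 2 + j) / (1 / 3 + j) := by
      field_simp
      ring
    rw [b4]
    field_simp

/-- vanishing in odd degree: parameters `-m`, `-m-1/3`, `2/3-m/2` with `m = 2j+1` -/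
theorem X0' (j : ℕ) : ∑ k ∈ range (2 * j + 2), TT ((j : ℚ) + 5 / 6) k = 0 := by
  induction j with
  | zero =>
    simp [TT, sum_range_succ, poch]
    norm_num
  | succ j ih =>
    have hs := step (c := (j : ℚ) + 5 / 6) (N := 2 * j + 1) (fun i h => by
      have := frac_ne (a := (i : ℤ) - j) (b := -5) (d := 6) (by decide)
      apply this; push_cast; linear_combination 6 * h) (by
        have : (0 : ℚ) ≤ j := by positivity
        have a1 : (-5 / 3 - 2 * ((j : ℚ) + 5 / 6)) < 0 := by linarith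
        have a2 : (-2 / 3 - 2 * ((j : ℚ) + 5 / 6)) < 0 := by linarith
        have a3 : (-4 / 3 - 2 * ((j : ℚ) + 5 / 6)) < 0 := by linarith
        have a4 : (-1 / 3 - 2 * ((j : ℚ) + 5 / 6)) < 0 := by linarith
        exact mul_ne_zero (mul_ne_zero a1.ne a2.ne) (mul_ne_zero a3.ne a4.ne))
      (fun k hk => TT_van2 (N := 2 * j + 1) (by push_cast; ring) hk)
      (fun k hk => TT_van2 (N := 2 * j + 3) (by push_cast; ring) hk)
    have e : ((j + 1 : ℕ) : ℚ) + 5 / 6 = (j : ℚ) + 5 / 6 + 1 := by push_cast; ring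
    rw [e, show 2 * (j + 1) + 2 = 2 * j + 1 + 3 by ring, hs, ih, mul_zero]

/-- closed form `X1` in explicit parameters -/
theorem X1 (j : ℕ) : ∑ k ∈ range (2 * j + 1), poch (-(2 * j : ℚ)) k * poch (1 / 3 - 2 * j : ℚ) k /
    (poch (5 / 6 - j : ℚ) k * (k.factorial : ℚ)) * (-1 / 8) ^ k =
    (27 / 16) ^ j * poch (1 / 3) j / poch (1 / 6) j := by
  rw [← X1' j]
  apply sum_congr rfl
  intro k _
  unfold TT
  rw [show (1 / 3 - 2 * ((j : ℚ) + 1 / 6)) = -(2 * j : ℚ) by ring,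
    show (2 / 3 - 2 * ((j : ℚ) + 1 / 6)) = 1 / 3 - 2 * j by ring,
    show (1 - ((j : ℚ) + 1 / 6)) = 5 / 6 - j by ring]

/-- closed form `X2` in explicit parameters -/
theorem X2 (j : ℕ) : ∑ k ∈ range (2 * j + 1), poch (-(2 * j : ℚ)) k * poch (-1 / 3 - 2 * j : ℚ) k /
    (poch (2 / 3 - j : ℚ) k * (k.factorial : ℚ)) * (-1 / 8) ^ k =
    (27 / 16) ^ j * poch (1 / 2) j / poch (1 / 3) j := by
  rw [← X2' j]
  apply sum_congr rfl
  intro k _
  unfold TT
  rw [show (1 / 3 - 2 * ((j : ℚ) + 1 / 3)) = -1 / 3 - 2 * j by ring,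
    show (2 / 3 - 2 * ((j : ℚ) + 1 / 3)) = -(2 * j : ℚ) by ring,
    show (1 - ((j : ℚ) + 1 / 3)) = 2 / 3 - j by ring, mul_comm (poch (-(2 * j : ℚ)) k)]

/-- vanishing: `2F1(-m, -m-1/3; 2/3-m/2; -1/8) = 0` for odd `m` -/
theorem X0 (j : ℕ) : ∑ k ∈ range (2 * j + 2), poch (-(2 * j + 1 : ℚ)) k * poch (-4 / 3 - 2 * j : ℚ) k /
    (poch (1 / 6 - j : ℚ) k * (k.factorial : ℚ)) * (-1 / 8) ^ k = 0 := by
  rw [← X0' j]
  apply sum_congr rfl
  intro k _
  unfold TT
  rw [show (1 / 3 - 2 * ((j : ℚ) + 5 / 6)) = -4 / 3 - 2 * j by ring,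
    show (2 / 3 - 2 * ((j : ℚ) + 5 / 6)) = -(2 * j + 1 : ℚ) by ring,
    show (1 - ((j : ℚ) + 5 / 6)) = 1 / 6 - j by ring, mul_comm (poch (-(2 * j + 1 : ℚ)) k)]

end SCD27
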