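import Pool.Agent.SC24.Eval

/-!
MP_286faa_nt: the overflow constants modulo `p^2`.
-/

namespace SCD27

open Finset SC24

section
variable {p : ℕ} [hp : Fact p.Prime]

lemma prod_add_P {ι : Type*} (s : Finset ι) (a : ι → ZMod (p ^ (2:ℕ))) (c : ZMod (p ^ (2:ℕ)))
    (h : ∀ i ∈ s, IsUnit (a i)) :
    ∏ i ∈ s, (a i + P2 p * c) = (∏ i ∈ s, a i) * (1 + P2 p * (c * ∑ i ∈ s, (a i)⁻¹)) := by
  classical
  induction s using Finset.induction_on with
  | empty => simp
  | insert b s hb ih =>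
    rw [prod_insert hb, prod_insert hb, sum_insert hb, ih (fun i hi => h i (mem_insert_of_mem hi))]
    have h1 : a b * (a b)⁻¹ = 1 := ZMod.mul_inv_of_unit _ (h b (mem_insert_self _ _))
    linear_combination (-(P2 p) * c * ∏ i ∈ s, a i) * h1 + (c ^ 2 * (∏ i ∈ s, a i) * ∑ i ∈ s, (a i)⁻¹) * P2_mul_self p

lemma isUnit_erase {x : ZMod (p ^ (2:ℕ))} {i0 : ℕ} (hi0 : i0 < p) (h : red p x + i0 = 0) {i : ℕ}
    (hi : i ∈ (range p).erase i0) : IsUnit (x + (i : ZMod (p ^ (2:ℕ)))) := by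
  rw [mem_erase, mem_range] at hi
  rw [isUnit_iff_red, map_add, map_natCast]
  intro h'
  have h1 : (i : ZMod p) = (i0 : ZMod p) := by linear_combination h' - h
  have := (ZMod.natCast_eq_natCast_iff' i i0 p).mp h1
  rw [Nat.mod_eq_of_lt hi.2, Nat.mod_eq_of_lt hi0] at this
  exact hi.1 this

lemma P_sum_erase (h2 : 2 < p) {x : ZMod (p ^ (2:ℕ))} {i0 : ℕ} (hi0 : i0 < p) (h : red p x + i0 = 0) :
    P2 p * ∑ i ∈ (range p).erase i0, (x + (i : ZMod (p ^ (2:ℕ))))⁻¹ = 0 := by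
  have : P2 p * ∑ i ∈ (range p).erase i0, (x + (i : ZMod (p ^ (2:ℕ))))⁻¹ = P2 p * 0 := by
    apply P_mul_congr
    rw [map_sum, map_zero]
    have h3 : ∀ i ∈ (range p).erase i0, red p ((x + (i : ZMod (p ^ (2:ℕ))))⁻¹) = (red p x + i)⁻¹ := by
      intro i hi
      rw [red_inv (isUnit_erase hi0 h hi), map_add, map_natCast]
    rw [sum_congr rfl h3]
    have h4 := Finset.add_sum_erase (range p) (fun i : ℕ => (red p x + (i : ZMod p))⁻¹) (mem_range.mpr hi0)
    simp only [h, inv_zero, zero_add] at h4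
    rw [h4, sum_range_shift (fun y => y⁻¹), sum_inv_zmod h2]
  rw [this, mul_zero]

/-- invariance of the product over the nonzero residues -/
lemma E_add_P (h2 : 2 < p) {x : ZMod (p ^ (2:ℕ))} (c : ZMod (p ^ (2:ℕ))) {i0 : ℕ} (hi0 : i0 < p)
    (h : red p x + i0 = 0) :
    ∏ i ∈ (range p).erase i0, (x + P2 p * c + (i : ZMod (p ^ (2:ℕ)))) =
      ∏ i ∈ (range p).erase i0, (x + (i : ZMod (p ^ (2:ℕ)))) := by
  have h1 := prod_add_P ((range p).erase i0) (fun i : ℕ => x + (i : ZMod (p ^ (2:ℕ)))) c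
    (fun i hi => isUnit_erase hi0 h hi)
  have h3 := P_sum_erase h2 hi0 h
  have h4 : ∏ i ∈ (range p).erase i0, (x + P2 p * c + (i : ZMod (p ^ (2:ℕ)))) =
      ∏ i ∈ (range p).erase i0, (x + (i : ZMod (p ^ (2:ℕ))) + P2 p * c) :=
    prod_congr rfl (fun i _ => by ring)
  rw [h4, h1]
  linear_combination (c * ∏ i ∈ (range p).erase i0, (x + (i : ZMod (p ^ (2:ℕ))))) * h3

lemma fact3 (n : ℕ) : ∏ i ∈ range n, ((3 * i + 1) * (3 * i + 2) * (3 * i + 3)) = (3 * n).factorial := by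
  induction n with
  | zero => simp
  | succ n ih =>
    rw [prod_range_succ, ih, show 3 * (n + 1) = 3 * n + 1 + 1 + 1 by ring, Nat.factorial_succ,
      Nat.factorial_succ, Nat.factorial_succ]
    ring

lemma fact_split (q : ℕ) : (3 * (q + 1)).factorial = 6 * (q + 1) ^ 3 *
    ((∏ i ∈ range q, (i + 1)) * (∏ i ∈ range q, (q + 1 + i + 1)) * (∏ i ∈ range q, (2 * (q + 1) + i + 1))) := by
  rw [← prod_range_add_one_eq_factorial, show 3 * (q + 1) = (q + 1) + (q + 1) + (q + 1) by ring,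
    prod_range_add, prod_range_add, prod_range_succ, prod_range_succ, prod_range_succ]
  have e : ∏ x ∈ range q, (q + 1 + (q + 1) + x + 1) = ∏ i ∈ range q, (2 * (q + 1) + i + 1) :=
    prod_congr rfl (fun i _ => by ring)
  rw [e]
  ring

lemma erase_last (q : ℕ) : (range (q + 1)).erase q = range q := by
  ext i; simp only [mem_erase, mem_range]; omega

/-- the data of the two zero indices -/
lemma E_nat {i1 i2 u1 u2 : ℕ} (h1 : 3 * i1 + 1 = u1 * p) (h2 : 3 * i2 + 2 = u2 * p) (hu : u1 * u2 = 2)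
    (hi1 : i1 < p) (hi2 : i2 < p) :
    (∏ i ∈ (range p).erase i1, (3 * i + 1)) * (∏ i ∈ (range p).erase i2, (3 * i + 2)) *
      (∏ i ∈ range (p - 1), (3 * i + 3)) =
    (∏ i ∈ range (p - 1), (i + 1)) * (∏ i ∈ range (p - 1), (p + i + 1)) * (∏ i ∈ range (p - 1), (2 * p + i + 1)) := by
  have hp1 := hp.out.pos
  obtain ⟨q, hq⟩ : ∃ q, p = q + 1 := ⟨p - 1, by omega⟩
  have e1 := mul_prod_erase (range p) (fun i => 3 * i + 1) (mem_range.mpr hi1)
  have e2 := mul_prod_erase (range p) (fun i => 3 * i + 2) (mem_range.mpr hi2)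
  have e3 : ∏ i ∈ range p, (3 * i + 3) = (∏ i ∈ range (p - 1), (3 * i + 3)) * (3 * p) := by
    have : p = (p - 1) + 1 := by omega
    conv_lhs => rw [this]
    rw [prod_range_succ]
    congr 1
    omega
  have e4 := fact3 p
  rw [prod_mul_distrib, prod_mul_distrib, ← e1, ← e2, e3] at e4
  have e5 := fact_split (p - 1)
  rw [show p - 1 + 1 = p by omega] at e5
  rw [e5] at e4
  simp only [h1, h2] at e4
  have hpos : 0 < 6 * p ^ 3 := by positivity
  apply Nat.eq_of_mul_eq_mul_left hpos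
  calc 6 * p ^ 3 * ((∏ i ∈ (range p).erase i1, (3 * i + 1)) * (∏ i ∈ (range p).erase i2, (3 * i + 2)) *
      (∏ i ∈ range (p - 1), (3 * i + 3))) = 3 * (u1 * u2) * p ^ 3 * ((∏ i ∈ (range p).erase i1, (3 * i + 1)) *
        (∏ i ∈ (range p).erase i2, (3 * i + 2)) * (∏ i ∈ range (p - 1), (3 * i + 3))) := by rw [hu]
    _ = _ := by rw [← e4]; ring

lemma prod_fac : ∏ i ∈ range (p - 1), ((1 : ZMod (p ^ (2:ℕ))) + i) = ((p - 1).factorial : ZMod (p ^ (2:ℕ))) := by
  rw [← prod_range_add_one_eq_factorial]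
  push_cast
  exact prod_congr rfl (fun i _ => by ring)

lemma erase_eq : (range p).erase (p - 1) = range (p - 1) := by
  have hp1 := hp.out.pos
  have h := erase_last (p - 1)
  rwa [show p - 1 + 1 = p by omega] at h

lemma red_one_last : red p 1 + ((p - 1 : ℕ) : ZMod p) = 0 := by
  have hp1 := hp.out.pos
  rw [map_one]
  have : ((p - 1 + 1 : ℕ) : ZMod p) = 0 := by rw [show p - 1 + 1 = p by omega, ZMod.natCast_self]
  push_cast at this
  rw [add_comm]; exact this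

lemma E_one (h2 : 2 < p) (c : ZMod (p ^ (2:ℕ))) :
    ∏ i ∈ range (p - 1), ((1 : ZMod (p ^ (2:ℕ))) + P2 p * c + i) = ((p - 1).factorial : ZMod (p ^ (2:ℕ))) := by
  have hp1 := hp.out.pos
  have := E_add_P h2 c (x := 1) (i0 := p - 1) (by omega) red_one_last
  rwa [erase_eq, prod_fac] at this

lemma E_two {th : ZMod (p ^ (2:ℕ))} (h2 : 3 < p) (hth : 3 * th = 1) {i1 i2 u1 u2 : ℕ} (h1 : 3 * i1 + 1 = u1 * p)
    (h2' : 3 * i2 + 2 = u2 * p) (hu : u1 * u2 = 2) (hi1 : i1 < p) (hi2 : i2 < p) :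
    27 ^ (p - 1) * ((∏ i ∈ (range p).erase i1, (th + (i : ZMod (p ^ (2:ℕ))))) *
      (∏ i ∈ (range p).erase i2, (2 * th + (i : ZMod (p ^ (2:ℕ)))))) =
    ((p - 1).factorial : ZMod (p ^ (2:ℕ))) ^ 2 := by
  have h := congrArg (Nat.cast : ℕ → ZMod (p ^ (2:ℕ))) (E_nat h1 h2' hu hi1 hi2)
  push_cast at h
  have e1 : ∏ i ∈ (range p).erase i1, (3 * (i : ZMod (p ^ (2:ℕ))) + 1) =
      3 ^ (p - 1) * ∏ i ∈ (range p).erase i1, (th + (i : ZMod (p ^ (2:ℕ)))) := by
    have hc : ((range p).erase i1).card = p - 1 := by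
      rw [card_erase_of_mem (mem_range.mpr hi1), card_range]
    rw [← hc, ← prod_const, ← prod_mul_distrib]
    exact prod_congr rfl (fun i _ => by linear_combination -hth)
  have e2 : ∏ i ∈ (range p).erase i2, (3 * (i : ZMod (p ^ (2:ℕ))) + 2) =
      3 ^ (p - 1) * ∏ i ∈ (range p).erase i2, (2 * th + (i : ZMod (p ^ (2:ℕ)))) := by
    have hc : ((range p).erase i2).card = p - 1 := by
      rw [card_erase_of_mem (mem_range.mpr hi2), card_range]
    rw [← hc, ← prod_const, ← prod_mul_distrib]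
    exact prod_congr rfl (fun i _ => by linear_combination -2 * hth)
  have e3 : ∏ i ∈ range (p - 1), (3 * (i : ZMod (p ^ (2:ℕ))) + 3) =
      3 ^ (p - 1) * ((p - 1).factorial : ZMod (p ^ (2:ℕ))) := by
    have hc : (range (p - 1)).card = p - 1 := card_range _
    conv_rhs => rw [← hc, ← prod_const]
    rw [hc, ← prod_fac, ← prod_mul_distrib]
    exact prod_congr rfl (fun i _ => by ring)
  have e4 : ∏ i ∈ range (p - 1), ((i : ZMod (p ^ (2:ℕ))) + 1) = ((p - 1).factorial : ZMod (p ^ (2:ℕ))) := by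
    rw [← prod_fac]; exact prod_congr rfl (fun i _ => by ring)
  have e5 : ∏ i ∈ range (p - 1), ((p : ZMod (p ^ (2:ℕ))) + (i : ZMod (p ^ (2:ℕ))) + 1) =
      ((p - 1).factorial : ZMod (p ^ (2:ℕ))) := by
    rw [← E_one (by omega) 1]; exact prod_congr rfl (fun i _ => by unfold P2; ring)
  have e6 : ∏ i ∈ range (p - 1), (2 * (p : ZMod (p ^ (2:ℕ))) + (i : ZMod (p ^ (2:ℕ))) + 1) =
      ((p - 1).factorial : ZMod (p ^ (2:ℕ))) := by
    rw [← E_one (by omega) 2]; exact prod_congr rfl (fun i _ => by unfold P2; ring)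
  rw [e1, e2, e3, e4, e5, e6] at h
  have hf : IsUnit ((p - 1).factorial : ZMod (p ^ (2:ℕ))) := isUnit_factorial (by omega)
  apply hf.mul_left_injective
  have e27 : (27 : ZMod (p ^ (2:ℕ))) ^ (p - 1) = 3 ^ (p - 1) * 3 ^ (p - 1) * 3 ^ (p - 1) := by
    rw [← mul_pow, ← mul_pow]; norm_num
  show 27 ^ (p - 1) * _ * ((p - 1).factorial : ZMod (p ^ (2:ℕ))) = _ ^ 2 * ((p - 1).factorial : ZMod (p ^ (2:ℕ)))
  rw [e27]
  linear_combination h

/-- data for the zero indices exist -/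
lemma exists_idx (h3 : 3 < p) : ∃ i1 i2 u1 u2 : ℕ, 3 * i1 + 1 = u1 * p ∧ 3 * i2 + 2 = u2 * p ∧ u1 * u2 = 2 ∧
    u1 + u2 = 3 ∧ i1 < p ∧ i2 < p := by
  have hm : p % 3 = 1 ∨ p % 3 = 2 := by
    have h0 : p % 3 ≠ 0 := by
      intro h
      have := (Nat.prime_dvd_prime_iff_eq Nat.prime_three hp.out).mp (Nat.dvd_of_mod_eq_zero h)
      omega
    omega
  rcases hm with h | h
  · exact ⟨(p - 1) / 3, (2 * p - 2) / 3, 1, 2, by omega, by omega, by norm_num, by norm_num, by omega, by omega⟩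
  · exact ⟨(2 * p - 1) / 3, (p - 2) / 3, 2, 1, by omega, by omega, by norm_num, by norm_num, by omega, by omega⟩

lemma poch_split (a : ℚ) {i0 : ℕ} (hi0 : i0 < p) :
    poch a p = (a + i0) * ∏ i ∈ (range p).erase i0, (a + i) := by
  unfold poch
  exact (mul_prod_erase (range p) (fun i : ℕ => a + (i : ℚ)) (mem_range.mpr hi0)).symm

lemma isUnit_three (h3 : 3 < p) : IsUnit (3 : ZMod (p ^ (2:ℕ))) := by
  have : IsUnit ((3 : ℕ) : ZMod (p ^ (2:ℕ))) := isUnit_nat (p := p) dvd_rfl (by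
    intro h; exact absurd (Nat.le_of_dvd (by norm_num) h) (by omega))
  exact_mod_cast this

/-- the common form of the constants -/
theorem K_red (h3 : 3 < p) {γ : ℚ} {g : ZMod (p ^ (2:ℕ))} (hγ : Red p (p ^ (2:ℕ)) γ g) (h1 : (1 : ℚ) - γ ≠ 0)
    {r : ZMod (p ^ (2:ℕ))} (hr : Red p (p ^ (2:ℕ)) (4 / 3 / (1 - γ)) r) :
    Red p (p ^ (2:ℕ)) (poch (1 / 3 - 5 * p / 3 : ℚ) p * poch (2 / 3 - 5 * p / 3 : ℚ) p /
      (poch (1 - γ * p : ℚ) p * (p.factorial : ℚ))) (r * (27 ^ (p - 1))⁻¹) := by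
  obtain ⟨i1, i2, u1, u2, hi1, hi2, hu, hus, hl1, hl2⟩ := exists_idx (p := p) h3
  have hp1 := hp.out.pos
  have hpQ : (p : ℚ) ≠ 0 := by positivity
  have h3u := isUnit_three (p := p) h3
  have hth : (3 : ZMod (p ^ (2:ℕ))) * (3 : ZMod (p ^ (2:ℕ)))⁻¹ = 1 := ZMod.mul_inv_of_unit _ h3u
  have h27u : IsUnit ((27 : ZMod (p ^ (2:ℕ))) ^ (p - 1)) := by
    apply IsUnit.pow
    have := h3u.pow 3
    norm_num at this
    exact this
  have hfu : IsUnit ((p - 1).factorial : ZMod (p ^ (2:ℕ))) := isUnit_factorial (by omega)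
  have hE := E_two h3 hth hi1 hi2 hu hl1 hl2
  have rth : Red p (p ^ (2:ℕ)) (1 / 3) (3 : ZMod (p ^ (2:ℕ)))⁻¹ := by
    have := (Red.nat (p := p) (M := p ^ (2:ℕ)) 3).inv dvd_rfl (dvd_pow_self p two_ne_zero) (by exact_mod_cast h3u)
    norm_num at this ⊢
    exact this
  generalize (3 : ZMod (p ^ (2:ℕ)))⁻¹ = th at *
  have rP : Red p (p ^ (2:ℕ)) (p : ℚ) (P2 p) := Red.nat p
  -- the three products
  have rA : Red p (p ^ (2:ℕ)) (∏ i ∈ (range p).erase i1, ((1 / 3 - 5 * p / 3 : ℚ) + i))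
      (∏ i ∈ (range p).erase i1, (th + (i : ZMod (p ^ (2:ℕ))))) := by
    have hz : red p th + i1 = 0 := by
      have e := congrArg (Nat.cast : ℕ → ZMod p) hi1
      push_cast at e
      rw [show ((p : ℕ) : ZMod p) = 0 from ZMod.natCast_self p, mul_zero] at e
      have e2 := congrArg (red p) hth
      rw [map_mul, map_one, map_ofNat] at e2
      have h3p : (3 : ZMod p) ≠ 0 := by
        intro h; rw [h, zero_mul] at e2; exact zero_ne_one e2
      apply mul_left_cancel₀ h3p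
      linear_combination e + e2
    have := E_add_P (by omega) (-5 * th) hl1 hz
    rw [← this]
    apply Red.prod
    intro i _
    have := ((rth.sub ((Red.nat (p := p) (M := p ^ (2:ℕ)) 5).mul (rP.mul rth)))).add (Red.nat (p := p) (M := p ^ (2:ℕ)) i)
    convert this using 1
    · push_cast; ring
    · push_cast; ring
  have rB : Red p (p ^ (2:ℕ)) (∏ i ∈ (range p).erase i2, ((2 / 3 - 5 * p / 3 : ℚ) + i))
      (∏ i ∈ (range p).erase i2, (2 * th + (i : ZMod (p ^ (2:ℕ))))) := by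
    have hz : red p (2 * th) + i2 = 0 := by
      have e := congrArg (Nat.cast : ℕ → ZMod p) hi2
      push_cast at e
      rw [show ((p : ℕ) : ZMod p) = 0 from ZMod.natCast_self p, mul_zero] at e
      have e2 := congrArg (red p) hth
      rw [map_mul, map_one, map_ofNat] at e2
      have h3p : (3 : ZMod p) ≠ 0 := by
        intro h; rw [h, zero_mul] at e2; exact zero_ne_one e2
      rw [map_mul, map_ofNat]
      apply mul_left_cancel₀ h3p
      linear_combination e + 2 * e2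
    have := E_add_P (by omega) (-5 * th) hl2 hz
    rw [← this]
    apply Red.prod
    intro i _
    have := (((Red.nat (p := p) (M := p ^ (2:ℕ)) 2).mul rth).sub ((Red.nat (p := p) (M := p ^ (2:ℕ)) 5).mul (rP.mul rth))).add
      (Red.nat (p := p) (M := p ^ (2:ℕ)) i)
    convert this using 1
    · push_cast; ring
    · push_cast; ring
  have rC : Red p (p ^ (2:ℕ)) (∏ i ∈ (range p).erase (p - 1), ((1 - γ * p : ℚ) + i))
      ((p - 1).factorial : ZMod (p ^ (2:ℕ))) := by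
    rw [← E_one (by omega) (-g), erase_eq]
    apply Red.prod
    intro i _
    have := ((Red.one (p := p) (M := p ^ (2:ℕ))).sub (hγ.mul rP)).add (Red.nat (p := p) (M := p ^ (2:ℕ)) i)
    convert this using 1
    ring
  have rF : Red p (p ^ (2:ℕ)) ((p - 1).factorial : ℚ) ((p - 1).factorial : ZMod (p ^ (2:ℕ))) := Red.nat _
  have key : poch (1 / 3 - 5 * p / 3 : ℚ) p * poch (2 / 3 - 5 * p / 3 : ℚ) p /
      (poch (1 - γ * p : ℚ) p * (p.factorial : ℚ)) =
      4 / 3 / (1 - γ) * ((∏ i ∈ (range p).erase i1, ((1 / 3 - 5 * p / 3 : ℚ) + i)) *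
        (∏ i ∈ (range p).erase i2, ((2 / 3 - 5 * p / 3 : ℚ) + i)) /
        ((∏ i ∈ (range p).erase (p - 1), ((1 - γ * p : ℚ) + i)) * ((p - 1).factorial : ℚ))) := by
    rw [poch_split _ hl1, poch_split _ hl2, poch_split (1 - γ * p : ℚ) (show p - 1 < p by omega)]
    have f1 : (1 / 3 - 5 * (p : ℚ) / 3 + i1) = (u1 - 5) * p / 3 := by
      have : (3 * i1 + 1 : ℚ) = u1 * p := by exact_mod_cast hi1
      linear_combination this / 3
    have f2 : (2 / 3 - 5 * (p : ℚ) / 3 + i2) = (u2 - 5) * p / 3 := by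
      have : (3 * i2 + 2 : ℚ) = u2 * p := by exact_mod_cast hi2
      linear_combination this / 3
    have f3 : (1 - γ * (p : ℚ) + ((p - 1 : ℕ) : ℚ)) = (1 - γ) * p := by
      rw [Nat.cast_sub hp1]; push_cast; ring
    have f4 : (p.factorial : ℚ) = p * ((p - 1).factorial : ℚ) := by
      have := Nat.mul_factorial_pred hp1.ne'
      exact_mod_cast this.symm
    have f5 : ((u1 : ℚ) - 5) * (u2 - 5) = 12 := by
      have g1 : (u1 * u2 : ℚ) = 2 := by exact_mod_cast hu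
      have g2 : (u1 + u2 : ℚ) = 3 := by exact_mod_cast hus
      linear_combination g1 - 5 * g2
    rw [f1, f2, f3, f4]
    generalize (∏ i ∈ (range p).erase i1, ((1 / 3 - 5 * p / 3 : ℚ) + i)) = A
    generalize (∏ i ∈ (range p).erase i2, ((2 / 3 - 5 * p / 3 : ℚ) + i)) = B
    generalize (∏ i ∈ (range p).erase (p - 1), ((1 - γ * p : ℚ) + i)) = C
    have hF : ((p - 1).factorial : ℚ) ≠ 0 := by positivity
    generalize ((p - 1).factorial : ℚ) = F at *
    by_cases hC : C = 0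
    · rw [hC]; simp
    · rw [div_mul_div_comm, div_eq_div_iff (by positivity) (by positivity)]
      · field_simp
        linear_combination (A * B) * f5
  rw [key]
  have hr2 := (rA.mul rB).div dvd_rfl (dvd_pow_self p two_ne_zero) (rC.mul rF) (hfu.mul hfu)
  have := hr.mul hr2
  convert this using 1
  congr 1
  -- (27^(p-1))⁻¹ = E1 E2 / F^2
  apply ZMod.inv_eq_of_mul_eq_one
  have hFF : (((p - 1).factorial : ZMod (p ^ (2:ℕ))) * (p - 1).factorial) *
      (((p - 1).factorial : ZMod (p ^ (2:ℕ))) * (p - 1).factorial)⁻¹ = 1 := ZMod.mul_inv_of_unit _ (hfu.mul hfu)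
  linear_combination (((p - 1).factorial : ZMod (p ^ (2:ℕ))) * (p - 1).factorial)⁻¹ * hE + hFF

/-- overflow constant for lower parameter `1 - 5p/2` -/
theorem K1_red (h3 : 3 < p) : Red p (p ^ (2:ℕ)) (poch (1 / 3 - 5 * p / 3 : ℚ) p * poch (2 / 3 - 5 * p / 3 : ℚ) p /
      (poch (1 - 5 * p / 2 : ℚ) p * (p.factorial : ℚ))) (-(8 * (9 : ZMod (p ^ (2:ℕ)))⁻¹) * (27 ^ (p - 1))⁻¹) := by
  have h2u : IsUnit ((2 : ℕ) : ZMod (p ^ (2:ℕ))) := isUnit_nat (p := p) dvd_rfl (by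
    intro h; exact absurd (Nat.le_of_dvd (by norm_num) h) (by omega))
  have h9u : IsUnit ((9 : ℕ) : ZMod (p ^ (2:ℕ))) := by
    have := (isUnit_three (p := p) h3).pow 2
    norm_num at this ⊢
    exact this
  have r1 := (Red.nat (p := p) (M := p ^ (2:ℕ)) 5).div dvd_rfl (dvd_pow_self p two_ne_zero)
    (Red.nat (p := p) (M := p ^ (2:ℕ)) 2) h2u
  have r2 := ((Red.nat (p := p) (M := p ^ (2:ℕ)) 8).mul ((Red.nat (p := p) (M := p ^ (2:ℕ)) 9).inv dvd_rfl
    (dvd_pow_self p two_ne_zero) h9u)).neg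
  have := K_red h3 (γ := 5 / 2) (by exact_mod_cast r1) (by norm_num) (r := -(8 * (9 : ZMod (p ^ (2:ℕ)))⁻¹)) (by
    convert r2 using 1
    · norm_num
    · push_cast; rfl)
  convert this using 3
  congr 2
  ring

/-- overflow constant for lower parameter `1 - 5p/6` -/
theorem K2_red (h3 : 3 < p) : Red p (p ^ (2:ℕ)) (poch (1 / 3 - 5 * p / 3 : ℚ) p * poch (2 / 3 - 5 * p / 3 : ℚ) p /
      (poch (1 - 5 * p / 6 : ℚ) p * (p.factorial : ℚ))) (8 * (27 ^ (p - 1))⁻¹) := by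
  have h6u : IsUnit ((6 : ℕ) : ZMod (p ^ (2:ℕ))) := by
    have h2u : IsUnit ((2 : ℕ) : ZMod (p ^ (2:ℕ))) := isUnit_nat (p := p) dvd_rfl (by
      intro h; exact absurd (Nat.le_of_dvd (by norm_num) h) (by omega))
    have := h2u.mul (isUnit_three (p := p) h3)
    norm_num at this ⊢
    exact this
  have r1 := (Red.nat (p := p) (M := p ^ (2:ℕ)) 5).div dvd_rfl (dvd_pow_self p two_ne_zero)
    (Red.nat (p := p) (M := p ^ (2:ℕ)) 6) h6u
  have := K_red h3 (γ := 5 / 6) (by exact_mod_cast r1) (by norm_num) (r := 8) (by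
    convert Red.nat (p := p) (M := p ^ (2:ℕ)) 8 using 1
    · norm_num
    · push_cast; rfl)
  convert this using 3
  congr 2
  ring

end

end SCD27
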