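import Mathlib
import Pool.Agent.SC24.Hyp

/-!
Quartic transformations (squared form) of the hypergeometric polynomials
`2F1(-2l/3,(1-2l)/3;1/2-l;x)` and `2F1(-2l/3,(1-2l)/3;5/6-l/3;x)`.
-/

namespace SCD27

open Finset Polynomial SC24

/-- the Euler operator `X d/dX` -/
noncomputable def th (w : ℚ[X]) : ℚ[X] := X * derivative w

lemma th_add (f g : ℚ[X]) : th (f + g) = th f + th g := by simp [th]; ring

lemma th_sub (f g : ℚ[X]) : th (f - g) = th f - th g := by simp [th]; ring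

lemma th_mul (f g : ℚ[X]) : th (f * g) = th f * g + f * th g := by simp [th]; ring

lemma th_C (a : ℚ) : th (C a) = 0 := by simp [th]

lemma th_X : th X = X := by simp [th]

lemma th_natCast (n : ℕ) : th (n : ℚ[X]) = 0 := by simp [th]

lemma th_one : th 1 = 0 := by simp [th]

lemma th_zero : th 0 = 0 := by simp [th]

lemma th_ofNat (n : ℕ) [n.AtLeastTwo] : th (ofNat(n) : ℚ[X]) = 0 := by
  have : (ofNat(n) : ℚ[X]) = ((n : ℕ) : ℚ[X]) := rfl
  rw [this, th_natCast]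

lemma th_pow (f : ℚ[X]) (n : ℕ) : th (f ^ (n + 1)) = ((n : ℚ[X]) + 1) * f ^ n * th f := by
  simp only [th, derivative_pow_succ, map_add, map_natCast, map_one]
  ring

lemma coeff_th (w : ℚ[X]) (j : ℕ) : (th w).coeff j = j * w.coeff j := by
  cases j with
  | zero => simp [th]
  | succ j =>
    simp only [th, coeff_X_mul, coeff_derivative]
    push_cast
    ring

lemma coeff_mul_low {f v : ℚ[X]} {i : ℕ} (h : ∀ j < i, v.coeff j = 0) :
    (f * v).coeff i = f.coeff 0 * v.coeff i := by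
  rw [coeff_mul, Finset.sum_eq_single (0, i)]
  · rintro ⟨a, b⟩ hab hne
    rw [HasAntidiagonal.mem_antidiagonal] at hab
    have : b < i := by
      rcases Nat.lt_or_ge b i with hb | hb
      · exact hb
      · exfalso; apply hne
        have : a = 0 := by omega
        have : b = i := by omega
        simp [*]
    rw [h b this, mul_zero]
  · intro h'; simp at h'

/-- symmetric square operator (scaled), `c = 6C` -/
noncomputable def Nop (L c w : ℚ[X]) : ℚ[X] :=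
  108 * (1 - X) ^ 2 * (th (th (th w)) - 3 * th (th w) + 2 * th w)
  + 54 * (1 - X) * (c - 8 * (1 - L) * X) * (th (th w) - th w)
  + (6 * (c - 8 * (1 - L) * X) ^ 2 - 144 * (1 - L) * (X * (1 - X)) - 18 * (c - 8 * (1 - L) * X) * (1 - 2 * X)
      + 96 * L * (1 - 2 * L) * (X * (1 - X))) * th w
  + X * (16 * (c - 8 * (1 - L) * X) - 48 * (1 - 2 * X)) * (L * (1 - 2 * L)) * w

lemma Nop_sub (L c w w' : ℚ[X]) : Nop L c (w - w') = Nop L c w - Nop L c w' := by
  simp only [Nop, th_sub]; ring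

lemma Nop_coeff (l : ℕ) (c : ℚ) (w : ℚ[X]) (i : ℕ) (h : ∀ j < i, w.coeff j = 0) :
    (Nop (l : ℚ[X]) (C c) w).coeff i = 6 * i * (6 * (i - 1) + c) * (3 * (i - 2) + c) * w.coeff i := by
  have h1 : ∀ j < i, (th w).coeff j = 0 := fun j hj => by rw [coeff_th, h j hj, mul_zero]
  have h2 : ∀ j < i, (th (th w)).coeff j = 0 := fun j hj => by rw [coeff_th, h1 j hj, mul_zero]
  have h3 : ∀ j < i, (th (th (th w))).coeff j = 0 := fun j hj => by rw [coeff_th, h2 j hj, mul_zero]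
  have e : Nop (l : ℚ[X]) (C c) w = (108 * (1 - X) ^ 2) * th (th (th w))
      + (-324 * (1 - X) ^ 2 + 54 * (1 - X) * (C c - 8 * (1 - (l : ℚ[X])) * X)) * th (th w)
      + (216 * (1 - X) ^ 2 - 54 * (1 - X) * (C c - 8 * (1 - (l : ℚ[X])) * X)
        + (6 * (C c - 8 * (1 - (l : ℚ[X])) * X) ^ 2 - 144 * (1 - (l : ℚ[X])) * (X * (1 - X))
          - 18 * (C c - 8 * (1 - (l : ℚ[X])) * X) * (1 - 2 * X)
          + 96 * (l : ℚ[X]) * (1 - 2 * (l : ℚ[X])) * (X * (1 - X)))) * th w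
      + (X * (16 * (C c - 8 * (1 - (l : ℚ[X])) * X) - 48 * (1 - 2 * X)) * ((l : ℚ[X]) * (1 - 2 * (l : ℚ[X])))) * w := by
    simp only [Nop]; ring
  rw [e, coeff_add, coeff_add, coeff_add, coeff_mul_low h3, coeff_mul_low h2, coeff_mul_low h1, coeff_mul_low h,
    coeff_th, coeff_th, coeff_th]
  simp only [coeff_zero_eq_eval_zero, eval_mul, eval_add, eval_sub, eval_pow, eval_X, eval_one, eval_C, eval_natCast,
    eval_ofNat, eval_neg]
  ring

lemma uniq (l : ℕ) (c : ℚ) (w : ℚ[X]) (D : ℕ) (hD : w.natDegree ≤ D) (h0 : w.coeff 0 = 0)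
    (hN : Nop (l : ℚ[X]) (C c) w = 0)
    (hc : ∀ i : ℕ, 1 ≤ i → i ≤ D → (6 * ((i : ℚ) - 1) + c) * (3 * ((i : ℚ) - 2) + c) ≠ 0) : w = 0 := by
  ext i
  rw [coeff_zero]
  induction i using Nat.strong_induction_on with
  | _ i ih =>
    rcases Nat.eq_zero_or_pos i with rfl | hi
    · exact h0
    rcases Nat.lt_or_ge D i with hiD | hiD
    · exact coeff_eq_zero_of_natDegree_lt (by omega)
    have := Nop_coeff l c w i ih
    rw [hN, coeff_zero] at this
    have h6 : (6 : ℚ) * i ≠ 0 := by positivity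
    have h7 := hc i hi hiD
    have h8 : (6 * (i : ℚ)) * ((6 * ((i : ℚ) - 1) + c) * (3 * ((i : ℚ) - 2) + c)) * w.coeff i = 0 := by
      rw [← mul_assoc]; exact this.symm
    rcases mul_eq_zero.mp h8 with h9 | h9
    · exact absurd h9 (mul_ne_zero h6 h7)
    · exact h9

/-- square of a solution of the second order equation -/
lemma Nop_sq (L c u : ℚ[X]) (hL : th L = 0) (hc : th c = 0)
    (hu : 18 * (1 - X) * th (th u) + (3 * c - 18 - 6 * (1 - 4 * L) * X) * th u + 4 * L * (1 - 2 * L) * X * u = 0) :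
    Nop L c (u ^ 2) = 0 := by
  have hu' := congrArg th hu
  simp only [th_add, th_mul, th_sub, th_ofNat, th_one, th_X, hL, hc, th_zero] at hu'
  have w1 : th (u ^ 2) = 2 * u * th u := by rw [pow_two, th_mul]; ring
  have w2 : th (th (u ^ 2)) = 2 * th u ^ 2 + 2 * u * th (th u) := by
    rw [w1]; simp only [th_mul, th_ofNat]; ring
  have w3 : th (th (th (u ^ 2))) = 6 * th u * th (th u) + 2 * u * th (th (th u)) := by
    rw [w2, pow_two]; simp only [th_add, th_mul, th_ofNat]; ring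
  simp only [Nop]
  rw [w3, w2, w1]
  linear_combination (12 * u * (1 - X)) * hu' +
    (-12 * u * (1 - X) + 36 * (1 - X) * th u + (4 * (c - 8 * (1 - L) * X) - 12 * (1 - 2 * X)) * u) * hu

lemma th_pow' (f : ℚ[X]) (n : ℕ) : f * th (f ^ n) = (n : ℚ[X]) * th f * f ^ n := by
  cases n with
  | zero => simp [th]
  | succ n => rw [th_pow]; push_cast; ring

section
variable {T h g : ℚ[X]}

lemma step2 (hT : h * th T = g * T) : h ^ 2 * th (th T) = (g ^ 2 + h * th g - g * th h) * T := by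
  have h1 := congrArg th hT
  rw [th_mul, th_mul] at h1
  linear_combination h * h1 + (g - th h) * hT

lemma step3 (hT : h * th T = g * T) :
    h ^ 3 * th (th (th T)) = (h * (2 * g * th g + th h * th g + h * th (th g) - th g * th h - g * th (th h))
      + (g ^ 2 + h * th g - g * th h) * g - 2 * th h * (g ^ 2 + h * th g - g * th h)) * T := by
  have h2 := step2 hT
  have h1 := congrArg th h2
  rw [th_mul, th_mul, pow_two, th_mul, pow_two, th_sub, th_add, th_mul, th_mul, th_mul] at h1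
  rw [pow_two] at h2
  linear_combination h * h1 + (g * g + h * th g - g * th h) * hT - 2 * th h * h2

end

/-- the common third order coefficient form -/
noncomputable def pq (K L B A : ℚ[X]) : ℚ[X] :=
  6 * K * (3 * K - 1 - 2 * L) * (6 * K - 1 - 2 * L) * B ^ 3 - 4 * (3 * K - L) * (3 * K + 1 - L) * (3 * K + 2 - L) * A

lemma Nop_T2 (l k m : ℕ) (hm : m + 3 * k = l) :
    ((1 - X) * (9 - 8 * X)) ^ 3 * Nop (l : ℚ[X]) (3 - 6 * (l : ℚ[X])) ((64 * X ^ 3 * (1 - X)) ^ k * (9 - 8 * X) ^ m) =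
      (1 - X) ^ 2 * (27 - 36 * X + 8 * X ^ 2) * pq k l (9 - 8 * X) (64 * X ^ 3 * (1 - X)) *
        ((64 * X ^ 3 * (1 - X)) ^ k * (9 - 8 * X) ^ m) := by
  set T : ℚ[X] := (64 * X ^ 3 * (1 - X)) ^ k * (9 - 8 * X) ^ m with hTd
  have hl : (m : ℚ[X]) = l - 3 * k := by
    have := congrArg (Nat.cast : ℕ → ℚ[X]) hm
    push_cast at this
    linear_combination this
  have tA : th (64 * X ^ 3 * (1 - X)) = 64 * X ^ 3 * (3 - 4 * X) := by
    rw [show (64 * X ^ 3 * (1 - X) : ℚ[X]) = 64 * X * X * X * (1 - X) by ring]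
    simp only [th_mul, th_sub, th_ofNat, th_one, th_X]; ring
  have tB : th (9 - 8 * X) = - 8 * X := by
    simp only [th_mul, th_sub, th_ofNat, th_X]; ring
  have e1 := th_pow' (64 * X ^ 3 * (1 - X)) k
  have e2 := th_pow' (9 - 8 * X) m
  rw [tA] at e1
  rw [tB, hl] at e2
  have hT : ((1 - X) * (9 - 8 * X)) * th T =
      ((k : ℚ[X]) * (27 - 36 * X + 8 * X ^ 2) - 8 * (l : ℚ[X]) * (X - X ^ 2)) * T := by
    have hX : (64 * X ^ 3 : ℚ[X]) ≠ 0 := mul_ne_zero (by norm_num) (pow_ne_zero _ X_ne_zero)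
    apply mul_left_cancel₀ hX
    rw [hTd, th_mul]
    linear_combination (9 - 8 * X) * (9 - 8 * X) ^ m * e1 + (64 * X ^ 3 * (1 - X)) * (64 * X ^ 3 * (1 - X)) ^ k * e2
  have g1 : th ((k : ℚ[X]) * (27 - 36 * X + 8 * X ^ 2) - 8 * (l : ℚ[X]) * (X - X ^ 2)) =
      (k : ℚ[X]) * (-36 * X + 16 * X ^ 2) - 8 * (l : ℚ[X]) * (X - 2 * X ^ 2) := by
    simp only [pow_two, th_mul, th_sub, th_add, th_ofNat, th_natCast, th_X]; ring
  have g2 : th ((k : ℚ[X]) * (-36 * X + 16 * X ^ 2) - 8 * (l : ℚ[X]) * (X - 2 * X ^ 2)) =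
      (k : ℚ[X]) * (-36 * X + 32 * X ^ 2) - 8 * (l : ℚ[X]) * (X - 4 * X ^ 2) := by
    rw [show (-36 * X : ℚ[X]) = 0 - 36 * X by ring]
    simp only [pow_two, th_mul, th_sub, th_add, th_ofNat, th_natCast, th_X, th_zero]; ring
  have h1 : th ((1 - X) * (9 - 8 * X)) = -17 * X + 16 * X ^ 2 := by
    simp only [pow_two, th_mul, th_sub, th_add, th_ofNat, th_one, th_X]; ring
  have h2 : th (-17 * X + 16 * X ^ 2) = -17 * X + 32 * X ^ 2 := by
    rw [show (-17 * X : ℚ[X]) = 0 - 17 * X by ring]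
    simp only [pow_two, th_mul, th_sub, th_add, th_ofNat, th_X, th_zero]; ring
  have s2 := step2 hT
  have s3 := step3 hT
  rw [g1, h1] at s2
  rw [g1, h1, g2, h2] at s3
  simp only [Nop, pq]
  linear_combination (108 * (1 - X) ^ 2) * s3
    + ((1 - X) * (9 - 8 * X)) * (-324 * (1 - X) ^ 2 + 54 * (1 - X) * ((3 - 6 * (l : ℚ[X])) - 8 * (1 - (l : ℚ[X])) * X)) * s2
    + ((1 - X) * (9 - 8 * X)) ^ 2 * (216 * (1 - X) ^ 2 - 54 * (1 - X) * ((3 - 6 * (l : ℚ[X])) - 8 * (1 - (l : ℚ[X])) * X)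
        + (6 * ((3 - 6 * (l : ℚ[X])) - 8 * (1 - (l : ℚ[X])) * X) ^ 2 - 144 * (1 - (l : ℚ[X])) * (X * (1 - X))
          - 18 * ((3 - 6 * (l : ℚ[X])) - 8 * (1 - (l : ℚ[X])) * X) * (1 - 2 * X)
          + 96 * (l : ℚ[X]) * (1 - 2 * (l : ℚ[X])) * (X * (1 - X)))) * hT

lemma Nop_T1 (l k m : ℕ) (hm : m + 3 * k = l) :
    ((1 - X) * (1 + 8 * X)) ^ 3 * Nop (l : ℚ[X]) (5 - 2 * (l : ℚ[X])) ((64 * X * (1 - X) ^ 3) ^ k * (1 + 8 * X) ^ m) =
      (1 - X) ^ 2 * (1 - 20 * X - 8 * X ^ 2) * pq k l (1 + 8 * X) (64 * X * (1 - X) ^ 3) *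
        ((64 * X * (1 - X) ^ 3) ^ k * (1 + 8 * X) ^ m) := by
  set T : ℚ[X] := (64 * X * (1 - X) ^ 3) ^ k * (1 + 8 * X) ^ m with hTd
  have hl : (m : ℚ[X]) = l - 3 * k := by
    have := congrArg (Nat.cast : ℕ → ℚ[X]) hm
    push_cast at this
    linear_combination this
  have tA : th (64 * X * (1 - X) ^ 3) = 64 * X * (1 - X) ^ 2 * (1 - 4 * X) := by
    rw [show (64 * X * (1 - X) ^ 3 : ℚ[X]) = 64 * X * (1 - X) * (1 - X) * (1 - X) by ring]
    simp only [th_mul, th_sub, th_ofNat, th_one, th_X]; ring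
  have tB : th (1 + 8 * X) = 8 * X := by
    simp only [th_mul, th_add, th_one, th_ofNat, th_X]; ring
  have e1 := th_pow' (64 * X * (1 - X) ^ 3) k
  have e2 := th_pow' (1 + 8 * X) m
  rw [tA] at e1
  rw [tB, hl] at e2
  have hT : ((1 - X) * (1 + 8 * X)) * th T =
      ((k : ℚ[X]) * (1 - 20 * X - 8 * X ^ 2) + 8 * (l : ℚ[X]) * (X - X ^ 2)) * T := by
    have hX1 : (1 - X : ℚ[X]) ≠ 0 := by
      intro h
      have := congrArg (eval 0) h
      simp at this
    have hX : (64 * X * (1 - X) ^ 2 : ℚ[X]) ≠ 0 :=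
      mul_ne_zero (mul_ne_zero (by norm_num) X_ne_zero) (pow_ne_zero _ hX1)
    apply mul_left_cancel₀ hX
    rw [hTd, th_mul]
    linear_combination (1 + 8 * X) * (1 + 8 * X) ^ m * e1 + (64 * X * (1 - X) ^ 3) * (64 * X * (1 - X) ^ 3) ^ k * e2
  have g1 : th ((k : ℚ[X]) * (1 - 20 * X - 8 * X ^ 2) + 8 * (l : ℚ[X]) * (X - X ^ 2)) =
      (k : ℚ[X]) * (-20 * X - 16 * X ^ 2) + 8 * (l : ℚ[X]) * (X - 2 * X ^ 2) := by
    simp only [pow_two, th_mul, th_sub, th_add, th_ofNat, th_one, th_natCast, th_X]; ring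
  have g2 : th ((k : ℚ[X]) * (-20 * X - 16 * X ^ 2) + 8 * (l : ℚ[X]) * (X - 2 * X ^ 2)) =
      (k : ℚ[X]) * (-20 * X - 32 * X ^ 2) + 8 * (l : ℚ[X]) * (X - 4 * X ^ 2) := by
    rw [show (-20 * X : ℚ[X]) = 0 - 20 * X by ring]
    simp only [pow_two, th_mul, th_sub, th_add, th_ofNat, th_natCast, th_X, th_zero]; ring
  have h1 : th ((1 - X) * (1 + 8 * X)) = 7 * X - 16 * X ^ 2 := by
    simp only [pow_two, th_mul, th_sub, th_add, th_ofNat, th_one, th_X]; ring
  have h2 : th (7 * X - 16 * X ^ 2) = 7 * X - 32 * X ^ 2 := by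
    simp only [pow_two, th_mul, th_sub, th_add, th_ofNat, th_X, th_zero]; ring
  have s2 := step2 hT
  have s3 := step3 hT
  rw [g1, h1] at s2
  rw [g1, h1, g2, h2] at s3
  simp only [Nop, pq]
  linear_combination (108 * (1 - X) ^ 2) * s3
    + ((1 - X) * (1 + 8 * X)) * (-324 * (1 - X) ^ 2 + 54 * (1 - X) * ((5 - 2 * (l : ℚ[X])) - 8 * (1 - (l : ℚ[X])) * X)) * s2
    + ((1 - X) * (1 + 8 * X)) ^ 2 * (216 * (1 - X) ^ 2 - 54 * (1 - X) * ((5 - 2 * (l : ℚ[X])) - 8 * (1 - (l : ℚ[X])) * X)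
        + (6 * ((5 - 2 * (l : ℚ[X])) - 8 * (1 - (l : ℚ[X])) * X) ^ 2 - 144 * (1 - (l : ℚ[X])) * (X * (1 - X))
          - 18 * ((5 - 2 * (l : ℚ[X])) - 8 * (1 - (l : ℚ[X])) * X) * (1 - 2 * X)
          + 96 * (l : ℚ[X]) * (1 - 2 * (l : ℚ[X])) * (X * (1 - X)))) * hT

/-- term of the second order series -/
def ta (l : ℕ) (c : ℚ) (k : ℕ) : ℚ :=
  poch (-(2 * (l : ℚ)) / 3) k * poch ((1 - 2 * (l : ℚ)) / 3) k / (poch c k * (k.factorial : ℚ))

/-- coefficient of the third order series -/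
def ck (l k : ℕ) : ℚ :=
  poch (-(l : ℚ) / 3) k * poch ((1 - (l : ℚ)) / 3) k * poch ((2 - (l : ℚ)) / 3) k /
    (poch ((2 - 2 * (l : ℚ)) / 3) k * poch ((5 - 2 * (l : ℚ)) / 6) k * (k.factorial : ℚ))

/-- the hypergeometric polynomial -/
noncomputable def up (l : ℕ) (c : ℚ) (n : ℕ) : ℚ[X] := ∑ k ∈ range (n + 1), C (ta l c k) * X ^ k

lemma poch_ne {a : ℚ} {k : ℕ} (h : ∀ j < k, a + j ≠ 0) : poch a k ≠ 0 := by
  unfold poch
  exact Finset.prod_ne_zero_iff.mpr (fun j hj => h j (mem_range.mp hj))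

lemma ta_succ (l : ℕ) (c : ℚ) (k : ℕ) (h : ∀ j < k + 1, c + j ≠ 0) :
    ta l c (k + 1) * ((k + 1) * (k + c)) = ta l c k * ((k + -(2 * (l : ℚ)) / 3) * (k + (1 - 2 * (l : ℚ)) / 3)) := by
  have h1 : poch c k ≠ 0 := poch_ne (fun j hj => h j (by omega))
  have h2 : c + k ≠ 0 := h k (by omega)
  have h3 : (k.factorial : ℚ) ≠ 0 := by positivity
  have h4 : ((k : ℚ) + 1) ≠ 0 := by positivity
  unfold ta
  rw [poch_succ, poch_succ, poch_succ, Nat.factorial_succ]
  push_cast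
  field_simp
  ring

lemma th_sum {ι : Type*} (s : Finset ι) (f : ι → ℚ[X]) : th (∑ i ∈ s, f i) = ∑ i ∈ s, th (f i) := by
  simp [th, Finset.mul_sum]

lemma th_monom (a : ℚ) (k : ℕ) : th (C a * X ^ k) = C (a * k) * X ^ k := by
  ext j
  rw [coeff_th, coeff_C_mul, coeff_C_mul, coeff_X_pow]
  split_ifs with h
  · rw [h]; ring
  · simp

lemma tele {A : Type*} [AddCommGroup A] (F G : ℕ → A) (n : ℕ) (h0 : F 0 = 0) (hk : ∀ k < n, G k = F k - F (k + 1))
    (hn : G n = F n) : ∑ k ∈ range (n + 1), G k = 0 := by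
  rw [Finset.sum_range_succ, hn, Finset.sum_congr rfl (fun k hk' => hk k (mem_range.mp hk')), Finset.sum_range_sub', h0]
  abel

lemma up_ode (l : ℕ) (c : ℚ) (n : ℕ) (hc : ∀ j < n, c + j ≠ 0) (hn : 3 * n = 2 * l ∨ 3 * n + 1 = 2 * l) :
    18 * (1 - X) * th (th (up l c n)) + (3 * C (6 * c) - 18 - 6 * (1 - 4 * (l : ℚ[X])) * X) * th (up l c n)
      + 4 * (l : ℚ[X]) * (1 - 2 * (l : ℚ[X])) * X * up l c n = 0 := by
  have e1 : th (up l c n) = ∑ k ∈ range (n + 1), C (ta l c k * k) * X ^ k := by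
    unfold up; rw [th_sum]; exact Finset.sum_congr rfl (fun k _ => th_monom _ _)
  have e2 : th (th (up l c n)) = ∑ k ∈ range (n + 1), C (ta l c k * k * k) * X ^ k := by
    rw [e1, th_sum]; exact Finset.sum_congr rfl (fun k _ => th_monom _ _)
  rw [e2, e1]
  unfold up
  rw [Finset.mul_sum, Finset.mul_sum, Finset.mul_sum, ← Finset.sum_add_distrib, ← Finset.sum_add_distrib]
  apply tele (fun k => C (18 * ta l c k * (k * (k + c - 1))) * X ^ k)
  · simp
  · intro k hk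
    have h := ta_succ l c k (fun j hj => hc j (by omega))
    have h' := congrArg (fun t : ℚ => (C t : ℚ[X])) h
    simp only [map_mul, map_add, map_natCast, map_one] at h'
    have h2 : (18 * (C (-(2 * (l : ℚ)) / 3)) * (C ((1 - 2 * (l : ℚ)) / 3)) : ℚ[X]) =
        -4 * (l : ℚ[X]) * (1 - 2 * (l : ℚ[X])) := by
      have : (18 * (-(2 * (l : ℚ)) / 3) * ((1 - 2 * (l : ℚ)) / 3) : ℚ) = -4 * l * (1 - 2 * l) := by ring
      have := congrArg (fun t : ℚ => (C t : ℚ[X])) this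
      simpa only [map_mul, map_sub, map_neg, map_natCast, map_one, map_ofNat] using this
    have h3 : (3 * (C (-(2 * (l : ℚ)) / 3) + C ((1 - 2 * (l : ℚ)) / 3)) : ℚ[X]) = 1 - 4 * (l : ℚ[X]) := by
      have : (3 * ((-(2 * (l : ℚ)) / 3) + ((1 - 2 * (l : ℚ)) / 3)) : ℚ) = 1 - 4 * l := by ring
      have := congrArg (fun t : ℚ => (C t : ℚ[X])) this
      simpa only [map_mul, map_add, map_sub, map_natCast, map_one, map_ofNat] using this
    simp only [map_mul, map_add, map_sub, map_natCast, map_one, map_ofNat, Nat.cast_add, Nat.cast_one] at *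
    linear_combination (18 * X ^ (k + 1)) * h' + C (ta l c k) * X ^ (k + 1) * h2
      + 6 * C (ta l c k) * (k : ℚ[X]) * X ^ (k + 1) * h3
  · have h2 : (18 * (C (-(2 * (l : ℚ)) / 3)) * (C ((1 - 2 * (l : ℚ)) / 3)) : ℚ[X]) =
        -4 * (l : ℚ[X]) * (1 - 2 * (l : ℚ[X])) := by
      have : (18 * (-(2 * (l : ℚ)) / 3) * ((1 - 2 * (l : ℚ)) / 3) : ℚ) = -4 * l * (1 - 2 * l) := by ring
      have := congrArg (fun t : ℚ => (C t : ℚ[X])) this
      simpa only [map_mul, map_sub, map_neg, map_natCast, map_one, map_ofNat] using this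
    have h4 : (3 * (n : ℚ[X]) - 2 * l) * (3 * (n : ℚ[X]) + 1 - 2 * l) = 0 := by
      rcases hn with h | h
      · have : (3 * (n : ℚ[X])) = 2 * l := by exact_mod_cast congrArg (Nat.cast : ℕ → ℚ[X]) h
        rw [this]; ring
      · have : (3 * (n : ℚ[X]) + 1) = 2 * l := by exact_mod_cast congrArg (Nat.cast : ℕ → ℚ[X]) h
        rw [this]; ring
    simp only [map_mul, map_add, map_sub, map_natCast, map_one, map_ofNat]
    linear_combination (-2 * C (ta l c n) * X ^ (n + 1)) * h4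

lemma ck_succ (l k : ℕ) (hl : l % 3 ≠ 1) :
    ck l (k + 1) * (6 * (k + 1) * (3 * (k + 1) - 1 - 2 * l) * (6 * (k + 1) - 1 - 2 * l)) =
      ck l k * (4 * (3 * k - l) * (3 * k + 1 - l) * (3 * k + 2 - l)) := by
  have h1 : ∀ j : ℕ, (2 - 2 * (l : ℚ)) / 3 + j ≠ 0 := by
    intro j h
    have h' : (2 + 3 * (j : ℚ)) = 2 * l := by linear_combination 3 * h
    have h'' : 2 + 3 * j = 2 * l := by exact_mod_cast h'
    omega
  have h2 : ∀ j : ℕ, (5 - 2 * (l : ℚ)) / 6 + j ≠ 0 := by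
    intro j h
    have h' : (5 + 6 * (j : ℚ)) = 2 * l := by linear_combination 6 * h
    have h'' : 5 + 6 * j = 2 * l := by exact_mod_cast h'
    omega
  have h3 : (k.factorial : ℚ) ≠ 0 := by positivity
  have h4 : ((k : ℚ) + 1) ≠ 0 := by positivity
  have p1 : poch ((2 - 2 * (l : ℚ)) / 3) k ≠ 0 := poch_ne (fun j _ => h1 j)
  have p2 : poch ((5 - 2 * (l : ℚ)) / 6) k ≠ 0 := poch_ne (fun j _ => h2 j)
  have q1 := h1 k
  have q2 := h2 k
  unfold ck
  simp only [poch_succ]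
  rw [Nat.factorial_succ]
  push_cast
  generalize poch (-(l : ℚ) / 3) k = a1 at *
  generalize poch ((1 - (l : ℚ)) / 3) k = a2 at *
  generalize poch ((2 - (l : ℚ)) / 3) k = a3 at *
  generalize poch ((2 - 2 * (l : ℚ)) / 3) k = b1 at *
  generalize poch ((5 - 2 * (l : ℚ)) / 6) k = b2 at *
  generalize (k.factorial : ℚ) = f at *
  rw [div_mul_eq_mul_div, div_mul_eq_mul_div, div_eq_div_iff (by positivity) (by positivity)]
  ring

lemma th_C_mul (a : ℚ) (w : ℚ[X]) : th (C a * w) = C a * th w := by rw [th_mul, th_C]; ring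

lemma Nop_C_mul (L c : ℚ[X]) (a : ℚ) (w : ℚ[X]) : Nop L c (C a * w) = C a * Nop L c w := by
  simp only [Nop, th_C_mul]; ring

lemma Nop_add (L c w w' : ℚ[X]) : Nop L c (w + w') = Nop L c w + Nop L c w' := by
  simp only [Nop, th_add]; ring

lemma Nop_zero (L c : ℚ[X]) : Nop L c 0 = 0 := by
  simp only [Nop, th_zero]; ring

lemma Nop_sum {ι : Type*} (L c : ℚ[X]) (s : Finset ι) (f : ι → ℚ[X]) :
    Nop L c (∑ i ∈ s, f i) = ∑ i ∈ s, Nop L c (f i) := by
  classical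
  induction s using Finset.induction_on with
  | empty => simp [Nop_zero]
  | insert a s ha ih => rw [sum_insert ha, sum_insert ha, Nop_add, ih]

/-- the transformed polynomial -/
noncomputable def Rp (l : ℕ) (A B : ℚ[X]) : ℚ[X] :=
  ∑ k ∈ range (l / 3 + 1), C (ck l k) * (A ^ k * B ^ (l - 3 * k))

lemma Nop_Rp (l : ℕ) (c j h A B : ℚ[X]) (hl : l % 3 ≠ 1) (hh : h ≠ 0)
    (H : ∀ k m, m + 3 * k = l → h ^ 3 * Nop (l : ℚ[X]) c (A ^ k * B ^ m) = j * pq k l B A * (A ^ k * B ^ m)) :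
    Nop (l : ℚ[X]) c (Rp l A B) = 0 := by
  have hh3 : h ^ 3 ≠ 0 := pow_ne_zero _ hh
  apply mul_left_cancel₀ hh3
  rw [mul_zero]
  unfold Rp
  rw [Nop_sum, Finset.mul_sum]
  rw [show (0 : ℚ[X]) = j * 0 by ring]
  have e : ∀ k ∈ range (l / 3 + 1), h ^ 3 * Nop (l : ℚ[X]) c (C (ck l k) * (A ^ k * B ^ (l - 3 * k))) =
      j * (C (ck l k) * pq k l B A * (A ^ k * B ^ (l - 3 * k))) := by
    intro k hk
    have hk' := mem_range.mp hk
    rw [Nop_C_mul]
    linear_combination C (ck l k) * H k (l - 3 * k) (by omega)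
  rw [Finset.sum_congr rfl e, ← Finset.mul_sum]
  congr 1
  apply tele (fun k => C (ck l k) * (6 * (k : ℚ[X]) * (3 * (k : ℚ[X]) - 1 - 2 * (l : ℚ[X])) *
    (6 * (k : ℚ[X]) - 1 - 2 * (l : ℚ[X]))) * B ^ 3 * (A ^ k * B ^ (l - 3 * k)))
  · simp
  · intro k hk
    have h1 : B ^ (l - 3 * k) = B ^ 3 * B ^ (l - 3 * (k + 1)) := by
      rw [← pow_add]; congr 1; omega
    have h2 := congrArg (fun t : ℚ => (C t : ℚ[X])) (ck_succ l k hl)
    simp only [map_mul, map_add, map_sub, map_natCast, map_one, map_ofNat] at h2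
    simp only [pq]
    rw [h1]
    push_cast
    linear_combination (A ^ (k + 1) * B ^ 3 * B ^ (l - 3 * (k + 1))) * h2
  · have h4 : (3 * ((l / 3 : ℕ) : ℚ[X]) - l) * (3 * ((l / 3 : ℕ) : ℚ[X]) + 1 - l) * (3 * ((l / 3 : ℕ) : ℚ[X]) + 2 - l) = 0 := by
      have h5 : l = 3 * (l / 3) ∨ l = 3 * (l / 3) + 1 ∨ l = 3 * (l / 3) + 2 := by omega
      generalize l / 3 = q at *
      rcases h5 with h | h | h
      · rw [h]; push_cast; ring
      · rw [h]; push_cast; ring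
      · rw [h]; push_cast; ring
    simp only [pq]
    linear_combination (-4 * C (ck l (l / 3)) * A * (A ^ (l / 3) * B ^ (l - 3 * (l / 3)))) * h4

lemma ta_zero (l : ℕ) (c : ℚ) : ta l c 0 = 1 := by simp [ta, poch_zero]

lemma ck_zero (l : ℕ) : ck l 0 = 1 := by simp [ck, poch_zero]

lemma up_eval0 (l : ℕ) (c : ℚ) (n : ℕ) : (up l c n).eval 0 = 1 := by
  unfold up
  rw [eval_finsetSum, Finset.sum_range_succ', Finset.sum_eq_zero]
  · simp [ta_zero]
  · intro k _; simp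

lemma Rp_eval0 (l : ℕ) (A B : ℚ[X]) (hA : A.eval 0 = 0) : (Rp l A B).eval 0 = (B.eval 0) ^ l := by
  unfold Rp
  rw [eval_finsetSum, Finset.sum_range_succ', Finset.sum_eq_zero]
  · simp [ck_zero]
  · intro k _; simp [hA]

lemma up_deg (l : ℕ) (c : ℚ) (n : ℕ) : (up l c n).natDegree ≤ n := by
  unfold up
  apply natDegree_sum_le_of_forall_le
  intro k hk
  have := mem_range.mp hk
  exact (natDegree_C_mul_X_pow_le _ _).trans (by omega)

lemma Rp_deg (l : ℕ) (A B : ℚ[X]) (hA : A.natDegree ≤ 4) (hB : B.natDegree ≤ 1) : (Rp l A B).natDegree ≤ 2 * l := by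
  unfold Rp
  apply natDegree_sum_le_of_forall_le
  intro k hk
  have hk' := mem_range.mp hk
  refine (natDegree_C_mul_le _ _).trans ?_
  refine natDegree_mul_le.trans ?_
  have h1 : (A ^ k).natDegree ≤ k * 4 := natDegree_pow_le_of_le k hA
  have h2 : (B ^ (l - 3 * k)).natDegree ≤ (l - 3 * k) * 1 := natDegree_pow_le_of_le _ hB
  omega

/-- squared quartic transformation, second kind -/
theorem T2 (l n : ℕ) (hn : 3 * n = 2 * l ∨ 3 * n + 1 = 2 * l) :
    C ((9 : ℚ) ^ l) * up l (1 / 2 - l) n ^ 2 = Rp l (64 * X ^ 3 * (1 - X)) (9 - 8 * X) := by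
  have hl : l % 3 ≠ 1 := by omega
  have hc : ∀ j < n, (1 / 2 - (l : ℚ)) + j ≠ 0 := by
    intro j _ h
    have h' : (1 + 2 * (j : ℚ)) = 2 * l := by linear_combination 2 * h
    have h'' : 1 + 2 * j = 2 * l := by exact_mod_cast h'
    omega
  have hcC : (C (6 * (1 / 2 - (l : ℚ))) : ℚ[X]) = 3 - 6 * (l : ℚ[X]) := by
    rw [show (6 * (1 / 2 - (l : ℚ)) : ℚ) = 3 - 6 * l by ring]
    simp only [map_mul, map_sub, map_natCast, map_ofNat]
  rw [← sub_eq_zero]
  apply uniq l (3 - 6 * l) _ (2 * l)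
  · refine (natDegree_sub_le _ _).trans (max_le ?_ ?_)
    · refine (natDegree_C_mul_le _ _).trans ?_
      have := natDegree_pow_le_of_le 2 (up_deg l (1 / 2 - l) n)
      omega
    · apply Rp_deg
      · compute_degree
      · compute_degree
  · rw [coeff_zero_eq_eval_zero, eval_sub, eval_mul, eval_pow, up_eval0, Rp_eval0 _ _ _ (by simp)]
    simp
  · rw [Nop_sub, Nop_C_mul]
    have h1 : Nop (l : ℚ[X]) (C (3 - 6 * (l : ℚ))) (up l (1 / 2 - l) n ^ 2) = 0 := by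
      have h0 := up_ode l (1 / 2 - l) n hc hn
      have : (C (3 - 6 * (l : ℚ)) : ℚ[X]) = C (6 * (1 / 2 - (l : ℚ))) := by congr 1; ring
      rw [this]
      exact Nop_sq _ _ _ (th_natCast _) (th_C _) h0
    have h2 : Nop (l : ℚ[X]) (C (3 - 6 * (l : ℚ))) (Rp l (64 * X ^ 3 * (1 - X)) (9 - 8 * X)) = 0 := by
      have : (C (3 - 6 * (l : ℚ)) : ℚ[X]) = 3 - 6 * (l : ℚ[X]) := by
        simp only [map_mul, map_sub, map_natCast, map_ofNat]
      rw [this]
      apply Nop_Rp l _ ((1 - X) ^ 2 * (27 - 36 * X + 8 * X ^ 2)) ((1 - X) * (9 - 8 * X)) _ _ hl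
      · intro h
        have := congrArg (eval 0) h
        simp at this
      · intro k m hm
        exact Nop_T2 l k m hm
    rw [h1, h2]; simp
  · intro i hi hiD h
    rcases mul_eq_zero.mp h with h | h
    · have h' : (6 * (i : ℚ)) = 3 + 6 * l := by linear_combination h
      have h'' : 6 * i = 3 + 6 * l := by exact_mod_cast h'
      omega
    · have h' : (3 * (i : ℚ)) = 3 + 6 * l := by linear_combination h
      have h'' : 3 * i = 3 + 6 * l := by exact_mod_cast h'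
      omega

/-- squared quartic transformation, first kind -/
theorem T1 (l n : ℕ) (hn : 3 * n = 2 * l ∨ 3 * n + 1 = 2 * l) :
    up l ((5 - 2 * l) / 6) n ^ 2 = Rp l (64 * X * (1 - X) ^ 3) (1 + 8 * X) := by
  have hl : l % 3 ≠ 1 := by omega
  have hc : ∀ j < n, ((5 - 2 * (l : ℚ)) / 6) + j ≠ 0 := by
    intro j _ h
    have h' : (5 + 6 * (j : ℚ)) = 2 * l := by linear_combination 6 * h
    have h'' : 5 + 6 * j = 2 * l := by exact_mod_cast h'
    omega
  rw [← sub_eq_zero]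
  apply uniq l (5 - 2 * l) _ (2 * l)
  · refine (natDegree_sub_le _ _).trans (max_le ?_ ?_)
    · have := natDegree_pow_le_of_le 2 (up_deg l ((5 - 2 * l) / 6) n)
      omega
    · apply Rp_deg
      · compute_degree
      · compute_degree
  · rw [coeff_zero_eq_eval_zero, eval_sub, eval_pow, up_eval0, Rp_eval0 _ _ _ (by simp)]
    simp
  · rw [Nop_sub]
    have h1 : Nop (l : ℚ[X]) (C (5 - 2 * (l : ℚ))) (up l ((5 - 2 * l) / 6) n ^ 2) = 0 := by
      have h0 := up_ode l ((5 - 2 * l) / 6) n hc hn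
      have : (C (5 - 2 * (l : ℚ)) : ℚ[X]) = C (6 * ((5 - 2 * (l : ℚ)) / 6)) := by congr 1; ring
      rw [this]
      exact Nop_sq _ _ _ (th_natCast _) (th_C _) h0
    have h2 : Nop (l : ℚ[X]) (C (5 - 2 * (l : ℚ))) (Rp l (64 * X * (1 - X) ^ 3) (1 + 8 * X)) = 0 := by
      have : (C (5 - 2 * (l : ℚ)) : ℚ[X]) = 5 - 2 * (l : ℚ[X]) := by
        simp only [map_mul, map_sub, map_natCast, map_ofNat]
      rw [this]
      apply Nop_Rp l _ ((1 - X) ^ 2 * (1 - 20 * X - 8 * X ^ 2)) ((1 - X) * (1 + 8 * X)) _ _ hl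
      · intro h
        have := congrArg (eval 0) h
        simp at this
      · intro k m hm
        exact Nop_T1 l k m hm
    rw [h1, h2]; simp
  · intro i hi hiD h
    rcases mul_eq_zero.mp h with h | h
    · have h' : (6 * (i : ℚ)) = 1 + 2 * l := by linear_combination h
      have h'' : 6 * i = 1 + 2 * l := by exact_mod_cast h'
      omega
    · have h' : (3 * (i : ℚ)) = 1 + 2 * l := by linear_combination h
      have h'' : 3 * i = 1 + 2 * l := by exact_mod_cast h'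
      omega

/-- evaluation of `T2` at `-1/8` -/
theorem T2_eval (l n : ℕ) (hn : 3 * n = 2 * l ∨ 3 * n + 1 = 2 * l) :
    (∑ k ∈ range (n + 1), ta l (1 / 2 - l) k * (-1 / 8) ^ k) ^ 2 =
      (10 / 9) ^ l * ∑ k ∈ range (l / 3 + 1), ck l k * (-9 / 64000) ^ k := by
  have h := congrArg (eval (-1 / 8 : ℚ)) (T2 l n hn)
  rw [eval_mul, eval_C, eval_pow] at h
  unfold up Rp at h
  rw [eval_finsetSum, eval_finsetSum] at h
  simp only [eval_mul, eval_C, eval_pow, eval_X, eval_sub, eval_one, eval_ofNat] at h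
  have h9 : ((9 : ℚ) ^ l) ≠ 0 := by positivity
  apply mul_left_cancel₀ h9
  rw [h, ← mul_assoc, ← mul_pow, Finset.mul_sum]
  apply Finset.sum_congr rfl
  intro k hk
  have hk' := mem_range.mp hk
  rw [show (9 : ℚ) * (10 / 9) = 10 by norm_num]
  have : (10 : ℚ) ^ l = 10 ^ (l - 3 * k) * (1000 : ℚ) ^ k := by
    rw [show (1000 : ℚ) = 10 ^ 3 by norm_num, ← pow_mul, ← pow_add]; congr 1; omega
  rw [this]
  have e1 : (64 * (-1 / 8) ^ 3 * (1 - -1 / 8) : ℚ) = -9 / 64 := by norm_num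
  have e2 : (9 - 8 * (-1 / 8) : ℚ) = 10 := by norm_num
  have e3 : (-9 / 64 : ℚ) ^ k = 1000 ^ k * (-9 / 64000) ^ k := by rw [← mul_pow]; norm_num
  rw [e1, e2, e3]; ring

/-- evaluation of `T1` at `-1/8`: vanishing -/
theorem T1_eval (l n : ℕ) (hn : 3 * n = 2 * l ∨ 3 * n + 1 = 2 * l) (hl : l % 3 = 2) :
    ∑ k ∈ range (n + 1), ta l ((5 - 2 * l) / 6) k * (-1 / 8) ^ k = 0 := by
  have h := congrArg (eval (-1 / 8 : ℚ)) (T1 l n hn)
  rw [eval_pow] at h
  unfold up Rp at h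
  rw [eval_finsetSum, eval_finsetSum] at h
  simp only [eval_mul, eval_C, eval_pow, eval_X, eval_sub, eval_add, eval_one, eval_ofNat] at h
  have h0 : ∑ k ∈ range (l / 3 + 1), ck l k * ((64 * (-1 / 8) * (1 - -1 / 8) ^ 3) ^ k * (1 + 8 * (-1 / 8)) ^ (l - 3 * k)) = (0 : ℚ) := by
    apply Finset.sum_eq_zero
    intro k hk
    have hk' := mem_range.mp hk
    have : (1 + 8 * (-1 / 8) : ℚ) = 0 := by norm_num
    rw [this, zero_pow (by omega)]; ring
  rw [h0] at h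
  exact pow_eq_zero_iff (two_ne_zero) |>.mp h

end SCD27
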