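import Pool.Agent.SC24.Eval
import Pool.Agent.SCD27.KK
import Pool.Agent.SCD27.Trans
import Pool.Agent.SCD27.Closed

/-!
MP_286faa_nt: the truncated sums over `ZMod (p^2)`, first order expansions, reductions.
-/

namespace SCD27A

open Finset SC24 SCD27

section
variable {p : ℕ} [hp : Fact p.Prime]

/-- `1/3` -/
def t3 (p : ℕ) : ZMod (p ^ (2:ℕ)) := (3 : ZMod (p ^ (2:ℕ)))⁻¹
/-- `1/6` -/
def w6 (p : ℕ) : ZMod (p ^ (2:ℕ)) := (6 : ZMod (p ^ (2:ℕ)))⁻¹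
/-- `1/2` -/
def h2 (p : ℕ) : ZMod (p ^ (2:ℕ)) := (2 : ZMod (p ^ (2:ℕ)))⁻¹
/-- `-1/8` -/
def xi (p : ℕ) : ZMod (p ^ (2:ℕ)) := -(8 : ZMod (p ^ (2:ℕ)))⁻¹
/-- `-9/64000` -/
def zz (p : ℕ) : ZMod (p ^ (2:ℕ)) := -(9 * (64000 : ZMod (p ^ (2:ℕ)))⁻¹)

lemma isUnit_of_dvd_pow (h5 : 5 < p) {n i j k : ℕ} (h : n = 2 ^ i * 3 ^ j * 5 ^ k) : IsUnit (n : ZMod (p ^ (2:ℕ))) := by
  apply isUnit_nat (p := p) dvd_rfl
  intro hd
  rw [h] at hd
  rcases (hp.out.dvd_mul).mp hd with hd | hd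
  · rcases (hp.out.dvd_mul).mp hd with hd | hd
    · have := Nat.le_of_dvd (by norm_num) (hp.out.dvd_of_dvd_pow hd); omega
    · have := Nat.le_of_dvd (by norm_num) (hp.out.dvd_of_dvd_pow hd); omega
  · have := Nat.le_of_dvd (by norm_num) (hp.out.dvd_of_dvd_pow hd); omega

lemma u2 (h5 : 5 < p) : IsUnit (2 : ZMod (p ^ (2:ℕ))) := by
  have := isUnit_of_dvd_pow h5 (n := 2) (i := 1) (j := 0) (k := 0) (by norm_num); exact_mod_cast this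
lemma u3 (h5 : 5 < p) : IsUnit (3 : ZMod (p ^ (2:ℕ))) := by
  have := isUnit_of_dvd_pow h5 (n := 3) (i := 0) (j := 1) (k := 0) (by norm_num); exact_mod_cast this
lemma u6 (h5 : 5 < p) : IsUnit (6 : ZMod (p ^ (2:ℕ))) := by
  have := isUnit_of_dvd_pow h5 (n := 6) (i := 1) (j := 1) (k := 0) (by norm_num); exact_mod_cast this
lemma u8 (h5 : 5 < p) : IsUnit (8 : ZMod (p ^ (2:ℕ))) := by
  have := isUnit_of_dvd_pow h5 (n := 8) (i := 3) (j := 0) (k := 0) (by norm_num); exact_mod_cast this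
lemma u9 (h5 : 5 < p) : IsUnit (9 : ZMod (p ^ (2:ℕ))) := by
  have := isUnit_of_dvd_pow h5 (n := 9) (i := 0) (j := 2) (k := 0) (by norm_num); exact_mod_cast this
lemma u10 (h5 : 5 < p) : IsUnit (10 : ZMod (p ^ (2:ℕ))) := by
  have := isUnit_of_dvd_pow h5 (n := 10) (i := 1) (j := 0) (k := 1) (by norm_num); exact_mod_cast this
lemma u64000 (h5 : 5 < p) : IsUnit (64000 : ZMod (p ^ (2:ℕ))) := by
  have := isUnit_of_dvd_pow h5 (n := 64000) (i := 9) (j := 0) (k := 3) (by norm_num); exact_mod_cast this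

lemma e3 (h5 : 5 < p) : 3 * t3 p = 1 := ZMod.mul_inv_of_unit _ (u3 h5)
lemma e6 (h5 : 5 < p) : 6 * w6 p = 1 := ZMod.mul_inv_of_unit _ (u6 h5)
lemma e2 (h5 : 5 < p) : 2 * h2 p = 1 := ZMod.mul_inv_of_unit _ (u2 h5)

/-- term of the truncated `2F1(1/3+Pδ, 2/3+Pδ; 1+Pγ)` with `k!` replaced by `(1+Pη)_k` -/
def ph (p : ℕ) (δ γ η : ZMod (p ^ (2:ℕ))) (k : ℕ) : ZMod (p ^ (2:ℕ)) :=
  poch (t3 p + P2 p * δ) k * poch (2 * t3 p + P2 p * δ) k *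
    (poch (1 + P2 p * γ) k * poch (1 + P2 p * η) k)⁻¹ * (xi p) ^ k

def Phi (p : ℕ) (δ γ η : ZMod (p ^ (2:ℕ))) : ZMod (p ^ (2:ℕ)) := ∑ k ∈ range p, ph p δ γ η k

lemma poch_exp (a : ZMod (p ^ (2:ℕ))) (k : ℕ) : ∃ d, ∀ δ, poch (a + P2 p * δ) k = poch a k + P2 p * (δ * d) := by
  obtain ⟨D, hD⟩ := isAff_poch (IsAff.lin (p := p) a 1) k
  refine ⟨D, fun δ => ?_⟩
  have := hD δ
  simp only [one_mul, mul_zero, add_zero] at this
  exact this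

lemma isUnit_one_add {k : ℕ} (hk : k < p) (γ : ZMod (p ^ (2:ℕ))) : IsUnit (poch (1 + P2 p * γ) k) := by
  apply isUnit_poch_adm _ hk
  unfold Adm
  rw [map_add, map_one, map_mul, red_P]; ring

lemma den_exp {k : ℕ} (hk : k < p) : ∃ i0 c, ∀ γ η : ZMod (p ^ (2:ℕ)),
    (poch (1 + P2 p * γ) k * poch (1 + P2 p * η) k)⁻¹ = i0 + P2 p * ((γ + η) * c) := by
  have hu : ∀ i ∈ range k, IsUnit ((1 : ZMod (p ^ (2:ℕ))) + (i : ZMod (p ^ (2:ℕ)))) := by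
    intro i hi
    have hi' := mem_range.mp hi
    have : IsUnit ((i + 1 : ℕ) : ZMod (p ^ (2:ℕ))) := isUnit_nat dvd_rfl (by
      intro h; exact absurd (Nat.le_of_dvd (by omega) h) (by omega))
    push_cast at this
    rwa [add_comm]
  have h1 : ∀ γ : ZMod (p ^ (2:ℕ)), poch (1 + P2 p * γ) k =
      poch 1 k * (1 + P2 p * (γ * ∑ i ∈ range k, ((1 : ZMod (p ^ (2:ℕ))) + (i : ZMod (p ^ (2:ℕ))))⁻¹)) := by
    intro γ
    have := prod_add_P (range k) (fun i : ℕ => (1 : ZMod (p ^ (2:ℕ))) + (i : ZMod (p ^ (2:ℕ)))) γ hu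
    unfold poch
    rw [← this]
    exact prod_congr rfl (fun i _ => by ring)
  have hk1 : IsUnit (poch (1 : ZMod (p ^ (2:ℕ))) k) := by
    have := isUnit_one_add (p := p) hk 0
    rwa [mul_zero, add_zero] at this
  have hkk := ZMod.mul_inv_of_unit _ hk1
  generalize (poch (1 : ZMod (p ^ (2:ℕ))) k)⁻¹ = y at *
  generalize poch (1 : ZMod (p ^ (2:ℕ))) k = x at *
  generalize ∑ i ∈ range k, ((1 : ZMod (p ^ (2:ℕ))) + (i : ZMod (p ^ (2:ℕ))))⁻¹ = H at *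
  refine ⟨y * y, -(y * y * H), fun γ η => ?_⟩
  apply ZMod.inv_eq_of_mul_eq_one
  rw [h1, h1]
  have e1 : x * y * (x * y) = 1 := by rw [hkk, one_mul]
  linear_combination (1 - P2 p * P2 p * H ^ 2 * (γ ^ 2 + γ * η + η ^ 2) - P2 p ^ 3 * H ^ 3 * γ * η * (γ + η)) * e1
    - (H ^ 2 * (γ ^ 2 + γ * η + η ^ 2) + P2 p * H ^ 3 * γ * η * (γ + η)) * P2_mul_self p

lemma ph_exp {k : ℕ} (hk : k < p) : ∃ D C, ∀ δ γ η : ZMod (p ^ (2:ℕ)),
    ph p δ γ η k = ph p 0 0 0 k + P2 p * (δ * D + (γ + η) * C) := by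
  obtain ⟨d1, hd1⟩ := poch_exp (t3 p) k
  obtain ⟨d2, hd2⟩ := poch_exp (2 * t3 p) k
  obtain ⟨i0, c, hc⟩ := den_exp (p := p) hk
  refine ⟨(poch (t3 p) k * d2 + poch (2 * t3 p) k * d1) * i0 * xi p ^ k,
    poch (t3 p) k * poch (2 * t3 p) k * c * xi p ^ k, fun δ γ η => ?_⟩
  unfold ph
  rw [hd1, hd2, hc, hd1 0, hd2 0, hc 0 0]
  generalize poch (t3 p) k = a
  generalize poch (2 * t3 p) k = b
  generalize xi p ^ k = x
  linear_combination (x * (i0 * δ * δ * d1 * d2 + (γ + η) * c * (a * δ * d2 + b * δ * d1) +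
    P2 p * (γ + η) * c * δ * δ * d1 * d2)) * P2_mul_self p

lemma Phi_exp (p : ℕ) [Fact p.Prime] : ∃ D C, ∀ δ γ η : ZMod (p ^ (2:ℕ)),
    Phi p δ γ η = Phi p 0 0 0 + P2 p * (δ * D + (γ + η) * C) := by
  have h : ∀ k : ℕ, ∃ D C, k < p → ∀ δ γ η : ZMod (p ^ (2:ℕ)),
      ph p δ γ η k = ph p 0 0 0 k + P2 p * (δ * D + (γ + η) * C) := by
    intro k
    by_cases hk : k < p
    · obtain ⟨D, C, hDC⟩ := ph_exp (p := p) hk
      exact ⟨D, C, fun _ => hDC⟩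
    · exact ⟨0, 0, fun h => absurd h hk⟩
  choose D C hDC using h
  refine ⟨∑ k ∈ range p, D k, ∑ k ∈ range p, C k, fun δ γ η => ?_⟩
  unfold Phi
  rw [mul_sum, mul_sum, ← sum_add_distrib, mul_sum, ← sum_add_distrib]
  exact sum_congr rfl (fun k hk => hDC k (mem_range.mp hk) δ γ η)

/-- term of the truncated `3F2` -/
def sh (p : ℕ) (σ : ZMod (p ^ (2:ℕ))) (k : ℕ) : ZMod (p ^ (2:ℕ)) :=
  poch (w6 p + P2 p * (1 * σ)) k * poch (3 * w6 p + P2 p * (1 * σ)) k * poch (5 * w6 p + P2 p * (1 * σ)) k *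
    (poch (1 + P2 p * (2 * σ)) k * (poch (1 + P2 p * (1 * σ)) k * (k.factorial : ZMod (p ^ (2:ℕ)))))⁻¹ * (zz p) ^ k

def SS (p : ℕ) (σ : ZMod (p ^ (2:ℕ))) : ZMod (p ^ (2:ℕ)) := ∑ k ∈ range p, sh p σ k

lemma isAff_SS : IsAff p (SS p) := by
  unfold SS
  apply IsAff.sum
  intro k hk
  have hk' := mem_range.mp hk
  unfold sh
  apply IsAff.mul _ (IsAff.const _)
  apply IsAff.mul (((isAff_poch (IsAff.lin _ 1) k).mul (isAff_poch (IsAff.lin _ 1) k)).mul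
    (isAff_poch (IsAff.lin _ 1) k))
  apply IsAff.inv ((isAff_poch (IsAff.lin _ 2) k).mul ((isAff_poch (IsAff.lin _ 1) k).mul (IsAff.const _)))
  exact (isUnit_one_add hk' _).mul ((isUnit_one_add hk' _).mul (isUnit_factorial hk'))

/-! reductions -/

lemma rdvd : p ∣ p ^ (2:ℕ) := dvd_pow_self p two_ne_zero

lemma r3 (h5 : 5 < p) : Red p (p ^ (2:ℕ)) (1 / 3) (t3 p) := by
  have := (Red.nat (p := p) (M := p ^ (2:ℕ)) 3).inv dvd_rfl rdvd (by exact_mod_cast u3 h5)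
  norm_num at this ⊢
  exact this

lemma r6 (h5 : 5 < p) : Red p (p ^ (2:ℕ)) (1 / 6) (w6 p) := by
  have := (Red.nat (p := p) (M := p ^ (2:ℕ)) 6).inv dvd_rfl rdvd (by exact_mod_cast u6 h5)
  norm_num at this ⊢
  exact this

lemma r2 (h5 : 5 < p) : Red p (p ^ (2:ℕ)) (1 / 2) (h2 p) := by
  have := (Red.nat (p := p) (M := p ^ (2:ℕ)) 2).inv dvd_rfl rdvd (by exact_mod_cast u2 h5)
  norm_num at this ⊢
  exact this

lemma rxi (h5 : 5 < p) : Red p (p ^ (2:ℕ)) (-1 / 8) (xi p) := by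
  have := ((Red.nat (p := p) (M := p ^ (2:ℕ)) 8).inv dvd_rfl rdvd (by exact_mod_cast u8 h5)).neg
  unfold xi
  convert this using 1
  · norm_num
  · push_cast; rfl

lemma rzz (h5 : 5 < p) : Red p (p ^ (2:ℕ)) (-9 / 64000) (zz p) := by
  have := ((Red.nat (p := p) (M := p ^ (2:ℕ)) 9).mul
    ((Red.nat (p := p) (M := p ^ (2:ℕ)) 64000).inv dvd_rfl rdvd (by exact_mod_cast u64000 h5))).neg
  unfold zz
  convert this using 1
  · norm_num
  · push_cast; rfl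

lemma rP : Red p (p ^ (2:ℕ)) (p : ℚ) (P2 p) := Red.nat p

/-- reduction of a single `2F1` term -/
lemma red_ph (h5 : 5 < p) {k : ℕ} (hk : k < p) {δ γ η : ℚ} {δ' γ' η' : ZMod (p ^ (2:ℕ))}
    (h1 : Red p (p ^ (2:ℕ)) δ δ') (hg : Red p (p ^ (2:ℕ)) γ γ') (h3 : Red p (p ^ (2:ℕ)) η η') :
    Red p (p ^ (2:ℕ)) (poch (1 / 3 + p * δ : ℚ) k * poch (2 / 3 + p * δ : ℚ) k /
      (poch (1 + p * γ : ℚ) k * poch (1 + p * η : ℚ) k) * (-1 / 8) ^ k) (ph p δ' γ' η' k) := by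
  have ra := poch_red ((r3 h5).add (rP.mul h1)) k
  have rb := poch_red ((((Red.nat (p := p) (M := p ^ (2:ℕ)) 2).mul (r3 h5))).add (rP.mul h1)) k
  have rc := poch_red ((Red.one (p := p) (M := p ^ (2:ℕ))).add (rP.mul hg)) k
  have rd := poch_red ((Red.one (p := p) (M := p ^ (2:ℕ))).add (rP.mul h3)) k
  have hu : IsUnit (poch (1 + P2 p * γ') k * poch (1 + P2 p * η') k) :=
    (isUnit_one_add hk _).mul (isUnit_one_add hk _)
  have := (((ra.mul rb).div dvd_rfl rdvd (rc.mul rd) hu)).mul ((rxi h5).pow k)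
  unfold ph
  convert this using 1
  · push_cast
    norm_num
  · push_cast; rfl

lemma poch_one_fac (k : ℕ) : poch (1 : ℚ) k = (k.factorial : ℚ) := by
  unfold poch
  rw [← prod_range_add_one_eq_factorial]
  push_cast
  exact prod_congr rfl (fun i _ => by ring)

/-- reduction of a single `3F2` term -/
lemma red_sh (h5 : 5 < p) {k : ℕ} (hk : k < p) {σ : ℚ} {σ' : ZMod (p ^ (2:ℕ))}
    (h1 : Red p (p ^ (2:ℕ)) σ σ') :
    Red p (p ^ (2:ℕ)) (poch (1 / 6 + p * σ : ℚ) k * poch (1 / 2 + p * σ : ℚ) k * poch (5 / 6 + p * σ : ℚ) k /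
      (poch (1 + p * (2 * σ) : ℚ) k * (poch (1 + p * σ : ℚ) k * (k.factorial : ℚ))) * (-9 / 64000) ^ k) (sh p σ' k) := by
  have ra := poch_red ((r6 h5).add (rP.mul ((Red.one (p := p) (M := p ^ (2:ℕ))).mul h1))) k
  have rb := poch_red ((((Red.nat (p := p) (M := p ^ (2:ℕ)) 3).mul (r6 h5))).add
    (rP.mul ((Red.one (p := p) (M := p ^ (2:ℕ))).mul h1))) k
  have rb' := poch_red ((((Red.nat (p := p) (M := p ^ (2:ℕ)) 5).mul (r6 h5))).add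
    (rP.mul ((Red.one (p := p) (M := p ^ (2:ℕ))).mul h1))) k
  have rc := poch_red ((Red.one (p := p) (M := p ^ (2:ℕ))).add
    (rP.mul ((Red.nat (p := p) (M := p ^ (2:ℕ)) 2).mul h1))) k
  have rd := poch_red ((Red.one (p := p) (M := p ^ (2:ℕ))).add
    (rP.mul ((Red.one (p := p) (M := p ^ (2:ℕ))).mul h1))) k
  have rf : Red p (p ^ (2:ℕ)) (k.factorial : ℚ) (k.factorial : ZMod (p ^ (2:ℕ))) := Red.nat _
  have hu : IsUnit (poch (1 + P2 p * (((2:ℕ) : ZMod (p ^ (2:ℕ))) * σ')) k *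
      (poch (1 + P2 p * (1 * σ')) k * (k.factorial : ZMod (p ^ (2:ℕ))))) :=
    (isUnit_one_add hk _).mul ((isUnit_one_add hk _).mul (isUnit_factorial hk))
  have := ((((ra.mul rb).mul rb').div dvd_rfl rdvd (rc.mul (rd.mul rf)) hu)).mul ((rzz h5).pow k)
  unfold sh
  convert this using 1
  · push_cast
    norm_num
  · push_cast; rfl

end

end SCD27A
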