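import Pool.Agent.SCD27.Asm1

/-!
MP_286faa_nt: reductions of the rational sums.
-/

namespace SCD27A

open Finset SC24 SCD27

section
variable {p : ℕ} [hp : Fact p.Prime]

lemma poch_add (a : ℚ) (m k : ℕ) : poch a (m + k) = poch a m * poch (a + m) k := by
  unfold poch
  rw [prod_range_add]
  congr 1
  exact prod_congr rfl (fun i _ => by push_cast; ring)

lemma ta_van {l n k : ℕ} (c : ℚ) (hn : 3 * n = 2 * l ∨ 3 * n + 1 = 2 * l) (hk : n < k) : ta l c k = 0 := by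
  unfold ta
  rcases hn with h | h
  · have : -(2 * (l : ℚ)) / 3 = -(n : ℚ) := by
      have : (3 * n : ℚ) = 2 * l := by exact_mod_cast h
      linear_combination this / 3
    rw [poch_vanish this hk]; simp
  · have : (1 - 2 * (l : ℚ)) / 3 = -(n : ℚ) := by
      have : (3 * n + 1 : ℚ) = 2 * l := by exact_mod_cast h
      linear_combination this / 3
    rw [poch_vanish this hk]; simp

lemma ck_van {l k : ℕ} (hl : l % 3 ≠ 1) (hk : l / 3 < k) : ck l k = 0 := by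
  unfold ck
  rcases (by omega : l % 3 = 0 ∨ l % 3 = 2) with h | h
  · have : -(l : ℚ) / 3 = -((l / 3 : ℕ) : ℚ) := by
      have h1 : 3 * (l / 3) = l := by omega
      have : (3 * ((l / 3 : ℕ) : ℚ)) = l := by exact_mod_cast h1
      linear_combination this / 3
    rw [poch_vanish this hk]; simp
  · have : (2 - (l : ℚ)) / 3 = -((l / 3 : ℕ) : ℚ) := by
      have h1 : 3 * (l / 3) + 2 = l := by omega
      have : (3 * ((l / 3 : ℕ) : ℚ)) + 2 = l := by exact_mod_cast h1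
      linear_combination this / 3
    rw [poch_vanish this hk]; simp

lemma ta_one {l : ℕ} (hl : 2 * l + 1 = p) {c γ : ℚ} (hc : c = 1 + p * γ) (k : ℕ) :
    ta l c k = poch (1 / 3 + p * (-(1 / 3)) : ℚ) k * poch (2 / 3 + p * (-(1 / 3)) : ℚ) k /
      (poch (1 + p * γ : ℚ) k * poch (1 + p * 0 : ℚ) k) := by
  have h : (2 * l + 1 : ℚ) = p := by exact_mod_cast hl
  unfold ta
  rw [hc, mul_zero, add_zero, poch_one_fac]
  rw [show -(2 * (l : ℚ)) / 3 = 1 / 3 + p * (-(1 / 3)) by linear_combination -h / 3,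
    show (1 - 2 * (l : ℚ)) / 3 = 2 / 3 + p * (-(1 / 3)) by linear_combination -h / 3]

lemma ta_five {l : ℕ} (hl : 2 * l + 1 = 5 * p) {c γ : ℚ} (hc : c = 1 + p * γ) (k : ℕ) :
    ta l c k = poch (1 / 3 + p * (-(5 / 3)) : ℚ) k * poch (2 / 3 + p * (-(5 / 3)) : ℚ) k /
      (poch (1 + p * γ : ℚ) k * poch (1 + p * 0 : ℚ) k) := by
  have h : (2 * l + 1 : ℚ) = 5 * p := by exact_mod_cast hl
  unfold ta
  rw [hc, mul_zero, add_zero, poch_one_fac]
  rw [show -(2 * (l : ℚ)) / 3 = 1 / 3 + p * (-(5 / 3)) by linear_combination -h / 3,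
    show (1 - 2 * (l : ℚ)) / 3 = 2 / 3 + p * (-(5 / 3)) by linear_combination -h / 3]

lemma ta_over {l : ℕ} (hl : 2 * l + 1 = 5 * p) {c γ : ℚ} (hc : c = 1 + p * γ) (k : ℕ) :
    ta l c (p + k) = poch (1 / 3 - 5 * p / 3 : ℚ) p * poch (2 / 3 - 5 * p / 3 : ℚ) p / (poch c p * (p.factorial : ℚ)) *
      (poch (1 / 3 + p * (-(2 / 3)) : ℚ) k * poch (2 / 3 + p * (-(2 / 3)) : ℚ) k /
      (poch (1 + p * (γ + 1) : ℚ) k * poch (1 + p * 1 : ℚ) k)) := by
  have h : (2 * l + 1 : ℚ) = 5 * p := by exact_mod_cast hl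
  unfold ta
  rw [← poch_one_fac (p + k), poch_add, poch_add, poch_add, poch_add, poch_one_fac p]
  rw [show -(2 * (l : ℚ)) / 3 = 1 / 3 - 5 * p / 3 by linear_combination -h / 3,
    show (1 - 2 * (l : ℚ)) / 3 = 2 / 3 - 5 * p / 3 by linear_combination -h / 3,
    show (1 / 3 - 5 * (p : ℚ) / 3 + p) = 1 / 3 + p * (-(2 / 3)) by ring,
    show (2 / 3 - 5 * (p : ℚ) / 3 + p) = 2 / 3 + p * (-(2 / 3)) by ring,
    show c + (p : ℚ) = 1 + p * (γ + 1) by rw [hc]; ring, show (1 : ℚ) + p = 1 + p * 1 by ring]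
  rw [div_mul_div_comm]
  congr 1 <;> ring

lemma V_one (h5 : 5 < p) {l n : ℕ} (hl : 2 * l + 1 = p) (hn : 3 * n = 2 * l ∨ 3 * n + 1 = 2 * l)
    {c γ : ℚ} {γ' : ZMod (p ^ (2:ℕ))} (hc : c = 1 + p * γ) (hγ : Red p (p ^ (2:ℕ)) γ γ') :
    Red p (p ^ (2:ℕ)) (∑ k ∈ range (n + 1), ta l c k * (-1 / 8) ^ k) (Phi p (-(1 * t3 p)) γ' 0) := by
  have e : ∑ k ∈ range (n + 1), ta l c k * (-1 / 8) ^ k = ∑ k ∈ range p, ta l c k * (-1 / 8) ^ k := by
    symm
    apply sum_ext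
    · intro k hk; rw [ta_van c hn hk, zero_mul]
    · omega
  rw [e]
  unfold Phi
  apply Red.sum
  intro k hk
  rw [ta_one hl hc]
  apply red_ph h5 (mem_range.mp hk) _ hγ (Red.zero (p := p) (M := p ^ (2:ℕ)))
  rw [one_mul]
  exact (r3 h5).neg

lemma V_five (h5 : 5 < p) {l n : ℕ} (hl : 2 * l + 1 = 5 * p) (hn : 3 * n = 2 * l ∨ 3 * n + 1 = 2 * l)
    {c γ : ℚ} {γ' K' : ZMod (p ^ (2:ℕ))} (hc : c = 1 + p * γ) (hγ : Red p (p ^ (2:ℕ)) γ γ')
    (hK : Red p (p ^ (2:ℕ)) (poch (1 / 3 - 5 * p / 3 : ℚ) p * poch (2 / 3 - 5 * p / 3 : ℚ) p /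
      (poch c p * (p.factorial : ℚ))) K') :
    Red p (p ^ (2:ℕ)) (∑ k ∈ range (n + 1), ta l c k * (-1 / 8) ^ k)
      (Phi p (-(5 * t3 p)) γ' 0 + K' * xi p ^ p * Phi p (-(2 * t3 p)) (γ' + 1) 1) := by
  have e : ∑ k ∈ range (n + 1), ta l c k * (-1 / 8) ^ k = ∑ k ∈ range (p + p), ta l c k * (-1 / 8) ^ k := by
    symm
    apply sum_ext
    · intro k hk; rw [ta_van c hn hk, zero_mul]
    · omega
  rw [e, sum_range_add]
  apply Red.add
  · unfold Phi
    apply Red.sum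
    intro k hk
    rw [ta_five hl hc]
    apply red_ph h5 (mem_range.mp hk) _ hγ (Red.zero (p := p) (M := p ^ (2:ℕ)))
    have := ((Red.nat (p := p) (M := p ^ (2:ℕ)) 5).mul (r3 h5)).neg
    convert this using 1
    · norm_num
    · push_cast; rfl
  · unfold Phi
    rw [mul_sum]
    apply Red.sum
    intro k hk
    rw [ta_over hl hc, pow_add]
    have h1 : Red p (p ^ (2:ℕ)) (-(2 / 3)) (-(2 * t3 p)) := by
      have := ((Red.nat (p := p) (M := p ^ (2:ℕ)) 2).mul (r3 h5)).neg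
      convert this using 1
      · norm_num
      · push_cast; rfl
    have := (hK.mul ((rxi h5).pow p)).mul (red_ph h5 (mem_range.mp hk) h1
      (hγ.add (Red.one (p := p) (M := p ^ (2:ℕ)))) (Red.one (p := p) (M := p ^ (2:ℕ))))
    convert this using 1
    ring

lemma S_red (h5 : 5 < p) {l q : ℕ} (hl : 2 * l + 1 = q * p) (hl3 : l % 3 ≠ 1) (hlp : l / 3 < p) :
    Red p (p ^ (2:ℕ)) (∑ k ∈ range (l / 3 + 1), ck l k * (-9 / 64000) ^ k) (SS p (-(q * w6 p))) := by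
  have e : ∑ k ∈ range (l / 3 + 1), ck l k * (-9 / 64000) ^ k = ∑ k ∈ range p, ck l k * (-9 / 64000) ^ k := by
    symm
    apply sum_ext
    · intro k hk; rw [ck_van hl3 hk, zero_mul]
    · omega
  rw [e]
  unfold SS
  apply Red.sum
  intro k hk
  have h : (2 * l + 1 : ℚ) = q * p := by exact_mod_cast hl
  have h1 : Red p (p ^ (2:ℕ)) (-(q * (1 / 6))) (-(q * w6 p)) := by
    have := ((Red.nat (p := p) (M := p ^ (2:ℕ)) q).mul (r6 h5)).neg
    convert this using 1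
  have := red_sh h5 (mem_range.mp hk) h1
  convert this using 2
  unfold ck
  rw [show -(l : ℚ) / 3 = 1 / 6 + p * (-(q * (1 / 6))) by linear_combination -h / 6,
    show (1 - (l : ℚ)) / 3 = 1 / 2 + p * (-(q * (1 / 6))) by linear_combination -h / 6,
    show (2 - (l : ℚ)) / 3 = 5 / 6 + p * (-(q * (1 / 6))) by linear_combination -h / 6,
    show (2 - 2 * (l : ℚ)) / 3 = 1 + p * (2 * (-(q * (1 / 6)))) by linear_combination -h / 3,
    show (5 - 2 * (l : ℚ)) / 6 = 1 + p * (-(q * (1 / 6))) by linear_combination -h / 6]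
  ring

/-- `(6k)! / ((3k)! k!^3) = 1728^k (1/6)_k (1/2)_k (5/6)_k / k!^3` -/
lemma six_fac (k : ℕ) : ((6 * k).factorial : ℚ) =
    1728 ^ k * (poch (1 / 6) k * poch (1 / 2) k * poch (5 / 6) k) * ((3 * k).factorial : ℚ) := by
  induction k with
  | zero => simp [poch]
  | succ k ih =>
    rw [show 6 * (k + 1) = 6 * k + 1 + 1 + 1 + 1 + 1 + 1 by ring, show 3 * (k + 1) = 3 * k + 1 + 1 + 1 by ring]
    simp only [Nat.factorial_succ]
    push_cast
    rw [ih, ps, ps, ps]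
    ring

lemma Sp_term (k : ℕ) : ((6 * k).factorial : ℚ) / ((-12288000) ^ k * ((3 * k).factorial : ℚ) * (k.factorial : ℚ) ^ 3) =
    poch (1 / 6) k * poch (1 / 2) k * poch (5 / 6) k / (k.factorial : ℚ) ^ 3 * (-9 / 64000) ^ k := by
  rw [six_fac]
  have h1 : ((3 * k).factorial : ℚ) ≠ 0 := by positivity
  have h2 : (k.factorial : ℚ) ≠ 0 := by positivity
  have h3 : ((-12288000 : ℚ)) ^ k ≠ 0 := by
    apply pow_ne_zero; norm_num
  have h4 : (1728 : ℚ) ^ k = (-12288000) ^ k * (-9 / 64000) ^ k := by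
    rw [← mul_pow]; norm_num
  rw [h4]
  field_simp

lemma Sp_red (h5 : 5 < p) : Red p (p ^ (2:ℕ)) (∑ k ∈ range p, ((6 * k).factorial : ℚ) /
    ((-12288000) ^ k * ((3 * k).factorial : ℚ) * (k.factorial : ℚ) ^ 3)) (SS p 0) := by
  unfold SS
  apply Red.sum
  intro k hk
  rw [Sp_term]
  have := red_sh h5 (mem_range.mp hk) (Red.zero (p := p) (M := p ^ (2:ℕ)))
  convert this using 2
  simp only [mul_zero, add_zero, poch_one_fac]
  ring

end

end SCD27A
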