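import Pool.Agent.SCD27.Asm2

/-!
MP_286faa_nt: the identities `T2`, `T1` and the closed forms inside `ZMod (p^2)`, and the final algebra.
-/

namespace SCD27A

open Finset SC24 SCD27

section
variable {p : ℕ} [hp : Fact p.Prime]

/-- `10/9` -/
def bb (p : ℕ) : ZMod (p ^ (2:ℕ)) := 10 * (9 : ZMod (p ^ (2:ℕ)))⁻¹

lemma rbb (h5 : 5 < p) : Red p (p ^ (2:ℕ)) (10 / 9) (bb p) := by
  have := (Red.nat (p := p) (M := p ^ (2:ℕ)) 10).div dvd_rfl rdvd (Red.nat (p := p) (M := p ^ (2:ℕ)) 9)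
    (by exact_mod_cast u9 h5)
  unfold bb
  exact_mod_cast this

lemma T2_one (h5 : 5 < p) {l n : ℕ} (hl : 2 * l + 1 = p) (hn : 3 * n = 2 * l ∨ 3 * n + 1 = 2 * l)
    (hl3 : l % 3 ≠ 1) :
    (Phi p (-(1 * t3 p)) (-h2 p) 0) ^ 2 = bb p ^ l * SS p (-(((1 : ℕ) : ZMod (p ^ (2:ℕ))) * w6 p)) := by
  have e := T2_eval l n hn
  have r1 := (V_one h5 hl hn (c := 1 / 2 - l) (γ := -(1 / 2)) (by
    have h : (2 * l + 1 : ℚ) = p := by exact_mod_cast hl
    linear_combination -h / 2) (r2 h5).neg).pow 2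
  rw [e] at r1
  exact r1.uniq dvd_rfl (((rbb h5).pow l).mul (S_red h5 (q := 1) (by omega) hl3 (by omega)))

lemma T2_five (h5 : 5 < p) {l n : ℕ} (hl : 2 * l + 1 = 5 * p) (hn : 3 * n = 2 * l ∨ 3 * n + 1 = 2 * l)
    (hl3 : l % 3 ≠ 1) :
    (Phi p (-(5 * t3 p)) (-(5 * h2 p)) 0 + -(8 * (9 : ZMod (p ^ (2:ℕ)))⁻¹) * (27 ^ (p - 1))⁻¹ * xi p ^ p *
      Phi p (-(2 * t3 p)) (-(5 * h2 p) + 1) 1) ^ 2 = bb p ^ l * SS p (-(((5 : ℕ) : ZMod (p ^ (2:ℕ))) * w6 p)) := by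
  have e := T2_eval l n hn
  have h : (2 * l + 1 : ℚ) = 5 * p := by exact_mod_cast hl
  have rg : Red p (p ^ (2:ℕ)) (-(5 * (1 / 2))) (-(5 * h2 p)) := by
    have := ((Red.nat (p := p) (M := p ^ (2:ℕ)) 5).mul (r2 h5)).neg
    exact_mod_cast this
  have rK := K1_red (p := p) (by omega)
  rw [show (1 - 5 * (p : ℚ) / 2) = 1 / 2 - l by linear_combination h / 2] at rK
  have r1 := (V_five h5 hl hn (c := 1 / 2 - l) (γ := -(5 * (1 / 2))) (by linear_combination -h / 2) rg rK).pow 2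
  rw [e] at r1
  exact r1.uniq dvd_rfl (((rbb h5).pow l).mul (S_red h5 (q := 5) (by omega) hl3 (by omega)))

lemma T1_one (h5 : 5 < p) {l n : ℕ} (hl : 2 * l + 1 = p) (hn : 3 * n = 2 * l ∨ 3 * n + 1 = 2 * l)
    (hl3 : l % 3 = 2) :
    Phi p (-(1 * t3 p)) (-w6 p) 0 = 0 := by
  have e := T1_eval l n hn hl3
  have r1 := (V_one h5 hl hn (c := (5 - 2 * l) / 6) (γ := -(1 / 6)) (by
    have h : (2 * l + 1 : ℚ) = p := by exact_mod_cast hl
    linear_combination -h / 6) (r6 h5).neg)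
  rw [e] at r1
  exact r1.uniq dvd_rfl (Red.zero (p := p) (M := p ^ (2:ℕ)))

lemma T1_five (h5 : 5 < p) {l n : ℕ} (hl : 2 * l + 1 = 5 * p) (hn : 3 * n = 2 * l ∨ 3 * n + 1 = 2 * l)
    (hl3 : l % 3 = 2) :
    Phi p (-(5 * t3 p)) (-(5 * w6 p)) 0 + 8 * (27 ^ (p - 1))⁻¹ * xi p ^ p *
      Phi p (-(2 * t3 p)) (-(5 * w6 p) + 1) 1 = 0 := by
  have e := T1_eval l n hn hl3
  have h : (2 * l + 1 : ℚ) = 5 * p := by exact_mod_cast hl
  have rg : Red p (p ^ (2:ℕ)) (-(5 * (1 / 6))) (-(5 * w6 p)) := by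
    have := ((Red.nat (p := p) (M := p ^ (2:ℕ)) 5).mul (r6 h5)).neg
    exact_mod_cast this
  have rK := K2_red (p := p) (by omega)
  rw [show (1 - 5 * (p : ℚ) / 6) = (5 - 2 * l) / 6 by linear_combination h / 6] at rK
  have r1 := (V_five h5 hl hn (c := (5 - 2 * l) / 6) (γ := -(5 * (1 / 6))) (by linear_combination -h / 6) rg rK)
  rw [e] at r1
  exact r1.uniq dvd_rfl (Red.zero (p := p) (M := p ^ (2:ℕ)))

/-- closed form `X1` -/
lemma X1_red (h5 : 5 < p) {n : ℕ} (hn : 6 * n + 1 = p) :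
    Red p (p ^ (2:ℕ)) ((27 / 16) ^ n * poch (1 / 3) n / poch (1 / 6) n) (Phi p (-(1 * t3 p)) (-w6 p) 0) := by
  have h : (6 * n + 1 : ℚ) = p := by exact_mod_cast hn
  rw [← X1 n]
  have e : ∑ k ∈ range (2 * n + 1), poch (-(2 * n : ℚ)) k * poch (1 / 3 - 2 * n : ℚ) k /
    (poch (5 / 6 - n : ℚ) k * (k.factorial : ℚ)) * (-1 / 8) ^ k = ∑ k ∈ range p, poch (-(2 * n : ℚ)) k * poch (1 / 3 - 2 * n : ℚ) k /
    (poch (5 / 6 - n : ℚ) k * (k.factorial : ℚ)) * (-1 / 8) ^ k := by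
    symm
    apply sum_ext
    · intro k hk; rw [poch_vanish (N := 2 * n) (by push_cast; ring) hk]; simp
    · omega
  rw [e]
  unfold Phi
  apply Red.sum
  intro k hk
  have := red_ph h5 (mem_range.mp hk) (δ := -(1 / 3)) (δ' := -(1 * t3 p)) (by rw [one_mul]; exact (r3 h5).neg)
    (r6 h5).neg (Red.zero (p := p) (M := p ^ (2:ℕ)))
  convert this using 2
  rw [mul_zero, add_zero, poch_one_fac]
  rw [show (-(2 * n : ℚ)) = 1 / 3 + p * (-(1 / 3)) by linear_combination -h / 3,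
    show (1 / 3 - 2 * n : ℚ) = 2 / 3 + p * (-(1 / 3)) by linear_combination -h / 3,
    show (5 / 6 - n : ℚ) = 1 + p * (-(1 / 6)) by linear_combination -h / 6]

/-- closed form `X2` -/
lemma X2_red (h5 : 5 < p) {n : ℕ} (hn : 6 * n + 1 = p) :
    Red p (p ^ (2:ℕ)) ((27 / 16) ^ (2 * n) * poch (1 / 2) (2 * n) / poch (1 / 3) (2 * n))
      (Phi p (-(2 * t3 p)) (-t3 p) 0) := by
  have h : (6 * n + 1 : ℚ) = p := by exact_mod_cast hn
  rw [← X2 (2 * n)]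
  have e : ∑ k ∈ range (2 * (2 * n) + 1), poch (-(2 * (2 * n : ℕ) : ℚ)) k * poch (-1 / 3 - 2 * (2 * n : ℕ) : ℚ) k /
    (poch (2 / 3 - (2 * n : ℕ) : ℚ) k * (k.factorial : ℚ)) * (-1 / 8) ^ k =
    ∑ k ∈ range p, poch (-(2 * (2 * n : ℕ) : ℚ)) k * poch (-1 / 3 - 2 * (2 * n : ℕ) : ℚ) k /
    (poch (2 / 3 - (2 * n : ℕ) : ℚ) k * (k.factorial : ℚ)) * (-1 / 8) ^ k := by
    symm
    apply sum_ext
    · intro k hk; rw [poch_vanish (N := 2 * (2 * n)) (by push_cast; ring) hk]; simp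
    · omega
  rw [e]
  unfold Phi
  apply Red.sum
  intro k hk
  have h1 : Red p (p ^ (2:ℕ)) (-(2 / 3)) (-(2 * t3 p)) := by
    have := ((Red.nat (p := p) (M := p ^ (2:ℕ)) 2).mul (r3 h5)).neg
    convert this using 1
    · norm_num
    · push_cast; rfl
  have := red_ph h5 (mem_range.mp hk) h1 (r3 h5).neg (Red.zero (p := p) (M := p ^ (2:ℕ)))
  convert this using 2
  rw [mul_zero, add_zero, poch_one_fac]
  push_cast
  rw [show (-(2 * (2 * n) : ℚ)) = 2 / 3 + p * (-(2 / 3)) by linear_combination -2 * h / 3,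
    show (-1 / 3 - 2 * (2 * n) : ℚ) = 1 / 3 + p * (-(2 / 3)) by linear_combination -2 * h / 3,
    show (2 / 3 - (2 * n) : ℚ) = 1 + p * (-(1 / 3)) by linear_combination -h / 3]
  ring

/-- the algebra of the split case -/
lemma alg_split {R : Type*} [CommRing R] {P F D C t w h a9 b g S0 S1 S5 e q χ V1 V2 V3 : R}
    (hP : P * P = 0) (ht : 3 * t = 1) (hh : 2 * h = 1) (h9 : 9 * a9 = 1) (hb : 9 * b = 10)
    (hV1 : V1 = F + P * (-t * D + -h * C))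
    (hV2 : V2 = F + P * (-(5 * t) * D + -(5 * h) * C) + a9 * (1 - P * q) * (F + P * (-(2 * t) * D + (-(5 * h) + 1 + 1) * C)))
    (hV3 : V3 = F + P * (-(5 * t) * D + -(5 * w) * C) - (1 - P * q) * (F + P * (-(2 * t) * D + (-(5 * w) + 1 + 1) * C)))
    (h1 : V1 ^ 2 = g * S1) (h2 : V2 ^ 2 = g ^ 5 * b ^ 2 * S5) (h3 : V3 = 0)
    (hS : 4 * S0 = 5 * S1 - S5) (hg : g = χ * (1 + h * P * e)) (hχ : χ ^ 2 = 1) :
    400 * S0 = 400 * (χ * F ^ 2) := by
  have hA : P * (D + 2 * C) = P * F * q := by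
    rw [hV3] at h3
    linear_combination -h3 - P * D * ht + q * (-(2 * t) * D + (-(5 * w) + 1 + 1) * C) * hP
  have hB : V1 ^ 2 = F ^ 2 - 2 * F * (P * (t * D + h * C)) := by
    rw [hV1]
    linear_combination (-t * D + -h * C) ^ 2 * hP
  have h9V : 9 * V2 = F * (10 - P * q) - P * (47 * (t * D) + 46 * (h * C)) := by
    rw [hV2]
    linear_combination (F * (1 - P * q) + (1 - P * q) * (P * (-(2 * t) * D + (-(5 * h) + 1 + 1) * C))) * h9
      - q * (-(2 * t) * D + (-(5 * h) + 1 + 1) * C) * hP - 2 * P * C * hh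
  have hC : 81 * V2 ^ 2 = 100 * F ^ 2 - 20 * P * q * F ^ 2 - 20 * F * (P * (47 * (t * D) + 46 * (h * C))) := by
    have : 81 * V2 ^ 2 = (9 * V2) ^ 2 := by ring
    rw [this, h9V]
    linear_combination (F ^ 2 * q ^ 2 + 2 * F * q * (47 * (t * D) + 46 * (h * C)) + (47 * (t * D) + 46 * (h * C)) ^ 2) * hP
  have hg2 : g ^ 2 = 1 + P * e := by
    rw [hg]
    linear_combination (1 + h * P * e) ^ 2 * hχ + h ^ 2 * e ^ 2 * hP + P * e * hh
  have hg4 : g ^ 4 = 1 + 2 * P * e := by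
    have : g ^ 4 = (g ^ 2) ^ 2 := by ring
    rw [this, hg2]
    linear_combination e ^ 2 * hP
  have hg5 : g ^ 5 = χ * (1 + 5 * h * P * e) := by
    have : g ^ 5 = g * g ^ 4 := by ring
    rw [this, hg4, hg]
    linear_combination 2 * h * e ^ 2 * χ * hP - 2 * χ * P * e * hh
  have hb2 : 81 * b ^ 2 = 100 := by
    have : 81 * b ^ 2 = (9 * b) ^ 2 := by ring
    rw [this, hb]; norm_num
  have hmain : 400 * (g ^ 5 * S0) = 400 * F ^ 2 + 1000 * P * e * F ^ 2 := by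
    have e1 : 500 * (g ^ 4 * V1 ^ 2) - 81 * V2 ^ 2 = 400 * (g ^ 5 * S0) := by
      linear_combination 500 * g ^ 4 * h1 - 81 * h2 - g ^ 5 * S5 * hb2 - 100 * g ^ 5 * hS
    rw [← e1, hC, hB, hg4]
    linear_combination (-2000 * F * e * (t * D + h * C)) * hP - 20 * F * hA - 20 * F * P * D * ht - 40 * F * P * C * hh
  rw [hg5] at hmain
  linear_combination χ * (1 - 5 * h * P * e) * hmain + (400 * S0 * (25 * h ^ 2 * e ^ 2 * P * P - 1)) * hχ
    + (400 * S0 * 25 * h ^ 2 * e ^ 2 - 5000 * χ * h * e ^ 2 * F ^ 2) * hP - 1000 * χ * P * e * F ^ 2 * hh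

/-- the algebra of the inert case -/
lemma alg_inert {R : Type*} [CommRing R] {P F D C t w h a9 g5 τ g S0 S1 S5 V0 V1 V2 : R}
    (hP : P * P = 0)
    (hV0 : V0 = F + P * (-t * D + -w * C))
    (hV1 : V1 = F + P * (-t * D + -h * C))
    (hV2 : V2 = F + P * (-(5 * t) * D + -(5 * h) * C) + a9 * τ * (F + P * (-(2 * t) * D + (-(5 * h) + 1 + 1) * C)))
    (h0 : V0 = 0) (h1 : V1 ^ 2 = g * S1) (h2 : V2 ^ 2 = g5 * S5) (hg : IsUnit g) (hg5 : IsUnit g5)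
    (hS : 4 * S0 = 5 * S1 - S5) : 4 * S0 = 0 := by
  have hF : F = P * (t * D + w * C) := by
    rw [hV0] at h0
    linear_combination h0
  have e1 : S1 = 0 := by
    apply hg.mul_left_cancel
    rw [mul_zero, ← h1, hV1, hF]
    linear_combination ((t * D + w * C) + (-t * D + -h * C)) ^ 2 * hP
  have e5 : S5 = 0 := by
    apply hg5.mul_left_cancel
    rw [mul_zero, ← h2, hV2, hF]
    linear_combination ((t * D + w * C) + (-(5 * t) * D + -(5 * h) * C) + a9 * τ * ((t * D + w * C) + (-(2 * t) * D + (-(5 * h) + 1 + 1) * C))) ^ 2 * hP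
  rw [hS, e1, e5]; ring

end

end SCD27A
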