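import Pool.Agent.SC24.JW

/-!
The square of the binomial coefficient `C(2m,m)`, `p = 3m+1`, modulo `p^2` (Jacobi sums of order 3).
-/

set_option linter.unusedSectionVars false

namespace SCD27

open Finset SC24 SC24.Alg

section
variable {p : ℕ} [hp : Fact p.Prime]

/-- `p H_{2m} = p H_m` -/
lemma P_harm {m : ℕ} (hm : 3 * m + 1 = p) :
    (p : ZMod (p ^ 2)) * (harm (p ^ 2) (m + m) - harm (p ^ 2) m) = 0 := by
  have hp2 := hp.out.two_le
  have hm0 : 0 < m := by omega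
  have hodd : p % 2 = 1 := by
    rcases hp.out.eq_two_or_odd with h | h
    · omega
    · exact h
  have h1 : harm (p ^ 2) (m + m) - harm (p ^ 2) m =
      ∑ j ∈ range m, ((m + j + 1 : ℕ) : ZMod (p ^ 2))⁻¹ := by
    unfold harm
    rw [sum_range_add, add_sub_cancel_left]
  have h2 : ∑ j ∈ range m, ((m + j + 1 : ℕ) : ZMod (p ^ 2))⁻¹ =
      ∑ j ∈ range m, ((m + (m - 1 - j) + 1 : ℕ) : ZMod (p ^ 2))⁻¹ := by
    rw [Finset.sum_range_reflect (fun j => ((m + j + 1 : ℕ) : ZMod (p ^ 2))⁻¹) m]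
  have h3 : (p : ZMod (p ^ 2)) * (∑ j ∈ range m, ((m + j + 1 : ℕ) : ZMod (p ^ 2))⁻¹ +
      ∑ j ∈ range m, ((m + (m - 1 - j) + 1 : ℕ) : ZMod (p ^ 2))⁻¹) = 0 := by
    rw [← sum_add_distrib, mul_sum]
    refine Finset.sum_eq_zero fun j hj => ?_
    rw [mem_range] at hj
    have hx := unit_sq (p := p) (i := m + j + 1) (by omega) (by omega)
    have hy := unit_sq (p := p) (i := m + (m - 1 - j) + 1) (by omega) (by omega)
    have hxy : ((m + j + 1 : ℕ) : ZMod (p ^ 2)) + ((m + (m - 1 - j) + 1 : ℕ) : ZMod (p ^ 2)) =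
        (p : ZMod (p ^ 2)) := by
      rw [← Nat.cast_add]
      congr 1
      omega
    have hPP := p_sq_zero (p := p)
    set x := ((m + j + 1 : ℕ) : ZMod (p ^ 2))
    set y := ((m + (m - 1 - j) + 1 : ℕ) : ZMod (p ^ 2))
    calc (p : ZMod (p ^ 2)) * (x⁻¹ + y⁻¹)
        = (p : ZMod (p ^ 2)) * (x⁻¹ * (y * y⁻¹) + y⁻¹ * (x * x⁻¹)) := by rw [hx, hy]; ring
      _ = (p : ZMod (p ^ 2)) * ((x + y) * (x⁻¹ * y⁻¹)) := by ring
      _ = ((p : ZMod (p ^ 2)) * (p : ZMod (p ^ 2))) * (x⁻¹ * y⁻¹) := by rw [hxy]; ring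
      _ = 0 := by rw [hPP, zero_mul]
  rw [← h2, ← h1] at h3
  have h2u := unit_sq (p := p) (i := 2) (by norm_num) (by omega)
  have h4 : (p : ZMod (p ^ 2)) * (harm (p ^ 2) (m + m) - harm (p ^ 2) m) =
      (((2 : ℕ) : ZMod (p ^ 2)) * ((2 : ℕ) : ZMod (p ^ 2))⁻¹) *
        ((p : ZMod (p ^ 2)) * (harm (p ^ 2) (m + m) - harm (p ^ 2) m)) := by
    rw [h2u, one_mul]
  rw [h4]
  push_cast
  linear_combination ((2 : ZMod (p ^ 2))⁻¹) * h3

/-- the character of order three -/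
lemma cube_root {m : ℕ} (hm : 3 * m + 1 = p) {g : (ZMod p)ˣ}
    (hg : ∀ x, x ∈ Subgroup.zpowers g) :
    ((teich p (ZMod p) ^ (2 * m)) g) ^ 3 = 1 ∧ (teich p (ZMod p) ^ (2 * m)) g ≠ 1 := by
  have hp2 := hp.out.two_le
  have hm0 : 0 < m := by omega
  have hord : orderOf g = 3 * m := by
    rw [orderOf_eq_card_of_forall_mem_zpowers hg, Nat.card_eq_fintype_card, ZMod.card_units]
    omega
  rw [MulChar.pow_apply_coe]
  constructor
  · rw [← pow_mul, ← map_pow]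
    have h1 : (g : ZMod p) ^ (2 * m * 3) = 1 := by
      rw [← Units.val_pow_eq_pow_val, show 2 * m * 3 = orderOf g * 2 by rw [hord]; ring, pow_mul,
        pow_orderOf_eq_one, one_pow, Units.val_one]
    rw [h1, map_one]
  · intro h
    rw [← map_pow] at h
    have h1 : (g : ZMod p) ^ (2 * m) = 1 := by
      apply teich_inj (p := p)
      rw [h, map_one]
    have h2 : g ^ (2 * m) = 1 := by
      apply Units.ext
      rw [Units.val_pow_eq_pow_val, h1, Units.val_one]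
    have h3 := orderOf_dvd_of_pow_eq_one h2
    rw [hord] at h3
    have h4 := Nat.le_of_dvd (by omega) h3
    omega

/-- powers of a cube root of unity -/
lemma pow_three_cases {W : Type*} [CommRing W] {t : W} (h : t ^ 2 + t + 1 = 0) (a : ℕ) :
    (a % 3 = 0 ∧ t ^ a = 1) ∨ (a % 3 = 1 ∧ t ^ a = t) ∨ (a % 3 = 2 ∧ t ^ a = -1 - t) := by
  have h3 : t ^ 3 = 1 := by linear_combination (t - 1) * h
  have h1 : t ^ a = t ^ (a % 3) := by
    conv_lhs => rw [← Nat.div_add_mod a 3]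
    rw [pow_add, pow_mul, h3, one_pow, one_mul]
  rw [h1]
  have h4 : a % 3 < 3 := Nat.mod_lt _ (by norm_num)
  interval_cases a % 3
  · exact Or.inl ⟨rfl, by simp⟩
  · exact Or.inr (Or.inl ⟨rfl, by simp⟩)
  · exact Or.inr (Or.inr ⟨rfl, by linear_combination h⟩)

/-- sums of powers of a cube root of unity -/
lemma sum_cube {ι : Type*} (S : Finset ι) (i : ι → ℕ) {W : Type*} [CommRing W] {t : W}
    (h : t ^ 2 + t + 1 = 0) : ∃ a b : ℤ, (∑ s ∈ S, t ^ i s = a + b * t) ∧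
      (∑ s ∈ S, (t ^ 2) ^ i s = a + b * (-1 - t)) := by
  classical
  induction S using Finset.induction_on with
  | empty => exact ⟨0, 0, by simp, by simp⟩
  | insert s S hs ih =>
    obtain ⟨a, b, h1, h2⟩ := ih
    rw [sum_insert hs, sum_insert hs, h1, h2]
    have e : (t ^ 2) ^ i s = (t ^ i s) ^ 2 := by rw [← pow_mul, ← pow_mul, mul_comm]
    rw [e]
    rcases pow_three_cases h (i s) with ⟨_, h3⟩ | ⟨_, h3⟩ | ⟨_, h3⟩
    · refine ⟨a + 1, b, ?_, ?_⟩
      · rw [h3]; push_cast; ring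
      · rw [h3]; push_cast; ring
    · refine ⟨a, b + 1, ?_, ?_⟩
      · rw [h3]; push_cast; ring
      · rw [h3]; push_cast; linear_combination h
    · refine ⟨a - 1, b - 1, ?_, ?_⟩
      · rw [h3]; push_cast; ring
      · rw [h3]; push_cast; linear_combination h

/-- elements of `ℤ[t]` -/
lemma adjoin_form {W : Type*} [CommRing W] {t : W} (h : t ^ 2 + t + 1 = 0) {z : W}
    (hz : z ∈ Algebra.adjoin ℤ {t}) : ∃ c d : ℤ, z = c + d * t := by
  refine Algebra.adjoin_induction (p := fun z _ => ∃ c d : ℤ, z = c + d * t) ?_ ?_ ?_ ?_ hz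
  · intro x hx
    rw [Set.mem_singleton_iff] at hx
    exact ⟨0, 1, by rw [hx]; push_cast; ring⟩
  · intro r
    exact ⟨r, 0, by simp⟩
  · rintro x y _ _ ⟨c, d, rfl⟩ ⟨c', d', rfl⟩
    exact ⟨c + c', d + d', by push_cast; ring⟩
  · rintro x y _ _ ⟨c, d, rfl⟩ ⟨c', d', rfl⟩
    refine ⟨c * c' - d * d', c * d' + d * c' - d * d', ?_⟩
    push_cast
    linear_combination (d : W) * d' * h

/-- `1, t` are independent over the integers -/
lemma indep {W : Type*} [CommRing W] [CharZero W] {t : W}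
    (h : t ^ 2 + t + 1 = 0) {a b : ℤ} (hab : (a : W) + b * t = 0) : a = 0 ∧ b = 0 := by
  have h1 : ((a ^ 2 - a * b + b ^ 2 : ℤ) : W) = 0 := by
    push_cast
    linear_combination ((a : W) + b * (-1 - t)) * hab + (b : W) ^ 2 * h
  have h2 : a ^ 2 - a * b + b ^ 2 = 0 := by exact_mod_cast h1
  have h3 : b = 0 := by
    by_contra hb
    have : 0 < b ^ 2 := by positivity
    nlinarith [sq_nonneg (2 * a - b)]
  subst h3
  refine ⟨?_, rfl⟩
  have h4 : a ^ 2 = 0 := by linarith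
  exact pow_eq_zero_iff (two_ne_zero) |>.1 h4

/-- the norm form and the quadratic equation of a Jacobi sum of order three -/
lemma jac_alg {W : Type*} [CommRing W] [CharZero W] {t J J' z : W} {P a b : ℤ}
    (hphi : t ^ 2 + t + 1 = 0) (hJ : J = a + b * t) (hJ' : J' = a + b * (-1 - t))
    (hmul : J * J' = (P : W)) (hz1 : z ∈ Algebra.adjoin ℤ {t})
    (hz2 : J = -1 + z * (t - 1) ^ 2) :
    ∃ L₀ M₀ : ℤ, 4 * P = L₀ ^ 2 + 27 * M₀ ^ 2 ∧ J ^ 2 - (L₀ : W) * J + (P : W) = 0 := by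
  obtain ⟨c', d', rfl⟩ := adjoin_form hphi hz1
  have h4 := indep hphi (a := a - (3 * d' - 1)) (b := b - (3 * d' - 3 * c')) (by
    push_cast
    rw [hJ] at hz2
    linear_combination hz2 + ((c' : W) + d' * t - 3 * d') * hphi)
  refine ⟨2 * a - b, d' - c', ?_, ?_⟩
  · have h5 : (P : W) = ((a ^ 2 - a * b + b ^ 2 : ℤ) : W) := by
      rw [← hmul, hJ, hJ']
      push_cast
      linear_combination (-(b : W) ^ 2) * hphi
    have h6 : P = a ^ 2 - a * b + b ^ 2 := Int.cast_injective h5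
    have h7 : b = 3 * (d' - c') := by linarith [h4.2]
    rw [h6]
    linear_combination (3 * b + 9 * (d' - c')) * h7
  · have h5 : J' = ((2 * a - b : ℤ) : W) - J := by
      rw [hJ, hJ']; push_cast; ring
    rw [h5] at hmul
    linear_combination -hmul

lemma jac_dvd {W : Type*} [CommRing W] {J y : W} {P L₀ c₀ : ℤ}
    (hquad : J ^ 2 - (L₀ : W) * J + (P : W) = 0) (hy : J - (c₀ : W) = (P : W) ^ 2 * y) :
    (P : W) ^ 2 ∣ ((c₀ ^ 4 + (2 * P - L₀ ^ 2) * c₀ ^ 2 : ℤ) : W) := by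
  refine ⟨-1 - y * ((J ^ 3 + J ^ 2 * c₀ + J * c₀ ^ 2 + c₀ ^ 3) + (2 * P - L₀ ^ 2) * (J + c₀)), ?_⟩
  push_cast
  linear_combination (J ^ 2 + (L₀ : W) * J + (P : W)) * hquad -
    ((J ^ 3 + J ^ 2 * c₀ + J * c₀ ^ 2 + c₀ ^ 3) + (2 * P - L₀ ^ 2) * (J + c₀)) * hy

/-- uniqueness of the representation `4 p = L^2 + 27 M^2` -/
lemma rep_unique {L M L' M' : ℤ} (h : 4 * (p : ℤ) = L ^ 2 + 27 * M ^ 2)
    (h' : 4 * (p : ℤ) = L' ^ 2 + 27 * M' ^ 2) (h3 : 3 < p) : L ^ 2 = L' ^ 2 := by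
  have hpp : Prime (p : ℤ) := Nat.prime_iff_prime_int.1 hp.out
  have hp0 : (0:ℤ) < p := by exact_mod_cast hp.out.pos
  -- the case of divisibility
  have main : ∀ N : ℤ, N ^ 2 = M' ^ 2 → (p : ℤ) ∣ L * N - L' * M → L ^ 2 = L' ^ 2 := by
    intro N hN hd
    obtain ⟨c, hc⟩ := hd
    have h1 : 16 * (p : ℤ) ^ 2 = (L * L' + 27 * M * N) ^ 2 + 27 * (L * N - L' * M) ^ 2 := by
      have : 16 * (p : ℤ) ^ 2 = (4 * (p : ℤ)) * (4 * (p : ℤ)) := by ring
      rw [this]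
      nth_rewrite 1 [h]
      rw [h', ← hN]
      ring
    have h2 : c = 0 := by
      by_contra hc0
      have h3 : 0 < c ^ 2 := by positivity
      rw [hc] at h1
      have h4 : 27 * (p : ℤ) ^ 2 * c ^ 2 ≤ 16 * (p : ℤ) ^ 2 := by
        nlinarith [sq_nonneg (L * L' + 27 * M * N)]
      have h5 : (p : ℤ) ^ 2 * 1 ≤ (p : ℤ) ^ 2 * c ^ 2 :=
        mul_le_mul_of_nonneg_left (by linarith) (by positivity)
      have h6 : 0 < (p : ℤ) ^ 2 := by positivity
      nlinarith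
    rw [h2, mul_zero] at hc
    have h3 : L * N = L' * M := by linarith
    have h4 : L ^ 2 * N ^ 2 = L' ^ 2 * M ^ 2 := by
      rw [← mul_pow, ← mul_pow, h3]
    have h5 : 4 * (p : ℤ) * (N ^ 2 - M ^ 2) = 0 := by
      rw [← hN] at h'
      linear_combination h4 + (N ^ 2) * h - M ^ 2 * h'
    have h6 : N ^ 2 = M ^ 2 := by
      have : (4 * (p : ℤ)) ≠ 0 := by positivity
      have := (mul_eq_zero.1 h5).resolve_left this
      linarith
    rw [← hN, h6] at h'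
    linarith
  have h1 : (p : ℤ) ∣ (L * M' - L' * M) * (L * M' + L' * M) :=
    ⟨4 * (M' ^ 2 - M ^ 2), by linear_combination (-M' ^ 2) * h + M ^ 2 * h'⟩
  rcases hpp.dvd_or_dvd h1 with h2 | h2
  · exact main M' rfl h2
  · refine main (-M') (by ring) ?_
    have e : L * -M' - L' * M = -(L * M' + L' * M) := by ring
    rw [e]
    exact (dvd_neg).2 h2

theorem choose_sq {m : ℕ} (hm : 3 * m + 1 = p) {L M : ℤ}
    (h : 4 * (p : ℤ) = L ^ 2 + 27 * M ^ 2) :
    (((2 * m).choose m : ℕ) : ZMod (p ^ 2)) ^ 2 =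
      (L : ZMod (p ^ 2)) ^ 2 - 2 * (p : ZMod (p ^ 2)) := by
  classical
  have hp2 := hp.out.two_le
  have hm0 : 0 < m := by omega
  have hodd : p % 2 = 1 := by
    rcases hp.out.eq_two_or_odd with h | h
    · omega
    · exact h
  have h3 : 3 < p := by omega
  have hk : Fintype.card (ZMod p) = p := ZMod.card p
  have hPP := p_sq_zero (p := p)
  set C := (((m + m).choose m : ℕ) : ZMod (p ^ (2:ℕ))) with hC
  have hCu : IsUnit C := isUnit_choose (by omega)
  have hsgn : (-1 : ZMod (p ^ (2:ℕ))) ^ m = 1 := by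
    apply Even.neg_one_pow
    rw [Nat.even_iff]; omega
  -- the Jacobi sum
  set c : ZMod (p ^ (2:ℕ)) := - C with hc
  have hcu : IsUnit c := hCu.neg
  have hharm := P_harm (p := p) hm
  have j1 := jac1 p h3 hk m m (by omega) hm0 ((c.val : ℕ) : ℤ) (by
    rw [val_cast, hc, hsgn]
    have e : (p : ZMod (p ^ 2)) * (((m + m : ℕ) : ZMod (p ^ 2)) *
        (harm (p ^ 2) (m + m) - harm (p ^ 2) m) - (m : ZMod (p ^ 2)) *
          (harm (p ^ 2) m - harm (p ^ 2) m)) = 0 := by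
      linear_combination ((m + m : ℕ) : ZMod (p ^ 2)) * hharm
    rw [e]
    ring)
  obtain ⟨g, hg⟩ := IsCyclic.exists_generator (α := (ZMod p)ˣ)
  set W := WittVector p (ZMod p) with hW
  have hz : CharZero W := charZero_witt
  set χ : MulChar (ZMod p) W := teich p (ZMod p) ^ (2 * m) with hχ
  obtain ⟨ht3, ht1⟩ := cube_root hm hg
  rw [← hχ] at ht3 ht1
  set t : W := χ g with ht
  have hphi : t ^ 2 + t + 1 = 0 := by
    have h4 : (t - 1) * (t ^ 2 + t + 1) = 0 := by linear_combination ht3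
    rcases mul_eq_zero.1 h4 with h5 | h5
    · exact absurd (sub_eq_zero.1 h5) ht1
    · exact h5
  have hχ3 : χ ^ 3 = 1 := by
    rw [hχ, ← pow_mul]
    have : teich p (ZMod p) ^ (2 * m * 3) = (teich p (ZMod p) ^ (Fintype.card (ZMod p)ˣ)) ^ 2 := by
      rw [← pow_mul, ZMod.card_units]
      congr 1; omega
    rw [this, MulChar.pow_card_eq_one, one_pow]
  have hχ1 : χ ≠ 1 := by
    intro h4
    apply ht1
    rw [ht, h4]
    exact MulChar.one_apply_coe g
  have hχinv : χ⁻¹ = χ ^ 2 := by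
    rw [inv_eq_iff_mul_eq_one, ← pow_succ', hχ3]
  have hχ2 : χ * χ ≠ 1 := by
    intro h4
    apply hχ1
    have : χ ^ 3 = χ * (χ * χ) := pow_three χ
    rw [h4, mul_one] at this
    rw [← this, hχ3]
  set J : W := jacobiSum χ χ with hJ
  set J' : W := jacobiSum χ⁻¹ χ⁻¹ with hJ'
  have hmul : J * J' = (p : W) := by
    have := jac_mul_inv χ χ hχ1 hχ1 hχ2
    rw [hk] at this
    exact this
  obtain ⟨l, hl⟩ := exists_log hg
  obtain ⟨a, b, ha, hb⟩ := sum_cube (univ \ {0, 1} : Finset (ZMod p))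
    (fun z => 1 * l z + 1 * l (1 - z)) hphi
  have hJab : J = a + b * t := by
    have e := jac_index l hl χ 1 1
    rw [pow_one] at e
    rw [hJ, e, ← ha]
  have hJab' : J' = a + b * (-1 - t) := by
    have e := jac_index l hl χ 2 2
    rw [hJ', hχinv, e, ← hb]
    refine Finset.sum_congr rfl fun z _ => ?_
    rw [← ht, ← pow_mul]
    congr 1; ring
  have hprim : IsPrimitiveRoot t 3 := by
    rw [IsPrimitiveRoot.iff_def]
    refine ⟨ht3, fun r hr => ?_⟩
    rcases pow_three_cases hphi r with ⟨h4, _⟩ | ⟨_, h5⟩ | ⟨_, h5⟩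
    · exact Nat.dvd_of_mod_eq_zero h4
    · exact absurd (h5.symm.trans hr) ht1
    · exfalso
      apply ht1
      have h6 : t ^ 2 = 1 := by
        rw [h5] at hr
        linear_combination hphi + hr
      have : t ^ 3 = t * t ^ 2 := by ring
      rw [h6, mul_one] at this
      rw [← this, ht3]
  obtain ⟨z, hz1, hz2⟩ := exists_jacobiSum_eq_neg_one_add (n := 3) (by norm_num) hχ3 hχ3
    (by rw [hk]; exact ⟨m, by omega⟩) hprim
  obtain ⟨L₀, M₀, h4p, hquad⟩ := jac_alg (P := (p : ℤ)) hphi hJab hJab'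
    (by rw [Int.cast_natCast]; exact hmul) hz1 hz2
  have hLL : L ^ 2 = L₀ ^ 2 := rep_unique h h4p h3
  have hsumJ : (∑ z : ZMod p, WittVector.teichmuller p z ^ (p - 1 - m) *
        WittVector.teichmuller p (1 - z) ^ (m + m)) = J := by
    rw [hJ, jacobiSum]
    refine Finset.sum_congr rfl fun z _ => ?_
    rw [hχ, MulChar.pow_apply' _ (by omega), MulChar.pow_apply' _ (by omega), teich_apply,
      teich_apply]
    congr 2
    · omega
    · ring
  rw [hsumJ] at j1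
  set c₀ : ℤ := ((c.val : ℕ) : ℤ) with hc₀
  have hc₀c : (c₀ : ZMod (p ^ (2:ℕ))) = c := val_cast c
  obtain ⟨y, hy⟩ := j1
  have hdvd : (p : W) ^ 2 ∣ ((c₀ ^ 4 + (2 * (p : ℤ) - L₀ ^ 2) * c₀ ^ 2 : ℤ) : W) := by
    have := jac_dvd (y := y) (c₀ := c₀) hquad (by rw [Int.cast_natCast]; exact hy)
    rw [Int.cast_natCast] at this
    exact this
  have hdvd2 := witt_dvd2 hdvd
  have hzm : (((c₀ ^ 4 + (2 * p - L₀ ^ 2) * c₀ ^ 2 : ℤ)) : ZMod (p ^ (2:ℕ))) = 0 := by
    rw [ZMod.intCast_zmod_eq_zero_iff_dvd]; exact_mod_cast hdvd2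
  push_cast at hzm
  rw [hc₀c] at hzm
  have hzm2 : c ^ 2 * (c ^ 2 + (2 * (p : ZMod (p ^ (2:ℕ))) - (L₀ : ZMod (p ^ (2:ℕ))) ^ 2)) = 0 := by
    linear_combination hzm
  have hzm3 := (hcu.pow 2).mul_right_eq_zero.1 hzm2
  have hLc : (L : ZMod (p ^ (2:ℕ))) ^ 2 = (L₀ : ZMod (p ^ (2:ℕ))) ^ 2 := by
    rw [← Int.cast_pow, ← Int.cast_pow, hLL]
  have hC2 : (((2 * m).choose m : ℕ) : ZMod (p ^ 2)) = C := by
    rw [hC, two_mul]
  rw [hC2]
  show C ^ 2 = (L : ZMod (p ^ (2:ℕ))) ^ 2 - 2 * (p : ZMod (p ^ (2:ℕ)))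
  rw [hLc]
  have : C ^ 2 = c ^ 2 := by rw [hc]; ring
  rw [this]
  linear_combination hzm3

end

end SCD27
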