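import Pool.Agent.SCD27.Asm3
import Pool.Agent.SCD27.JacC

/-!
MP_286faa_nt: the value of the truncated `3F2` modulo `p^2`.
-/

namespace SCD27A

open Finset SC24 SCD27

section
variable {p : ℕ} [hp : Fact p.Prime]

lemma odd_p (h5 : 5 < p) : Odd p := hp.out.odd_of_ne_two (by omega)

lemma xi_pow (h5 : 5 < p) : xi p ^ p = -((8 : ZMod (p ^ (2:ℕ)))⁻¹ * ((8 : ZMod (p ^ (2:ℕ)))⁻¹) ^ (p - 1)) := by
  unfold xi
  rw [(odd_p h5).neg_pow, ← pow_succ', Nat.sub_add_cancel hp.out.pos]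

lemma e8 (h5 : 5 < p) : (8 : ZMod (p ^ (2:ℕ))) * (8 : ZMod (p ^ (2:ℕ)))⁻¹ = 1 := ZMod.mul_inv_of_unit _ (u8 h5)
lemma e9 (h5 : 5 < p) : (9 : ZMod (p ^ (2:ℕ))) * (9 : ZMod (p ^ (2:ℕ)))⁻¹ = 1 := ZMod.mul_inv_of_unit _ (u9 h5)

lemma ne_of_unit {x : ZMod (p ^ (2:ℕ))} (h : IsUnit x) : red p x ≠ 0 := (isUnit_iff_red x).mp h

lemma u27 (h5 : 5 < p) : IsUnit (27 : ZMod (p ^ (2:ℕ))) := by
  have := isUnit_of_dvd_pow h5 (n := 27) (i := 0) (j := 3) (k := 0) (by norm_num); exact_mod_cast this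

/-- `(216^(p-1))⁻¹` is `1 - p q` -/
lemma tau_exp (h5 : 5 < p) : ∃ q, (27 ^ (p - 1))⁻¹ * ((8 : ZMod (p ^ (2:ℕ)))⁻¹) ^ (p - 1) = 1 - P2 p * q := by
  have h1 : (27 : ZMod (p ^ (2:ℕ))) ^ (p - 1) * (27 ^ (p - 1))⁻¹ = 1 := ZMod.mul_inv_of_unit _ ((u27 h5).pow _)
  have h2 : (8 : ZMod (p ^ (2:ℕ))) ^ (p - 1) * ((8 : ZMod (p ^ (2:ℕ)))⁻¹) ^ (p - 1) = 1 := by
    rw [← mul_pow, e8 h5, one_pow]
  generalize ((27 : ZMod (p ^ (2:ℕ))) ^ (p - 1))⁻¹ = x at *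
  generalize ((8 : ZMod (p ^ (2:ℕ)))⁻¹) ^ (p - 1) = y at *
  have h3 : red p (1 - x * y) = 0 := by
    have g1 := congrArg (red p) h1
    have g2 := congrArg (red p) h2
    rw [map_mul, map_pow, map_one, ZMod.pow_card_sub_one_eq_one (ne_of_unit (u27 h5)), one_mul] at g1
    rw [map_mul, map_pow, map_one, ZMod.pow_card_sub_one_eq_one (ne_of_unit (u8 h5)), one_mul] at g2
    rw [map_sub, map_mul, g1, g2, map_one]; ring
  obtain ⟨q, hq⟩ := exists_P_of_red h3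
  exact ⟨q, by rw [← hq]; ring⟩

lemma SS_affine : 4 * SS p 0 = 5 * SS p (-(((1 : ℕ) : ZMod (p ^ (2:ℕ))) * w6 p)) -
    SS p (-(((5 : ℕ) : ZMod (p ^ (2:ℕ))) * w6 p)) := by
  obtain ⟨E, hE⟩ := isAff_SS (p := p)
  rw [hE (-(((1 : ℕ) : ZMod (p ^ (2:ℕ))) * w6 p)), hE (-(((5 : ℕ) : ZMod (p ^ (2:ℕ))) * w6 p))]
  push_cast
  ring

lemma hbb (h5 : 5 < p) : 9 * bb p = 10 := by
  unfold bb
  linear_combination 10 * e9 h5

lemma ubb (h5 : 5 < p) : IsUnit (bb p) := by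
  have h : IsUnit (9 * bb p) := by rw [hbb h5]; exact u10 h5
  exact isUnit_of_mul_isUnit_right h

lemma ten_ne (h5 : 5 < p) : ((10 : ℤ) : ZMod p) ≠ 0 := by
  have := ne_of_unit (u10 h5)
  rw [map_ofNat] at this
  exact_mod_cast this

lemma leg_sq (h5 : 5 < p) : ((legendreSym p 10 : ℤ) : ZMod (p ^ (2:ℕ))) ^ 2 = 1 := by
  have := legendreSym.sq_one p (ten_ne h5)
  exact_mod_cast congrArg (Int.cast : ℤ → ZMod (p ^ (2:ℕ))) this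

lemma g_exp (h5 : 5 < p) {n : ℕ} (hn : 6 * n + 1 = p) : ∃ e, bb p ^ (3 * n) =
    ((legendreSym p 10 : ℤ) : ZMod (p ^ (2:ℕ))) * (1 + h2 p * P2 p * e) := by
  have h1 : red p (bb p ^ (3 * n) - ((legendreSym p 10 : ℤ) : ZMod (p ^ (2:ℕ)))) = 0 := by
    rw [map_sub, map_pow, map_intCast, legendreSym.eq_pow, show p / 2 = 3 * n by omega]
    have e1 := congrArg (red p) (hbb h5)
    rw [map_mul, map_ofNat, map_ofNat] at e1
    have e2 : (9 : ZMod p) ^ (3 * n) = 1 := by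
      rw [show (9 : ZMod p) = 3 ^ 2 by norm_num, ← pow_mul, show 2 * (3 * n) = p - 1 by omega]
      apply ZMod.pow_card_sub_one_eq_one
      have := ne_of_unit (u3 h5)
      rwa [map_ofNat] at this
    have e3 : (9 : ZMod p) ^ (3 * n) * (red p (bb p)) ^ (3 * n) = 10 ^ (3 * n) := by
      rw [← mul_pow, e1]
    rw [e2, one_mul] at e3
    rw [e3]; push_cast; ring
  obtain ⟨c, hc⟩ := exists_P_of_red h1
  refine ⟨2 * ((legendreSym p 10 : ℤ) : ZMod (p ^ (2:ℕ))) * c, ?_⟩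
  have h3 := leg_sq h5
  have h4 := e2 h5
  linear_combination hc - P2 p * c * h3 * 1 - P2 p * c * ((legendreSym p 10 : ℤ) : ZMod (p ^ (2:ℕ))) ^ 2 * h4

lemma V1_eq {D C : ZMod (p ^ (2:ℕ))} (hDC : ∀ δ γ η : ZMod (p ^ (2:ℕ)),
    Phi p δ γ η = Phi p 0 0 0 + P2 p * (δ * D + (γ + η) * C)) (s : ZMod (p ^ (2:ℕ))) :
    Phi p (-(1 * t3 p)) (-s) 0 = Phi p 0 0 0 + P2 p * (-t3 p * D + -s * C) := by
  rw [hDC]; ring

theorem SS_split (h5 : 5 < p) {n : ℕ} (hn : 6 * n + 1 = p) :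
    SS p 0 = ((legendreSym p 10 : ℤ) : ZMod (p ^ (2:ℕ))) * (Phi p 0 0 0) ^ 2 := by
  obtain ⟨D, C, hDC⟩ := Phi_exp p
  obtain ⟨q, hq⟩ := tau_exp h5
  obtain ⟨e, he⟩ := g_exp h5 hn
  have h1 := T2_one h5 (l := 3 * n) (n := 2 * n) (by omega) (by omega) (by omega)
  have h2 := T2_five h5 (l := 15 * n + 2) (n := 10 * n + 1) (by omega) (by omega) (by omega)
  have h3 := T1_five h5 (l := 15 * n + 2) (n := 10 * n + 1) (by omega) (by omega) (by omega)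
  rw [show 15 * n + 2 = 3 * n * 5 + 2 by ring, pow_add, pow_mul] at h2
  have h400 : IsUnit (400 : ZMod (p ^ (2:ℕ))) := by
    have := isUnit_of_dvd_pow h5 (n := 400) (i := 4) (j := 0) (k := 2) (by norm_num); exact_mod_cast this
  apply h400.mul_left_cancel
  refine alg_split (w := w6 p) (q := q) (P2_mul_self p) (e3 h5) (e2 h5) (e9 h5) (hbb h5) (V1_eq hDC (SCD27A.h2 p))
    ?_ ?_ h1 h2 h3 SS_affine he (leg_sq h5)
  · rw [xi_pow h5, hDC (-(5 * t3 p)), hDC (-(2 * t3 p))]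
    rw [← hq]
    linear_combination ((9 : ZMod (p ^ (2:ℕ)))⁻¹ * (27 ^ (p - 1))⁻¹ * ((8 : ZMod (p ^ (2:ℕ)))⁻¹) ^ (p - 1) *
      (Phi p 0 0 0 + P2 p * (-(2 * t3 p) * D + (-(5 * SCD27A.h2 p) + 1 + 1) * C))) * e8 h5
  · rw [xi_pow h5, hDC (-(5 * t3 p)), hDC (-(2 * t3 p))]
    rw [← hq]
    linear_combination (-((27 ^ (p - 1))⁻¹ * ((8 : ZMod (p ^ (2:ℕ)))⁻¹) ^ (p - 1) *
      (Phi p 0 0 0 + P2 p * (-(2 * t3 p) * D + (-(5 * w6 p) + 1 + 1) * C)))) * e8 h5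

theorem SS_inert (h5 : 5 < p) {n : ℕ} (hn : 6 * n + 5 = p) : SS p 0 = 0 := by
  obtain ⟨D, C, hDC⟩ := Phi_exp p
  have h0 := T1_one h5 (l := 3 * n + 2) (n := 2 * n + 1) (by omega) (by omega) (by omega)
  have h1 := T2_one h5 (l := 3 * n + 2) (n := 2 * n + 1) (by omega) (by omega) (by omega)
  have h2 := T2_five h5 (l := 15 * n + 12) (n := 10 * n + 8) (by omega) (by omega) (by omega)
  have h4 : IsUnit (4 : ZMod (p ^ (2:ℕ))) := by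
    have := isUnit_of_dvd_pow h5 (n := 4) (i := 2) (j := 0) (k := 0) (by norm_num); exact_mod_cast this
  apply h4.mul_left_cancel
  rw [mul_zero]
  refine alg_inert (τ := (27 ^ (p - 1))⁻¹ * ((8 : ZMod (p ^ (2:ℕ)))⁻¹) ^ (p - 1)) (a9 := (9 : ZMod (p ^ (2:ℕ)))⁻¹)
    (P2_mul_self p) (V1_eq hDC (w6 p)) (V1_eq hDC (SCD27A.h2 p)) ?_ h0 h1 h2
    ((ubb h5).pow _) ((ubb h5).pow _) SS_affine
  rw [xi_pow h5, hDC (-(5 * t3 p)), hDC (-(2 * t3 p))]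
  linear_combination ((9 : ZMod (p ^ (2:ℕ)))⁻¹ * (27 ^ (p - 1))⁻¹ * ((8 : ZMod (p ^ (2:ℕ)))⁻¹) ^ (p - 1) *
      (Phi p 0 0 0 + P2 p * (-(2 * t3 p) * D + (-(5 * SCD27A.h2 p) + 1 + 1) * C))) * e8 h5

/-- the truncated `2F1` from the two closed forms -/
theorem Phi_zero (h5 : 5 < p) : Phi p 0 0 0 = 2 * Phi p (-(1 * t3 p)) (-w6 p) 0 - Phi p (-(2 * t3 p)) (-t3 p) 0 := by
  obtain ⟨D, C, hDC⟩ := Phi_exp p
  rw [hDC (-(1 * t3 p)), hDC (-(2 * t3 p))]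
  linear_combination (P2 p * C * t3 p) * e6 h5 - (P2 p * C * 2 * w6 p) * e3 h5

end

end SCD27A
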